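import Mathlib

namespace Pool.Agent.H560Bh

open Finset

/-- `A` is a `B_h` set in the abelian group `G`: two `h`-term sums of elements of `A` (repetition
allowed) which are equal use the same multiset of elements. -/
def IsBh {G : Type} [AddCommGroup G] (h : ℕ) (A : Finset G) : Prop :=
  ∀ s t : Multiset G, (∀ x ∈ s, x ∈ A) → (∀ x ∈ t, x ∈ A) →
    Multiset.card s = h → Multiset.card t = h → s.sum = t.sum → s = t

/-- the largest size of a `B_h` set in the cyclic group of order `n` (`n ≥ 1`). -/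
noncomputable def sigma (n h : ℕ) : ℕ :=
  sSup {c | ∃ A : Finset (ZMod n), IsBh h A ∧ A.card = c}

/-- the least positive `N` such that `sigma n h ≥ m` for every `n ≥ N`. -/
noncomputable def g (m h : ℕ) : ℕ :=
  sInf {N | 0 < N ∧ ∀ n ≥ N, m ≤ sigma n h}

theorem sigma_bdd (n h : ℕ) (hn : 0 < n) :
    BddAbove {c | ∃ A : Finset (ZMod n), IsBh h A ∧ A.card = c} := by
  have : NeZero n := ⟨by omega⟩
  refine ⟨n, ?_⟩
  rintro c ⟨A, _, rfl⟩
  have := Finset.card_le_univ A
  rwa [ZMod.card] at this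

theorem le_sigma {n h : ℕ} (hn : 0 < n) {A : Finset (ZMod n)} (hA : IsBh h A) :
    A.card ≤ sigma n h :=
  le_csSup (sigma_bdd n h hn) ⟨A, hA, rfl⟩

theorem isBh_empty {n : ℕ} (h : ℕ) : IsBh h (∅ : Finset (ZMod n)) := by
  intro s t hs ht _ _ _
  have e1 : s = 0 := Multiset.eq_zero_of_forall_notMem fun x hx => by simpa using hs x hx
  have e2 : t = 0 := Multiset.eq_zero_of_forall_notMem fun x hx => by simpa using ht x hx
  rw [e1, e2]

theorem exists_of_sigma {n h m : ℕ} (hn : 0 < n) (hm : m ≤ sigma n h) :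
    ∃ A : Finset (ZMod n), IsBh h A ∧ m ≤ A.card := by
  have hne : {c | ∃ A : Finset (ZMod n), IsBh h A ∧ A.card = c}.Nonempty :=
    ⟨0, ∅, isBh_empty h, rfl⟩
  obtain ⟨A, hA, hc⟩ := Nat.sSup_mem hne (sigma_bdd n h hn)
  exact ⟨A, hA, hm.trans hc.ge⟩

/-! ### the set `{0, 1, Q + 1}` -/

theorem arith (h u Q t n : ℕ) (hh : 1 ≤ h) (hu : h ≤ 2 * u) (hQ : h ≤ Q)
    (ht : t + 2 * h + 1 ≤ Q + u) (hn : n = h + 1 + Q * u + t) (X Y : ℤ)
    (hX1 : X ≤ h) (hX2 : -h ≤ X) (hY1 : Y ≤ h) (hY2 : -h ≤ Y) (h1 : X + Y ≤ h) (h2 : -h ≤ X + Y)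
    (hd : (n : ℤ) ∣ X + Y * (Q + 1)) : X = 0 ∧ Y = 0 := by
  -- the case `0 ≤ Y`
  have key : ∀ X Y : ℤ, X ≤ h → -h ≤ X → 0 ≤ Y → Y ≤ h → X + Y ≤ h → -h ≤ X + Y →
      (n : ℤ) ∣ X + Y * (Q + 1) → X = 0 ∧ Y = 0 := by
    intro X Y hX1 hX2 hY0 hY1 h1 h2 hd
    have hnZ : (n : ℤ) = h + 1 + Q * u + t := by exact_mod_cast hn
    have hQZ : (h : ℤ) ≤ Q := by exact_mod_cast hQ
    have huZ : (h : ℤ) ≤ 2 * u := by exact_mod_cast hu
    have htZ : (t : ℤ) + 2 * h + 1 ≤ Q + u := by exact_mod_cast ht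
    have hh0 : (1 : ℤ) ≤ h := by exact_mod_cast hh
    have hu0 : (0 : ℤ) ≤ u := by positivity
    have hQu : (0 : ℤ) ≤ Q * u := by positivity
    rcases eq_or_lt_of_le hY0 with hY | hY
    · subst hY
      refine ⟨?_, rfl⟩
      have hd' : (n : ℤ) ∣ X := by simpa using hd
      by_contra hne
      have := Int.le_of_dvd (show 0 < |X| by positivity) ((dvd_abs _ _).mpr hd')
      have : |X| ≤ h := abs_le.mpr ⟨hX2, hX1⟩
      omega
    · exfalso
      rcases le_or_gt Y u with hYu | hYu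
      · have hpos : 0 < X + Y * (Q + 1) := by nlinarith
        have hlt : X + Y * (Q + 1) < n := by
          have : Y * Q ≤ u * Q := by gcongr
          nlinarith
        have := Int.le_of_dvd hpos hd
        omega
      · have hpos : 0 < X + Y * (Q + 1) - n := by
          have : ((u : ℤ) + 1) * (Q + 1) ≤ Y * (Q + 1) := by
            apply mul_le_mul_of_nonneg_right _ (by positivity)
            omega
          nlinarith
        have hlt : X + Y * (Q + 1) - n < n := by
          have e1 : Y * Q ≤ h * Q := by gcongr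
          have e2 : (h : ℤ) * Q ≤ 2 * u * Q := by gcongr
          nlinarith
        have := Int.le_of_dvd hpos (dvd_sub hd (dvd_refl _))
        omega
  rcases le_or_gt 0 Y with hY | hY
  · exact key X Y hX1 hX2 hY hY1 h1 h2 hd
  · have hd' : (n : ℤ) ∣ -X + -Y * (Q + 1) := by
      have := (dvd_neg (α := ℤ)).mpr hd
      have e : -(X + Y * (Q + 1)) = -X + -Y * (Q + 1) := by ring
      rwa [e] at this
    obtain ⟨a, b⟩ := key (-X) (-Y) (by omega) (by omega) (by omega) (by omega) (by omega)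
      (by omega) hd'
    omega

theorem isBh_three (h u Q t n : ℕ) (hh : 1 ≤ h) (hu : h ≤ 2 * u) (hQ : h ≤ Q)
    (ht : t + 2 * h + 1 ≤ Q + u) (hn : n = h + 1 + Q * u + t) : 3 ≤ sigma n h := by
  classical
  have hn0 : 0 < n := by omega
  have main : ∀ X Y : ℤ, X ≤ h → -h ≤ X → Y ≤ h → -h ≤ Y → X + Y ≤ h → -h ≤ X + Y →
      (X : ZMod n) + (Y : ZMod n) * ((Q + 1 : ℕ) : ZMod n) = 0 → X = 0 ∧ Y = 0 := by
    intro X Y a1 a2 a3 a4 a5 a6 hz
    apply arith h u Q t n hh hu hQ ht hn X Y a1 a2 a3 a4 a5 a6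
    rw [← ZMod.intCast_zmod_eq_zero_iff_dvd]
    push_cast at hz ⊢
    exact hz
  set b : ZMod n := ((Q + 1 : ℕ) : ZMod n) with hb
  have h01 : (0 : ZMod n) ≠ 1 := by
    intro hc
    have := main 1 0 (by omega) (by omega) (by omega) (by omega) (by omega) (by omega)
      (by push_cast; rw [← hc]; simp)
    omega
  have h0b : (0 : ZMod n) ≠ b := by
    intro hc
    have := main 0 1 (by omega) (by omega) (by omega) (by omega) (by omega) (by omega)
      (by rw [← hc]; simp)
    omega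
  have h1b : (1 : ZMod n) ≠ b := by
    intro hc
    have := main (-1) 1 (by omega) (by omega) (by omega) (by omega) (by omega) (by omega)
      (by rw [← hc]; push_cast; ring)
    omega
  set A : Finset (ZMod n) := {0, 1, b} with hA
  have hcard : A.card = 3 := by
    rw [hA, Finset.card_insert_of_notMem (by simp [h01, h0b]),
      Finset.card_insert_of_notMem (by simp [h1b]), Finset.card_singleton]
  have hsum : ∀ s : Multiset (ZMod n), (∀ x ∈ s, x ∈ A) →
      s.sum = (s.count 1 : ZMod n) + (s.count b : ZMod n) * b ∧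
      s.count 0 + (s.count 1 + s.count b) = Multiset.card s := by
    intro s hs
    constructor
    · rw [Finset.sum_multiset_count_of_subset s A (fun x hx => hs x (Multiset.mem_toFinset.mp hx)),
        hA, Finset.sum_insert (by simp [h01, h0b]), Finset.sum_insert (by simp [h1b]),
        Finset.sum_singleton]
      simp
    · rw [← Multiset.sum_count_eq_card (s := A) hs, hA, Finset.sum_insert (by simp [h01, h0b]),
        Finset.sum_insert (by simp [h1b]), Finset.sum_singleton]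
  have hBh : IsBh h A := by
    intro s t' hs ht' hcs hct hst
    obtain ⟨s1, s2⟩ := hsum s hs
    obtain ⟨t1, t2⟩ := hsum t' ht'
    rw [s1, t1] at hst
    have hz := main ((s.count 1 : ℤ) - t'.count 1) ((s.count b : ℤ) - t'.count b) (by omega)
      (by omega) (by omega) (by omega) (by omega) (by omega) (by
        push_cast
        linear_combination hst)
    ext a
    by_cases ha : a ∈ A
    · rw [hA] at ha
      simp only [Finset.mem_insert, Finset.mem_singleton] at ha
      rcases ha with rfl | rfl | rfl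
      · omega
      · omega
      · omega
    · rw [Multiset.count_eq_zero_of_notMem (fun h => ha (hs a h)),
        Multiset.count_eq_zero_of_notMem (fun h => ha (ht' a h))]
  have := le_sigma hn0 hBh
  omega

/-! ### the chain of divisions -/

theorem chain (h n u s : ℕ) (hh : 1 ≤ h) (hu : h ≤ 2 * u) (hs : 12 * u ≤ s ^ 2)
    (hn : h + 1 + (3 * u + s) * u ≤ n) : 3 ≤ sigma n h := by
  classical
  have hu0 : 0 < u := by omega
  set N := n - h - 1 with hN
  set Q0 := N / u with hQ0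
  set t0 := N % u with ht0
  have hdiv : Q0 * u + t0 = N := by rw [hQ0, ht0, mul_comm]; exact Nat.div_add_mod N u
  have ht0u : t0 < u := Nat.mod_lt _ hu0
  have hQs : 3 * u + s ≤ Q0 := by
    rw [hQ0, Nat.le_div_iff_mul_le hu0]
    omega
  set s0 : ℤ := (Q0 : ℤ) - 3 * u with hs0
  have hs0s : (s : ℤ) ≤ s0 := by omega
  -- T j = t0 - j s0 + 3 j^2
  set T : ℕ → ℤ := fun j => (t0 : ℤ) - j * s0 + 3 * (j : ℤ) ^ 2 with hT
  have hex : ∃ j, T j < 0 := by
    have hs0nn : 0 ≤ s0 := le_trans (by positivity) hs0s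
    obtain ⟨j, hj⟩ : ∃ j : ℕ, s0 ≤ 6 * (j : ℤ) + 3 ∧ 6 * (j : ℤ) - 3 ≤ s0 := by
      refine ⟨((s0 + 3) / 6).toNat, ?_, ?_⟩
      · have : 0 ≤ (s0 + 3) / 6 := by omega
        omega
      · have : 0 ≤ (s0 + 3) / 6 := by omega
        omega
    refine ⟨j, ?_⟩
    simp only [hT]
    have h1 : (s0 - 6 * (j : ℤ)) ^ 2 ≤ 9 := by nlinarith
    have h2 : (12 * (u : ℤ)) ≤ s0 ^ 2 := by
      have a : (12 * (u : ℤ)) ≤ (s : ℤ) ^ 2 := by exact_mod_cast hs
      have b : (s : ℤ) ^ 2 ≤ s0 ^ 2 := by gcongr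
      linarith
    have h3 : (t0 : ℤ) + 1 ≤ u := by exact_mod_cast ht0u
    nlinarith
  have hT0 : ¬ T 0 < 0 := by simp [hT]
  set j1 := Nat.find hex with hj1
  have hj1lt : T j1 < 0 := Nat.find_spec hex
  have hj1pos : j1 ≠ 0 := by
    intro h0
    rw [h0] at hj1lt
    exact hT0 hj1lt
  obtain ⟨j, hj⟩ : ∃ j, j1 = j + 1 := ⟨j1 - 1, by omega⟩
  have hTj : 0 ≤ T j := by
    have := Nat.find_min hex (show j < Nat.find hex by rw [← hj1]; omega)
    omega
  rw [hj] at hj1lt
  have hstep : T j + 1 ≤ s0 - 6 * (j : ℤ) - 3 := by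
    simp only [hT] at hj1lt ⊢
    push_cast at hj1lt
    nlinarith
  -- final data
  have hQj : (3 * j : ℤ) ≤ Q0 := by omega
  have hQj' : 3 * j ≤ Q0 := by exact_mod_cast hQj
  refine isBh_three h (u + j) (Q0 - 3 * j) (T j).toNat n hh (by omega) ?_ ?_ ?_
  · have : (h : ℤ) ≤ (Q0 : ℤ) - 3 * j := by omega
    omega
  · have : T j + 2 * h + 1 ≤ (Q0 : ℤ) - 3 * j + (u + j) := by omega
    omega
  · have e1 : ((T j).toNat : ℤ) = T j := Int.toNat_of_nonneg hTj
    have e2 : ((Q0 - 3 * j : ℕ) : ℤ) = (Q0 : ℤ) - 3 * j := by omega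
    have e3 : (N : ℤ) = (n : ℤ) - h - 1 := by omega
    have e4 : (Q0 : ℤ) * u + t0 = N := by exact_mod_cast hdiv
    have : (n : ℤ) = h + 1 + ((Q0 - 3 * j : ℕ) : ℤ) * ((u + j : ℕ) : ℤ) + ((T j).toNat : ℤ) := by
      rw [e1, e2]
      simp only [hT, hs0]
      push_cast
      linear_combination -e3 - e4
    exact_mod_cast this

end Pool.Agent.H560Bh
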