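import Mathlib

namespace Pool.Agent.H560Bh

open Finset

/-- iterated forward difference. -/
def dif : ℕ → (ℕ → ℝ) → ℕ → ℝ
  | 0, F, i => F i
  | k + 1, F, i => dif k F (i + 1) - dif k F i

theorem dif_shift (k : ℕ) (F : ℕ → ℝ) (a i : ℕ) :
    dif k (fun j => F (a + j)) i = dif k F (a + i) := by
  induction k generalizing i with
  | zero => rfl
  | succ k ih =>
    simp only [dif]
    rw [ih, ih, add_assoc]

/-- `x` is in the interval `[η, 2 η]` modulo one. -/
def nearI (η x : ℝ) : Prop := ∃ z : ℤ, η ≤ x - z ∧ x - z ≤ 2 * η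

theorem dif_lemma (k : ℕ) : ∀ δ > (0 : ℝ), ∃ η > (0 : ℝ), ∃ J : ℕ, ∀ F : ℕ → ℝ,
    (∀ i ≤ J, nearI η (dif k F i)) → ∃ i ≤ J, ∃ z : ℤ, |F i - z| ≤ δ := by
  induction k with
  | zero =>
    intro δ hδ
    refine ⟨δ / 2, by positivity, 0, fun F hF => ⟨0, le_rfl, ?_⟩⟩
    obtain ⟨z, h1, h2⟩ := hF 0 le_rfl
    refine ⟨z, ?_⟩
    simp only [dif] at h1 h2
    rw [abs_le]
    constructor <;> linarith
  | succ k ih =>
    intro δ hδ
    obtain ⟨η, hη, J, hJ⟩ := ih δ hδ
    set η' : ℝ := η / (4 * (J + 1)) with hη'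
    have hη'0 : 0 < η' := by positivity
    have hηη' : 2 * η' * (J + 1) = η / 2 := by
      rw [hη']
      field_simp
      norm_num
    set N : ℕ := ⌈1 / η'⌉₊ with hN
    have hNη : 1 ≤ N * η' := by
      have : 1 / η' ≤ N := Nat.le_ceil _
      rwa [div_le_iff₀ hη'0] at this
    refine ⟨η', hη'0, J + N, fun F hF => ?_⟩
    have hF' : ∀ i : ℕ, ∃ z : ℤ, i ≤ J + N →
        η' ≤ dif (k + 1) F i - z ∧ dif (k + 1) F i - z ≤ 2 * η' := by
      intro i
      by_cases hi : i ≤ J + N
      · obtain ⟨z, hz⟩ := hF i hi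
        exact ⟨z, fun _ => hz⟩
      · exact ⟨0, fun h => absurd h hi⟩
    choose z hz using hF'
    set G : ℕ → ℝ := fun i => dif k F i - ((∑ j ∈ range i, z j : ℤ) : ℝ) with hG
    have hstep : ∀ i ≤ J + N, η' ≤ G (i + 1) - G i ∧ G (i + 1) - G i ≤ 2 * η' := by
      intro i hi
      have := hz i hi
      have e : G (i + 1) - G i = dif (k + 1) F i - z i := by
        simp only [hG, dif, sum_range_succ]
        push_cast
        ring
      rw [e]
      exact this
    have hgrow : ∀ i ≤ J + N + 1, G 0 + i * η' ≤ G i := by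
      intro i
      induction i with
      | zero => intro _; simp
      | succ i ihi =>
        intro hi
        have h1 := ihi (by omega)
        have h2 := (hstep i (by omega)).1
        push_cast
        linarith
    set T : ℝ := ⌈G 0 - η⌉ + η with hT
    have hT1 : G 0 ≤ T := by
      have := Int.le_ceil (G 0 - η)
      rw [hT]; linarith
    have hT2 : T < G 0 + 1 := by
      have := Int.ceil_lt_add_one (G 0 - η)
      rw [hT]; linarith
    have hex : ∃ i, T ≤ G i := ⟨N, by
      have := hgrow N (by omega)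
      linarith⟩
    classical
    set i0 := Nat.find hex with hi0
    have hi0T : T ≤ G i0 := Nat.find_spec hex
    have hi0N : i0 ≤ N := Nat.find_min' hex (by
      have := hgrow N (by omega)
      linarith)
    have hi0U : G i0 ≤ T + 2 * η' := by
      rcases Nat.eq_zero_or_pos i0 with h0 | h0
      · rw [h0]; linarith
      · obtain ⟨j, hj⟩ : ∃ j, i0 = j + 1 := ⟨i0 - 1, by omega⟩
        have h1 : ¬ T ≤ G j := Nat.find_min hex (show j < Nat.find hex by rw [← hi0]; omega)
        have h2 := (hstep j (by omega)).2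
        rw [hj]
        linarith
    have hrun : ∀ i ≤ J, G i0 ≤ G (i0 + i) ∧ G (i0 + i) ≤ G i0 + 2 * η' * i := by
      intro i
      induction i with
      | zero => intro _; simp
      | succ i ihi =>
        intro hi
        obtain ⟨h1, h2⟩ := ihi (by omega)
        obtain ⟨h3, h4⟩ := hstep (i0 + i) (by omega)
        rw [← add_assoc]
        push_cast
        constructor
        · linarith
        · nlinarith
    obtain ⟨i, hi, zz, hzz⟩ := hJ (fun j => F (i0 + j)) (by
      intro i hi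
      obtain ⟨h1, h2⟩ := hrun i hi
      refine ⟨⌈G 0 - η⌉ + ∑ j ∈ range (i0 + i), z j, ?_⟩
      rw [dif_shift]
      have e : dif k F (i0 + i) - ((⌈G 0 - η⌉ + ∑ j ∈ range (i0 + i), z j : ℤ) : ℝ) =
          G (i0 + i) - (T - η) := by
        simp only [hG, hT]
        push_cast
        ring
      rw [e]
      have hiJ : 2 * η' * i ≤ 2 * η' * J := by
        have : (i : ℝ) ≤ J := by exact_mod_cast hi
        gcongr
      constructor
      · linarith
      · nlinarith)
    exact ⟨i0 + i, by omega, zz, hzz⟩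

theorem dif_inv (c : ℝ) (Q r : ℝ) (hQ : 0 < Q) (hr : 0 ≤ r) (k : ℕ) (i : ℕ) :
    dif k (fun i => c / (Q + r * i)) i =
      (-1) ^ k * (c * k.factorial * r ^ k) / ∏ l ∈ range (k + 1), (Q + r * (i + l)) := by
  induction k generalizing i with
  | zero => simp [dif]
  | succ k ih =>
    have hpos : ∀ a : ℝ, 0 ≤ a → Q + r * a ≠ 0 := by
      intro a ha
      have : 0 < Q + r * a := by positivity
      exact this.ne'
    simp only [dif]
    rw [ih, ih]
    have hA : ∏ l ∈ range (k + 1 + 1), (Q + r * ((i : ℝ) + l)) =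
        (∏ l ∈ range (k + 1), (Q + r * ((i : ℝ) + l))) * (Q + r * (i + (k + 1 : ℕ))) := by
      rw [prod_range_succ]
    have hB : ∏ l ∈ range (k + 1 + 1), (Q + r * ((i : ℝ) + l)) =
        (∏ l ∈ range (k + 1), (Q + r * (((i + 1 : ℕ) : ℝ) + l))) * (Q + r * i) := by
      rw [prod_range_succ']
      congr 1
      · apply prod_congr rfl
        intro l _
        push_cast
        ring
      · push_cast
        ring
    have n1 : ∏ l ∈ range (k + 1), (Q + r * ((i : ℝ) + l)) ≠ 0 :=
      prod_ne_zero_iff.mpr fun l _ => hpos _ (by positivity)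
    have n2 : ∏ l ∈ range (k + 1), (Q + r * (((i + 1 : ℕ) : ℝ) + l)) ≠ 0 :=
      prod_ne_zero_iff.mpr fun l _ => hpos _ (by positivity)
    have n3 : ∏ l ∈ range (k + 1 + 1), (Q + r * ((i : ℝ) + l)) ≠ 0 :=
      prod_ne_zero_iff.mpr fun l _ => hpos _ (by positivity)
    have n4 : Q + r * ((i : ℝ) + (k + 1 : ℕ)) ≠ 0 := hpos _ (by positivity)
    have n5 : Q + r * (i : ℝ) ≠ 0 := hpos _ (by positivity)
    have e1 : 1 / (∏ l ∈ range (k + 1), (Q + r * (((i + 1 : ℕ) : ℝ) + l))) =
        (Q + r * i) / ∏ l ∈ range (k + 1 + 1), (Q + r * ((i : ℝ) + l)) := by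
      rw [hB]
      field_simp
    have e2 : 1 / (∏ l ∈ range (k + 1), (Q + r * ((i : ℝ) + l))) =
        (Q + r * (i + (k + 1 : ℕ))) / ∏ l ∈ range (k + 1 + 1), (Q + r * ((i : ℝ) + l)) := by
      rw [hA]
      field_simp
    rw [div_eq_mul_one_div _ (∏ l ∈ range (k + 1), (Q + r * (((i + 1 : ℕ) : ℝ) + l))),
      div_eq_mul_one_div _ (∏ l ∈ range (k + 1), (Q + r * ((i : ℝ) + l))), e1, e2,
      Nat.factorial_succ]
    push_cast
    field_simp
    ring

end Pool.Agent.H560Bh
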