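import Pool.Agent.H560Bh.GeomB

namespace Pool.Agent.H560Bh

open Finset Filter Topology

theorem g_spec_all (d h : ℕ) :
    0 < g (d + 2) h ∧ ∀ n ≥ g (d + 2) h, d + 2 ≤ sigma n h := by
  obtain ⟨H, hH⟩ := g_spec d
  obtain ⟨h1, h2⟩ := hH (max H h) (le_max_left _ _)
  have hmem : g (d + 2) (max H h) ∈ {N | 0 < N ∧ ∀ n ≥ N, d + 2 ≤ sigma n h} := by
    refine ⟨h1, fun n hn => ?_⟩
    have hn0 : 0 < n := lt_of_lt_of_le h1 hn
    obtain ⟨A, hA, hc⟩ := exists_of_sigma hn0 (h2 n hn)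
    exact hc.trans (le_sigma hn0 (isBh_mono (le_max_right _ _) hA))
  exact Nat.sInf_mem ⟨_, hmem⟩

theorem g_ge (d h : ℕ) : crit (d + 1) * ((h : ℝ) + 1) ^ (d + 1) ≤ g (d + 2) h := by
  obtain ⟨h1, h2⟩ := g_spec_all d h
  have h3 : (f (d + 2) h : ℝ) ≤ g (d + 2) h := by exact_mod_cast f_le_of_sigma h1 (h2 _ le_rfl)
  have h4 := c_le (d + 2) h
  have e : d + 2 - 1 = d + 1 := by omega
  rw [e, le_div_iff₀ (by positivity), c_eq_crit] at h4
  exact h4.trans h3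

end Pool.Agent.H560Bh
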