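import Pool.Agent.H560Bh.Limit

namespace Pool.Agent.H560Bh

open Finset Filter Topology

/-- the critical determinant of the body `{x : ℝ ^ d | nrm x < 1}`: the infimum of `|det B|` over
the real invertible `d × d` matrices `B` such that `nrm (B z) ≥ 1` for every nonzero `z ∈ ℤ ^ d`. -/
noncomputable def crit (d : ℕ) : ℝ :=
  sInf {v | ∃ B : Matrix (Fin d) (Fin d) ℝ, B.det ≠ 0 ∧
    (∀ z : Fin d → ℤ, z ≠ 0 → 1 ≤ nrm (B.mulVec fun i => (z i : ℝ))) ∧ v = |B.det|}

theorem c_le_data (d : ℕ) (u : Module.Basis (Fin (d + 1)) ℤ (Fin (d + 1) → ℤ))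
    (D : Fin (d + 1) → ℕ) (hD : ∀ i, 0 < D i) (b : ℝ) (hb0 : 0 < b)
    (hz : ∀ z : Fin (d + 1) → ℤ, z ≠ 0 →
      b ≤ nrm (fun j => ((∑ i, ((D i : ℤ) * z i) * u i j : ℤ) : ℝ))) :
    c (d + 2) ≤ (∏ i, (D i : ℝ)) / b ^ (d + 1) := by
  set r : ℝ := (∏ i, (D i : ℝ)) / b ^ (d + 1) with hr
  have hP0 : 0 < ∏ i, (D i : ℝ) := prod_pos fun i _ => by exact_mod_cast hD i
  have hr0 : 0 < r := by positivity
  have key : ∀ θ : ℝ, 1 < θ → c (d + 2) ≤ θ * r := by
    intro θ hθ
    obtain ⟨H, hH⟩ := upper_data d u D hD b hb0 hz θ hθ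
    have hlim : Tendsto (fun h : ℕ => θ * r + 1 / (h : ℝ) ^ (d + 1)) atTop (𝓝 (θ * r + 0)) :=
      tendsto_const_nhds.add (tendsto_const_div_pow 1 (d + 1) (by omega))
    rw [add_zero] at hlim
    refine le_of_tendsto_of_tendsto (main d).1 hlim ?_
    filter_upwards [eventually_ge_atTop (H + 1)] with h hh
    have hhR : (0 : ℝ) < h := by exact_mod_cast (by omega : 0 < h)
    set x : ℝ := θ * r * (h : ℝ) ^ (d + 1) with hx
    have hx0 : 0 < x := by
      have : 0 < θ := by linarith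
      positivity
    have h1 : g (d + 2) h ≤ ⌈x⌉₊ := Nat.sInf_le ⟨Nat.ceil_pos.mpr hx0, fun n hn =>
      hH h (by omega) n ((Nat.le_ceil x).trans (by exact_mod_cast hn))⟩
    have h2 : (⌈x⌉₊ : ℝ) < x + 1 := Nat.ceil_lt_add_one hx0.le
    have h3 : (g (d + 2) h : ℝ) ≤ (⌈x⌉₊ : ℝ) := by exact_mod_cast h1
    have h4 : (g (d + 2) h : ℝ) ≤ x + 1 := by linarith
    have hpos : 0 < (h : ℝ) ^ (d + 1) := by positivity
    rw [div_le_iff₀ hpos, add_mul, ← hx, one_div, inv_mul_cancel₀ hpos.ne']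
    exact h4
  by_contra hlt
  rw [not_le] at hlt
  have h1 := key ((1 + c (d + 2) / r) / 2) (by
    have : 1 < c (d + 2) / r := by rwa [one_lt_div hr0]
    linarith)
  have h2 : (1 + c (d + 2) / r) / 2 * r = (r + c (d + 2)) / 2 := by field_simp
  linarith

theorem c_le_int (d : ℕ) (M : Matrix (Fin (d + 1)) (Fin (d + 1)) ℤ) (hM : M.det ≠ 0) (b : ℝ)
    (hb0 : 0 < b)
    (hz : ∀ z : Fin (d + 1) → ℤ, z ≠ 0 → b ≤ nrm (fun j => ((M.mulVec z j : ℤ) : ℝ))) :
    c (d + 2) ≤ |(M.det : ℝ)| / b ^ (d + 1) := by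
  classical
  have hinj : Function.Injective M.mulVecLin := by
    rw [← LinearMap.ker_eq_bot, LinearMap.ker_eq_bot']
    intro y hy
    exact Matrix.eq_zero_of_mulVec_eq_zero hM hy
  set L : Submodule ℤ (Fin (d + 1) → ℤ) := LinearMap.range M.mulVecLin with hL
  obtain ⟨eq, heq⟩ : ∃ eq : (Fin (d + 1) → ℤ) ≃ₗ[ℤ] L,
      ∀ y, (eq y : Fin (d + 1) → ℤ) = M.mulVec y :=
    ⟨LinearEquiv.ofInjective M.mulVecLin hinj, fun y => rfl⟩
  set bN : Module.Basis (Fin (d + 1)) ℤ L := (Pi.basisFun ℤ (Fin (d + 1))).map eq with hbN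
  have hrank : Module.finrank ℤ L = Module.finrank ℤ (Fin (d + 1) → ℤ) := eq.symm.finrank_eq
  obtain ⟨u, c', ab, hab⟩ :=
    Submodule.exists_smith_normal_form_of_rank_eq (Pi.basisFun ℤ (Fin (d + 1))) hrank
  have hc0 : ∀ i, c' i ≠ 0 := by
    intro i hi
    apply ab.ne_zero i
    have := hab i
    rw [hi, zero_smul] at this
    exact Subtype.ext this
  have hmem : ∀ i, (((c' i).natAbs : ℕ) : ℤ) • u i ∈ L := by
    intro i
    have h1 : c' i • u i ∈ L := by rw [← hab i]; exact (ab i).2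
    rcases Int.natAbs_eq (c' i) with h2 | h2
    · rw [← h2]; exact h1
    · have h3 : (((c' i).natAbs : ℕ) : ℤ) = -(c' i) := by omega
      rw [h3, neg_smul]
      exact L.neg_mem h1
  have hdet : ∏ i, (c' i).natAbs = M.det.natAbs := by
    have e1 := Submodule.natAbs_det_basis_change u L ab
    have e2 := Submodule.natAbs_det_basis_change (Pi.basisFun ℤ (Fin (d + 1))) L bN
    have e3 : u.det ((↑) ∘ ab) = ∏ i, c' i := by
      have : ((↑) ∘ ab : Fin (d + 1) → (Fin (d + 1) → ℤ)) = fun i => c' i • u i := by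
        funext i
        exact hab i
      rw [this, AlternatingMap.map_smul_univ, u.det_self, smul_eq_mul, mul_one]
    have e4 : (Pi.basisFun ℤ (Fin (d + 1))).det ((↑) ∘ bN) = M.det := by
      rw [Pi.basisFun_det_apply, ← Matrix.det_transpose]
      congr 1
      ext i j
      simp [hbN, heq, Matrix.transpose_apply, Matrix.of_apply]
    rw [e3] at e1
    rw [e4] at e2
    rw [e2, ← e1]
    exact (map_prod Int.natAbsHom c' univ).symm
  have h1 := c_le_data d u (fun i => (c' i).natAbs) (fun i => Int.natAbs_pos.mpr (hc0 i)) b hb0 (by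
    intro z hz0
    set y : Fin (d + 1) → ℤ := ∑ i, (((c' i).natAbs : ℤ) * z i) • u i with hy
    have hyj : ∀ j, y j = ∑ i, (((c' i).natAbs : ℤ) * z i) * u i j := by
      intro j
      rw [hy, Finset.sum_apply]
      rfl
    simp only [← hyj]
    have hyL : y ∈ L := by
      rw [hy]
      apply Submodule.sum_mem
      intro i _
      rw [mul_comm, mul_smul]
      exact L.smul_mem _ (hmem i)
    obtain ⟨z', hz'⟩ := LinearMap.mem_range.mp hyL
    rw [Matrix.mulVecLin_apply] at hz'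
    rw [← hz']
    apply hz
    rintro rfl
    rw [Matrix.mulVec_zero] at hz'
    apply hz0
    ext i
    have h3 := congrArg (fun y => u.repr y i) hz'.symm
    simp only [hy] at h3
    rw [u.repr_sum_self, map_zero] at h3
    have h4 : ((c' i).natAbs : ℤ) * z i = 0 := h3
    rcases mul_eq_zero.mp h4 with h5 | h5
    · exact absurd h5 (by have := hc0 i; omega)
    · exact h5)
  have h2 : (∏ i, (((c' i).natAbs : ℕ) : ℝ)) = |(M.det : ℝ)| := by
    have : ((∏ i, (c' i).natAbs : ℕ) : ℝ) = |(M.det : ℝ)| := by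
      rw [hdet, Nat.cast_natAbs, Int.cast_abs]
    rw [← this, Nat.cast_prod]
  rw [h2] at h1
  exact h1

end Pool.Agent.H560Bh
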