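import Pool.Agent.H560Bh.Geom

namespace Pool.Agent.H560Bh

open Finset Filter Topology

theorem cast_det {k : ℕ} (M : Matrix (Fin k) (Fin k) ℤ) :
    (M.det : ℝ) = (M.map (Int.cast : ℤ → ℝ)).det := by
  have := RingHom.map_det (Int.castRingHom ℝ) M
  simpa using this

theorem c_le_real (d : ℕ) (B : Matrix (Fin (d + 1)) (Fin (d + 1)) ℝ) (hB : B.det ≠ 0)
    (hz : ∀ z : Fin (d + 1) → ℤ, z ≠ 0 → 1 ≤ nrm (B.mulVec fun i => (z i : ℝ))) :
    c (d + 2) ≤ |B.det| := by
  classical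
  set C : ℝ := ∑ i, ∑ j, |B⁻¹ i j| with hC
  have hC0 : 0 ≤ C := sum_nonneg fun _ _ => sum_nonneg fun _ _ => abs_nonneg _
  have hzC : ∀ z : Fin (d + 1) → ℤ, ∑ i, |(z i : ℝ)| ≤
      C * nrm (B.mulVec fun i => (z i : ℝ)) := by
    intro z
    have e : (fun i => (z i : ℝ)) = B⁻¹.mulVec (B.mulVec fun i => (z i : ℝ)) := by
      rw [Matrix.mulVec_mulVec, Matrix.nonsing_inv_mul B (isUnit_iff_ne_zero.mpr hB),
        Matrix.one_mulVec]
    rw [hC, sum_mul]
    apply sum_le_sum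
    intro i _
    have e2 : (z i : ℝ) = ∑ j, B⁻¹ i j * (B.mulVec fun i => (z i : ℝ)) j := by
      conv_lhs => rw [show (z i : ℝ) = (fun i => (z i : ℝ)) i from rfl, e]
      rfl
    rw [e2, sum_mul]
    refine (abs_sum_le_sum_abs _ _).trans (sum_le_sum fun j _ => ?_)
    rw [abs_mul]
    gcongr
    exact abs_le_nrm _ j
  set M : ℕ → Matrix (Fin (d + 1)) (Fin (d + 1)) ℤ := fun q =>
    Matrix.of fun i j => round ((q : ℝ) * B i j) with hM
  set C₁ : ℝ := (d + 1) * C with hC₁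
  have hC₁0 : 0 ≤ C₁ := by positivity
  have hlow : ∀ q : ℕ, C₁ < q → ∀ z : Fin (d + 1) → ℤ, z ≠ 0 →
      (q : ℝ) - C₁ ≤ nrm (fun j => (((M q).mulVec z j : ℤ) : ℝ)) := by
    intro q hq z hz0
    set N := nrm (B.mulVec fun i => (z i : ℝ)) with hN
    have hN1 : 1 ≤ N := hz z hz0
    have h1 : (q : ℝ) * N ≤ nrm (fun j => (((M q).mulVec z j : ℤ) : ℝ)) +
        ∑ j, |(q : ℝ) * (B.mulVec fun i => (z i : ℝ)) j - (((M q).mulVec z j : ℤ) : ℝ)| := by
      rw [hN, ← nrm_mul _ (Nat.cast_nonneg q)]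
      have e : (fun j => (q : ℝ) * (B.mulVec fun i => (z i : ℝ)) j) =
          fun j => (((M q).mulVec z j : ℤ) : ℝ) +
            ((q : ℝ) * (B.mulVec fun i => (z i : ℝ)) j - (((M q).mulVec z j : ℤ) : ℝ)) := by
        ext j; ring
      conv_lhs => rw [e]
      exact (nrm_add_le _ _).trans (add_le_add le_rfl (nrm_le_sum _))
    have h2 : ∑ j, |(q : ℝ) * (B.mulVec fun i => (z i : ℝ)) j - (((M q).mulVec z j : ℤ) : ℝ)| ≤
        (d + 1) * ∑ i, |(z i : ℝ)| := by
      have h3 : ∀ j, |(q : ℝ) * (B.mulVec fun i => (z i : ℝ)) j -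
          (((M q).mulVec z j : ℤ) : ℝ)| ≤ ∑ i, |(z i : ℝ)| := by
        intro j
        have e : (q : ℝ) * (B.mulVec fun i => (z i : ℝ)) j - (((M q).mulVec z j : ℤ) : ℝ) =
            ∑ i, ((q : ℝ) * B j i - round ((q : ℝ) * B j i)) * (z i : ℝ) := by
          simp only [hM, Matrix.mulVec, dotProduct, Matrix.of_apply]
          push_cast
          rw [mul_sum, ← sum_sub_distrib]
          apply sum_congr rfl
          intro i _
          ring
        rw [e]
        refine (abs_sum_le_sum_abs _ _).trans (sum_le_sum fun i _ => ?_)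
        rw [abs_mul]
        have := abs_sub_round ((q : ℝ) * B j i)
        nlinarith [abs_nonneg (z i : ℝ)]
      calc _ ≤ ∑ _j : Fin (d + 1), ∑ i, |(z i : ℝ)| := sum_le_sum fun j _ => h3 j
        _ = (d + 1) * ∑ i, |(z i : ℝ)| := by
          rw [sum_const, card_univ, Fintype.card_fin, nsmul_eq_mul]
          push_cast
          ring
    have h4 : (d + 1) * ∑ i, |(z i : ℝ)| ≤ C₁ * N := by
      calc (d + 1) * ∑ i, |(z i : ℝ)| ≤ (d + 1) * (C * N) := by
            gcongr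
            exact hzC z
        _ = C₁ * N := by rw [hC₁]; ring
    nlinarith
  -- limits
  have hF : Tendsto (fun q : ℕ => ((M q).det : ℝ) / (q : ℝ) ^ (d + 1)) atTop (𝓝 B.det) := by
    have h1 : Tendsto (fun q : ℕ => (Matrix.of fun i j => (round ((q : ℝ) * B i j) : ℝ) / q :
        Matrix (Fin (d + 1)) (Fin (d + 1)) ℝ)) atTop (𝓝 B) := by
      refine tendsto_pi_nhds.mpr fun i => tendsto_pi_nhds.mpr fun j => ?_
      rw [tendsto_iff_norm_sub_tendsto_zero]
      have h0 : Tendsto (fun q : ℕ => 1 / (q : ℝ)) atTop (𝓝 0) := tendsto_one_div_atTop_nhds_zero_nat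
      refine squeeze_zero' (Eventually.of_forall fun _ => norm_nonneg _) ?_ h0
      filter_upwards [eventually_ge_atTop 1] with q hq
      have hq0 : (0 : ℝ) < q := by exact_mod_cast hq
      rw [Real.norm_eq_abs, Matrix.of_apply]
      have e : (round ((q : ℝ) * B i j) : ℝ) / q - B i j =
          -(((q : ℝ) * B i j - round ((q : ℝ) * B i j)) / q) := by
        field_simp
        ring
      rw [e, abs_neg, abs_div, abs_of_pos hq0]
      have := abs_sub_round ((q : ℝ) * B i j)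
      gcongr
      linarith
    have h2 := (continuous_id.matrix_det.tendsto B).comp h1
    refine h2.congr' ?_
    filter_upwards [eventually_ge_atTop 1] with q hq
    have hq0 : (0 : ℝ) < q := by exact_mod_cast hq
    have e : (Matrix.of fun i j => (round ((q : ℝ) * B i j) : ℝ) / q :
        Matrix (Fin (d + 1)) (Fin (d + 1)) ℝ) = (1 / (q : ℝ)) • (M q).map (Int.cast : ℤ → ℝ) := by
      ext i j
      simp only [hM, Matrix.of_apply, Matrix.smul_apply, Matrix.map_apply, smul_eq_mul]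
      ring
    simp only [Function.comp, id]
    rw [e, Matrix.det_smul, Fintype.card_fin, ← cast_det, div_pow, one_pow]
    ring
  have hG : Tendsto (fun q : ℕ => ((q : ℝ) / ((q : ℝ) - C₁)) ^ (d + 1)) atTop (𝓝 1) := by
    have h1 : Tendsto (fun q : ℕ => (q : ℝ) / ((q : ℝ) - C₁)) atTop (𝓝 1) := by
      have h2 : Tendsto (fun q : ℕ => 1 - C₁ / (q : ℝ)) atTop (𝓝 (1 - 0)) :=
        tendsto_const_nhds.sub (tendsto_const_div_atTop_nhds_zero_nat C₁)
      have h3 := h2.inv₀ (by norm_num)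
      rw [sub_zero, inv_one] at h3
      refine h3.congr' ?_
      obtain ⟨N, hN⟩ := exists_nat_gt C₁
      filter_upwards [eventually_ge_atTop (N + 1)] with q hq
      have hq1 : (N : ℝ) < q := by exact_mod_cast hq
      have hq0 : (0 : ℝ) < q := by linarith
      have hqC : (0 : ℝ) < q - C₁ := by linarith
      have : (1 : ℝ) - C₁ / q = (q - C₁) / q := by field_simp
      rw [this, inv_div]
    have := h1.pow (d + 1)
    rwa [one_pow] at this
  have hlim : Tendsto (fun q : ℕ => |((M q).det : ℝ)| / ((q : ℝ) - C₁) ^ (d + 1)) atTop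
      (𝓝 |B.det|) := by
    have h1 := hF.abs.mul hG
    rw [mul_one] at h1
    refine h1.congr' ?_
    obtain ⟨N, hN⟩ := exists_nat_gt C₁
    filter_upwards [eventually_ge_atTop (N + 1)] with q hq
    have hq1 : (N : ℝ) < q := by exact_mod_cast hq
    have hq0 : (0 : ℝ) < q := by linarith
    have hqC : (0 : ℝ) < q - C₁ := by linarith
    rw [abs_div, abs_of_pos (pow_pos hq0 _), div_pow]
    field_simp
  refine ge_of_tendsto hlim ?_
  obtain ⟨N, hN⟩ := exists_nat_gt C₁
  have hne : ∀ᶠ q : ℕ in atTop, ((M q).det : ℝ) / (q : ℝ) ^ (d + 1) ≠ 0 :=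
    hF.eventually_ne hB
  filter_upwards [eventually_ge_atTop (N + 1), hne] with q hq hq2
  have hq1 : (N : ℝ) < q := by exact_mod_cast hq
  have hqC : (0 : ℝ) < q - C₁ := by linarith
  have hdet : (M q).det ≠ 0 := by
    intro h0
    apply hq2
    rw [h0]
    simp
  exact c_le_int d (M q) hdet ((q : ℝ) - C₁) hqC (hlow q (by linarith))

theorem crit_le_div (d h : ℕ) : ∃ B : Matrix (Fin (d + 1)) (Fin (d + 1)) ℝ, B.det ≠ 0 ∧
    (∀ z : Fin (d + 1) → ℤ, z ≠ 0 → 1 ≤ nrm (B.mulVec fun i => (z i : ℝ))) ∧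
    |B.det| ≤ (f (d + 2) h : ℝ) / ((h : ℝ) + 1) ^ (d + 1) := by
  classical
  obtain ⟨G, iG, iF, A, hGc, hA, hAc⟩ := f_mem d h
  obtain ⟨u, D, hD, hDle, hz⟩ := from_group h d A hA hAc
  rw [hGc] at hDle
  have hb : (0 : ℝ) < (h : ℝ) + 1 := by positivity
  set U : Matrix (Fin (d + 1)) (Fin (d + 1)) ℤ := Matrix.of fun j i => u i j with hU
  have hUdet : |(U.det : ℝ)| = 1 := by
    have h1 : IsUnit ((Pi.basisFun ℤ (Fin (d + 1))).det u) :=
      Module.Basis.isUnit_det _ u
    have h2 : (Pi.basisFun ℤ (Fin (d + 1))).det u = U.det := by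
      rw [Pi.basisFun_det_apply, ← Matrix.det_transpose]
      rfl
    rw [h2] at h1
    rcases Int.isUnit_iff.mp h1 with h3 | h3 <;> rw [h3] <;> norm_num
  set B : Matrix (Fin (d + 1)) (Fin (d + 1)) ℝ :=
    (U.map (Int.cast : ℤ → ℝ)) * Matrix.diagonal (fun i => (D i : ℝ) / ((h : ℝ) + 1)) with hB
  have hBdet : |B.det| = (∏ i, (D i : ℝ)) / ((h : ℝ) + 1) ^ (d + 1) := by
    rw [hB, Matrix.det_mul, Matrix.det_diagonal, abs_mul, ← cast_det, hUdet, one_mul,
      prod_div_distrib, prod_const, card_univ, Fintype.card_fin, abs_of_nonneg]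
    have : 0 ≤ ∏ i, (D i : ℝ) := prod_nonneg fun i _ => Nat.cast_nonneg _
    positivity
  refine ⟨B, ?_, ?_, ?_⟩
  · rw [← abs_pos, hBdet]
    have : 0 < ∏ i, (D i : ℝ) := prod_pos fun i _ => by exact_mod_cast hD i
    positivity
  · intro z hz0
    have h1 := hz z hz0
    have e : (B.mulVec fun i => (z i : ℝ)) = fun j => (1 / ((h : ℝ) + 1)) *
        ((∑ i, ((D i : ℤ) * z i) * u i j : ℤ) : ℝ) := by
      ext j
      rw [hB, ← Matrix.mulVec_mulVec]
      simp only [Matrix.mulVec, dotProduct, Matrix.map_apply, Matrix.diagonal_apply, hU,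
        Matrix.of_apply, ite_mul, zero_mul, sum_ite_eq, mem_univ, if_true]
      push_cast
      rw [mul_sum]
      apply sum_congr rfl
      intro i _
      ring
    rw [e, nrm_mul _ (by positivity), one_div, ← div_eq_inv_mul, le_div_iff₀ hb, one_mul]
    exact h1
  · rw [hBdet]
    have : (∏ i, (D i : ℝ)) ≤ f (d + 2) h := by exact_mod_cast hDle
    gcongr

theorem c_eq_crit (d : ℕ) : c (d + 2) = crit (d + 1) := by
  apply le_antisymm
  · apply le_csInf
    · obtain ⟨B, h1, h2, _⟩ := crit_le_div d 0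
      exact ⟨_, B, h1, h2, rfl⟩
    · rintro _ ⟨B, h1, h2, rfl⟩
      exact c_le_real d B h1 h2
  · apply le_ciInf
    intro h
    obtain ⟨B, h1, h2, h3⟩ := crit_le_div d h
    have e : d + 2 - 1 = d + 1 := by omega
    rw [e]
    refine le_trans (csInf_le ⟨0, ?_⟩ ⟨B, h1, h2, rfl⟩) h3
    rintro _ ⟨B, _, _, rfl⟩
    exact abs_nonneg _

end Pool.Agent.H560Bh
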