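import Pool.Agent.H560Bh.NormN

namespace Pool.Agent.H560Bh

open Finset Filter Topology

/-- the critical determinant of the body `{x | N x < 1}`: the infimum of `|det B|` over the real
invertible `d × d` matrices `B` such that `N (B z) ≥ 1` for every nonzero `z ∈ ℤ ^ d`. -/
noncomputable def critN {d : ℕ} (N : (Fin d → ℝ) → ℝ) : ℝ :=
  sInf {v | ∃ B : Matrix (Fin d) (Fin d) ℝ, B.det ≠ 0 ∧
    (∀ z : Fin d → ℤ, z ≠ 0 → 1 ≤ N (B.mulVec fun i => (z i : ℝ))) ∧ v = |B.det|}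

/-- for every large `n` there is a linear form whose kernel modulo `n` has no short vectors. -/
def Good (d : ℕ) (N : (Fin (d + 1) → ℝ) → ℝ) (ρ : ℝ) : Prop :=
  ∃ n₀ : ℕ, ∀ n ≥ n₀, ∃ ψ : (Fin (d + 1) → ℤ) →ₗ[ℤ] ℤ, ∀ Y : Fin (d + 1) → ℤ, Y ≠ 0 →
    (n : ℤ) ∣ ψ Y → (n : ℝ) ≤ ρ * N (fun j => (Y j : ℝ)) ^ (d + 1)

theorem good_data (d : ℕ) {N : (Fin (d + 1) → ℝ) → ℝ} (hN : NormLike N)
    (u : Module.Basis (Fin (d + 1)) ℤ (Fin (d + 1) → ℤ))
    (D : Fin (d + 1) → ℕ) (hD : ∀ i, 0 < D i) (b : ℝ) (hb0 : 0 < b)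
    (hz : ∀ z : Fin (d + 1) → ℤ, z ≠ 0 →
      b ≤ N (fun j => ((∑ i, ((D i : ℤ) * z i) * u i j : ℤ) : ℝ))) (ρ : ℝ)
    (hρ : (∏ i, (D i : ℝ)) / b ^ (d + 1) < ρ) : Good d N ρ := by
  set P : ℝ := ∏ i, (D i : ℝ) with hP
  have hP0 : 0 < P := prod_pos fun i _ => by exact_mod_cast hD i
  set r : ℝ := P / b ^ (d + 1) with hr
  have hr0 : 0 < r := by positivity
  set θ : ℝ := ρ / r with hθ'
  have hθ : 1 < θ := by rw [hθ', one_lt_div hr0]; exact hρ
  set ε : ℝ := (1 - 1 / θ) / (2 * (d + 1)) with hε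
  have hθ0 : 0 < θ := by linarith
  have h1θ : 0 < 1 - 1 / θ := by
    have : 1 / θ < 1 := by rw [div_lt_one hθ0]; exact hθ
    linarith
  have hε0 : 0 < ε := by positivity
  have hεd : (d + 1) * ε = (1 - 1 / θ) / 2 := by
    rw [hε]; field_simp
  have hε1 : ε ≤ 1 := by
    have h1 : (1 : ℝ) * ε ≤ (d + 1) * ε := by
      have : (0 : ℝ) ≤ d := by positivity
      gcongr
      linarith
    have h2 : 0 < 1 / θ := by positivity
    linarith
  have hεθ : 1 < θ * (1 - ε) ^ (d + 1) := by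
    have h3 := one_add_mul_le_pow (a := -ε) (by linarith) (d + 1)
    have h4 : (1 : ℝ) + ((d + 1 : ℕ) : ℝ) * -ε = 1 - (1 - 1 / θ) / 2 := by
      push_cast
      linarith
    rw [h4, ← sub_eq_add_neg] at h3
    calc 1 < θ * (1 - (1 - 1 / θ) / 2) := by
          have : θ * (1 - (1 - 1 / θ) / 2) = (θ + 1) / 2 := by field_simp; ring
          linarith
      _ ≤ θ * (1 - ε) ^ (d + 1) := by gcongr
  obtain ⟨K₀, hK₀, hper⟩ := perturbN d hN u D hD b hz ε hε0 hε1
  obtain ⟨n₀, hn₀⟩ := exists_nat_ge (P * K₀ ^ (d + 1))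
  refine ⟨n₀, fun n hn => ?_⟩
  have hnR : P * K₀ ^ (d + 1) ≤ n := hn₀.trans (by exact_mod_cast hn)
  obtain ⟨K, hK0, hKd⟩ : ∃ K : ℝ, 0 ≤ K ∧ K ^ (d + 1) = n / P :=
    ⟨((n : ℝ) / P) ^ (((d + 1 : ℕ) : ℝ)⁻¹), by positivity,
      Real.rpow_inv_natCast_pow (by positivity) (by omega)⟩
  have hKK : K₀ ≤ K := by
    rw [← pow_le_pow_iff_left₀ (by linarith) hK0 (show d + 1 ≠ 0 by omega), hKd,
      le_div_iff₀' hP0]
    exact hnR
  obtain ⟨ψ, hψ⟩ := hper K hKK (n : ℤ) (by
    rw [hKd, ← hP]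
    push_cast
    field_simp)
  refine ⟨ψ, fun Y hY hnY => ?_⟩
  have h1 := hψ Y hY hnY
  have h1ε : 0 ≤ 1 - ε := by linarith
  have h2 : ((1 - ε) * K * b) ^ (d + 1) ≤ N (fun j => (Y j : ℝ)) ^ (d + 1) := by
    have : 0 ≤ (1 - ε) * K * b := by positivity
    gcongr
  rw [mul_pow, mul_pow, hKd] at h2
  have hρθ : ρ = θ * r := by rw [hθ']; field_simp
  calc (n : ℝ) ≤ (θ * (1 - ε) ^ (d + 1)) * n := by
        have : (0 : ℝ) ≤ n := Nat.cast_nonneg n
        nlinarith
    _ = ρ * ((1 - ε) ^ (d + 1) * (n / P) * b ^ (d + 1)) := by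
        rw [hρθ, hr]
        field_simp
    _ ≤ ρ * N (fun j => (Y j : ℝ)) ^ (d + 1) := by
        have : 0 < ρ := by linarith
        gcongr

theorem good_int (d : ℕ) {N : (Fin (d + 1) → ℝ) → ℝ} (hN : NormLike N)
    (M : Matrix (Fin (d + 1)) (Fin (d + 1)) ℤ) (hM : M.det ≠ 0) (b : ℝ)
    (hb0 : 0 < b)
    (hz : ∀ z : Fin (d + 1) → ℤ, z ≠ 0 → b ≤ N (fun j => ((M.mulVec z j : ℤ) : ℝ))) (ρ : ℝ)
    (hρ : |(M.det : ℝ)| / b ^ (d + 1) < ρ) : Good d N ρ := by
  classical
  have hinj : Function.Injective M.mulVecLin := by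
    rw [← LinearMap.ker_eq_bot, LinearMap.ker_eq_bot']
    intro y hy
    exact Matrix.eq_zero_of_mulVec_eq_zero hM hy
  set L : Submodule ℤ (Fin (d + 1) → ℤ) := LinearMap.range M.mulVecLin with hL
  obtain ⟨eq, heq⟩ : ∃ eq : (Fin (d + 1) → ℤ) ≃ₗ[ℤ] L,
      ∀ y, (eq y : Fin (d + 1) → ℤ) = M.mulVec y :=
    ⟨LinearEquiv.ofInjective M.mulVecLin hinj, fun y => rfl⟩
  set bN : Module.Basis (Fin (d + 1)) ℤ L := (Pi.basisFun ℤ (Fin (d + 1))).map eq with hbN
  have hrank : Module.finrank ℤ L = Module.finrank ℤ (Fin (d + 1) → ℤ) := eq.symm.finrank_eq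
  obtain ⟨u, c', ab, hab⟩ :=
    Submodule.exists_smith_normal_form_of_rank_eq (Pi.basisFun ℤ (Fin (d + 1))) hrank
  have hc0 : ∀ i, c' i ≠ 0 := by
    intro i hi
    apply ab.ne_zero i
    have := hab i
    rw [hi, zero_smul] at this
    exact Subtype.ext this
  have hmem : ∀ i, (((c' i).natAbs : ℕ) : ℤ) • u i ∈ L := by
    intro i
    have h1 : c' i • u i ∈ L := by rw [← hab i]; exact (ab i).2
    rcases Int.natAbs_eq (c' i) with h2 | h2
    · rw [← h2]; exact h1
    · have h3 : (((c' i).natAbs : ℕ) : ℤ) = -(c' i) := by omega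
      rw [h3, neg_smul]
      exact L.neg_mem h1
  have hdet : ∏ i, (c' i).natAbs = M.det.natAbs := by
    have e1 := Submodule.natAbs_det_basis_change u L ab
    have e2 := Submodule.natAbs_det_basis_change (Pi.basisFun ℤ (Fin (d + 1))) L bN
    have e3 : u.det ((↑) ∘ ab) = ∏ i, c' i := by
      have : ((↑) ∘ ab : Fin (d + 1) → (Fin (d + 1) → ℤ)) = fun i => c' i • u i := by
        funext i
        exact hab i
      rw [this, AlternatingMap.map_smul_univ, u.det_self, smul_eq_mul, mul_one]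
    have e4 : (Pi.basisFun ℤ (Fin (d + 1))).det ((↑) ∘ bN) = M.det := by
      rw [Pi.basisFun_det_apply, ← Matrix.det_transpose]
      congr 1
      ext i j
      simp [hbN, heq, Matrix.transpose_apply, Matrix.of_apply]
    rw [e3] at e1
    rw [e4] at e2
    rw [e2, ← e1]
    exact (map_prod Int.natAbsHom c' univ).symm
  have h2 : (∏ i, (((c' i).natAbs : ℕ) : ℝ)) = |(M.det : ℝ)| := by
    have : ((∏ i, (c' i).natAbs : ℕ) : ℝ) = |(M.det : ℝ)| := by
      rw [hdet, Nat.cast_natAbs, Int.cast_abs]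
    rw [← this, Nat.cast_prod]
  refine good_data d hN u (fun i => (c' i).natAbs) (fun i => Int.natAbs_pos.mpr (hc0 i)) b hb0 ?_ ρ
    (by rw [h2]; exact hρ)
  intro z hz0
  set y : Fin (d + 1) → ℤ := ∑ i, (((c' i).natAbs : ℤ) * z i) • u i with hy
  have hyj : ∀ j, y j = ∑ i, (((c' i).natAbs : ℤ) * z i) * u i j := by
    intro j
    rw [hy, Finset.sum_apply]
    rfl
  simp only [← hyj]
  have hyL : y ∈ L := by
    rw [hy]
    apply Submodule.sum_mem
    intro i _
    rw [mul_comm, mul_smul]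
    exact L.smul_mem _ (hmem i)
  obtain ⟨z', hz'⟩ := LinearMap.mem_range.mp hyL
  rw [Matrix.mulVecLin_apply] at hz'
  rw [← hz']
  apply hz
  rintro rfl
  rw [Matrix.mulVec_zero] at hz'
  apply hz0
  ext i
  have h3 := congrArg (fun y => u.repr y i) hz'.symm
  simp only [hy] at h3
  rw [u.repr_sum_self, map_zero] at h3
  have h4 : ((c' i).natAbs : ℤ) * z i = 0 := h3
  rcases mul_eq_zero.mp h4 with h5 | h5
  · exact absurd h5 (by have := hc0 i; omega)
  · exact h5

theorem cast_det' {k : ℕ} (M : Matrix (Fin k) (Fin k) ℤ) :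
    (M.det : ℝ) = (M.map (Int.cast : ℤ → ℝ)).det := by
  have := RingHom.map_det (Int.castRingHom ℝ) M
  simpa using this

theorem good_real (d : ℕ) {N : (Fin (d + 1) → ℝ) → ℝ} (hN : NormLike N)
    (B : Matrix (Fin (d + 1)) (Fin (d + 1)) ℝ) (hB : B.det ≠ 0)
    (hz : ∀ z : Fin (d + 1) → ℤ, z ≠ 0 → 1 ≤ N (B.mulVec fun i => (z i : ℝ))) (ρ : ℝ)
    (hρ : |B.det| < ρ) : Good d N ρ := by
  classical
  set C : ℝ := ∑ i, ∑ j, |B⁻¹ i j| with hC
  have hC0 : 0 ≤ C := sum_nonneg fun _ _ => sum_nonneg fun _ _ => abs_nonneg _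
  have hzC : ∀ z : Fin (d + 1) → ℤ, ∑ i, |(z i : ℝ)| ≤
      C * N (B.mulVec fun i => (z i : ℝ)) := by
    intro z
    have e : (fun i => (z i : ℝ)) = B⁻¹.mulVec (B.mulVec fun i => (z i : ℝ)) := by
      rw [Matrix.mulVec_mulVec, Matrix.nonsing_inv_mul B (isUnit_iff_ne_zero.mpr hB),
        Matrix.one_mulVec]
    rw [hC, sum_mul]
    apply sum_le_sum
    intro i _
    have e2 : (z i : ℝ) = ∑ j, B⁻¹ i j * (B.mulVec fun i => (z i : ℝ)) j := by
      conv_lhs => rw [show (z i : ℝ) = (fun i => (z i : ℝ)) i from rfl, e]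
      rfl
    rw [e2, sum_mul]
    refine (abs_sum_le_sum_abs _ _).trans (sum_le_sum fun j _ => ?_)
    rw [abs_mul]
    gcongr
    exact hN.abs_le _ j
  set M : ℕ → Matrix (Fin (d + 1)) (Fin (d + 1)) ℤ := fun q =>
    Matrix.of fun i j => round ((q : ℝ) * B i j) with hM
  set C₁ : ℝ := (d + 1) * C with hC₁
  have hC₁0 : 0 ≤ C₁ := by positivity
  have hlow : ∀ q : ℕ, C₁ < q → ∀ z : Fin (d + 1) → ℤ, z ≠ 0 →
      (q : ℝ) - C₁ ≤ N (fun j => (((M q).mulVec z j : ℤ) : ℝ)) := by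
    intro q hq z hz0
    set V := N (B.mulVec fun i => (z i : ℝ)) with hV
    have hN1 : 1 ≤ V := hz z hz0
    have h1 : (q : ℝ) * V ≤ N (fun j => (((M q).mulVec z j : ℤ) : ℝ)) +
        ∑ j, |(q : ℝ) * (B.mulVec fun i => (z i : ℝ)) j - (((M q).mulVec z j : ℤ) : ℝ)| := by
      rw [hV, ← hN.smul _ (Nat.cast_nonneg q)]
      have e : (fun j => (q : ℝ) * (B.mulVec fun i => (z i : ℝ)) j) =
          fun j => (((M q).mulVec z j : ℤ) : ℝ) +
            ((q : ℝ) * (B.mulVec fun i => (z i : ℝ)) j - (((M q).mulVec z j : ℤ) : ℝ)) := by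
        ext j; ring
      conv_lhs => rw [e]
      exact (hN.add _ _).trans (add_le_add le_rfl (hN.le_sum _))
    have h2 : ∑ j, |(q : ℝ) * (B.mulVec fun i => (z i : ℝ)) j - (((M q).mulVec z j : ℤ) : ℝ)| ≤
        (d + 1) * ∑ i, |(z i : ℝ)| := by
      have h3 : ∀ j, |(q : ℝ) * (B.mulVec fun i => (z i : ℝ)) j -
          (((M q).mulVec z j : ℤ) : ℝ)| ≤ ∑ i, |(z i : ℝ)| := by
        intro j
        have e : (q : ℝ) * (B.mulVec fun i => (z i : ℝ)) j - (((M q).mulVec z j : ℤ) : ℝ) =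
            ∑ i, ((q : ℝ) * B j i - round ((q : ℝ) * B j i)) * (z i : ℝ) := by
          simp only [hM, Matrix.mulVec, dotProduct, Matrix.of_apply]
          push_cast
          rw [mul_sum, ← sum_sub_distrib]
          apply sum_congr rfl
          intro i _
          ring
        rw [e]
        refine (abs_sum_le_sum_abs _ _).trans (sum_le_sum fun i _ => ?_)
        rw [abs_mul]
        have := abs_sub_round ((q : ℝ) * B j i)
        nlinarith [abs_nonneg (z i : ℝ)]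
      calc _ ≤ ∑ _j : Fin (d + 1), ∑ i, |(z i : ℝ)| := sum_le_sum fun j _ => h3 j
        _ = (d + 1) * ∑ i, |(z i : ℝ)| := by
          rw [sum_const, card_univ, Fintype.card_fin, nsmul_eq_mul]
          push_cast
          ring
    have h4 : (d + 1) * ∑ i, |(z i : ℝ)| ≤ C₁ * V := by
      calc (d + 1) * ∑ i, |(z i : ℝ)| ≤ (d + 1) * (C * V) := by
            gcongr
            exact hzC z
        _ = C₁ * V := by rw [hC₁]; ring
    nlinarith
  -- limits
  have hF : Tendsto (fun q : ℕ => ((M q).det : ℝ) / (q : ℝ) ^ (d + 1)) atTop (𝓝 B.det) := by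
    have h1 : Tendsto (fun q : ℕ => (Matrix.of fun i j => (round ((q : ℝ) * B i j) : ℝ) / q :
        Matrix (Fin (d + 1)) (Fin (d + 1)) ℝ)) atTop (𝓝 B) := by
      refine tendsto_pi_nhds.mpr fun i => tendsto_pi_nhds.mpr fun j => ?_
      rw [tendsto_iff_norm_sub_tendsto_zero]
      have h0 : Tendsto (fun q : ℕ => 1 / (q : ℝ)) atTop (𝓝 0) := tendsto_one_div_atTop_nhds_zero_nat
      refine squeeze_zero' (Eventually.of_forall fun _ => norm_nonneg _) ?_ h0
      filter_upwards [eventually_ge_atTop 1] with q hq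
      have hq0 : (0 : ℝ) < q := by exact_mod_cast hq
      rw [Real.norm_eq_abs, Matrix.of_apply]
      have e : (round ((q : ℝ) * B i j) : ℝ) / q - B i j =
          -(((q : ℝ) * B i j - round ((q : ℝ) * B i j)) / q) := by
        field_simp
        ring
      rw [e, abs_neg, abs_div, abs_of_pos hq0]
      have := abs_sub_round ((q : ℝ) * B i j)
      gcongr
      linarith
    have h2 := (continuous_id.matrix_det.tendsto B).comp h1
    refine h2.congr' ?_
    filter_upwards [eventually_ge_atTop 1] with q hq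
    have hq0 : (0 : ℝ) < q := by exact_mod_cast hq
    have e : (Matrix.of fun i j => (round ((q : ℝ) * B i j) : ℝ) / q :
        Matrix (Fin (d + 1)) (Fin (d + 1)) ℝ) = (1 / (q : ℝ)) • (M q).map (Int.cast : ℤ → ℝ) := by
      ext i j
      simp only [hM, Matrix.of_apply, Matrix.smul_apply, Matrix.map_apply, smul_eq_mul]
      ring
    simp only [Function.comp, id]
    rw [e, Matrix.det_smul, Fintype.card_fin, ← cast_det', div_pow, one_pow]
    ring
  have hG : Tendsto (fun q : ℕ => ((q : ℝ) / ((q : ℝ) - C₁)) ^ (d + 1)) atTop (𝓝 1) := by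
    have h1 : Tendsto (fun q : ℕ => (q : ℝ) / ((q : ℝ) - C₁)) atTop (𝓝 1) := by
      have h2 : Tendsto (fun q : ℕ => 1 - C₁ / (q : ℝ)) atTop (𝓝 (1 - 0)) :=
        tendsto_const_nhds.sub (tendsto_const_div_atTop_nhds_zero_nat C₁)
      have h3 := h2.inv₀ (by norm_num)
      rw [sub_zero, inv_one] at h3
      refine h3.congr' ?_
      obtain ⟨V, hV⟩ := exists_nat_gt C₁
      filter_upwards [eventually_ge_atTop (V + 1)] with q hq
      have hq1 : (V : ℝ) < q := by exact_mod_cast hq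
      have hq0 : (0 : ℝ) < q := by linarith
      have hqC : (0 : ℝ) < q - C₁ := by linarith
      have : (1 : ℝ) - C₁ / q = (q - C₁) / q := by field_simp
      rw [this, inv_div]
    have := h1.pow (d + 1)
    rwa [one_pow] at this
  have hlim : Tendsto (fun q : ℕ => |((M q).det : ℝ)| / ((q : ℝ) - C₁) ^ (d + 1)) atTop
      (𝓝 |B.det|) := by
    have h1 := hF.abs.mul hG
    rw [mul_one] at h1
    refine h1.congr' ?_
    obtain ⟨V, hV⟩ := exists_nat_gt C₁
    filter_upwards [eventually_ge_atTop (V + 1)] with q hq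
    have hq1 : (V : ℝ) < q := by exact_mod_cast hq
    have hq0 : (0 : ℝ) < q := by linarith
    have hqC : (0 : ℝ) < q - C₁ := by linarith
    rw [abs_div, abs_of_pos (pow_pos hq0 _), div_pow]
    field_simp
  obtain ⟨V, hV⟩ := exists_nat_gt C₁
  have hne : ∀ᶠ q : ℕ in atTop, ((M q).det : ℝ) / (q : ℝ) ^ (d + 1) ≠ 0 :=
    hF.eventually_ne hB
  have hlt : ∀ᶠ q : ℕ in atTop, |((M q).det : ℝ)| / ((q : ℝ) - C₁) ^ (d + 1) < ρ :=
    hlim.eventually_lt_const hρ
  obtain ⟨q, hq, hq2, hq3⟩ := ((eventually_ge_atTop (V + 1)).and (hne.and hlt)).exists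
  have hq1 : (V : ℝ) < q := by exact_mod_cast hq
  have hqC : (0 : ℝ) < q - C₁ := by linarith
  have hdet : (M q).det ≠ 0 := by
    intro h0
    apply hq2
    rw [h0]
    simp
  exact good_int d hN (M q) hdet ((q : ℝ) - C₁) hqC (hlow q (by linarith)) ρ hq3

theorem critN_nonempty (d : ℕ) {N : (Fin (d + 1) → ℝ) → ℝ} (hN : NormLike N) :
    {v | ∃ B : Matrix (Fin (d + 1)) (Fin (d + 1)) ℝ, B.det ≠ 0 ∧
      (∀ z : Fin (d + 1) → ℤ, z ≠ 0 → 1 ≤ N (B.mulVec fun i => (z i : ℝ))) ∧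
        v = |B.det|}.Nonempty := by
  refine ⟨_, 1, by simp, fun z hz => ?_, rfl⟩
  rw [Matrix.one_mulVec]
  obtain ⟨i, hi⟩ := Function.ne_iff.mp hz
  refine le_trans ?_ (hN.abs_le _ i)
  have h1 : 1 ≤ |z i| := Int.one_le_abs hi
  exact_mod_cast h1

theorem good_crit (d : ℕ) {N : (Fin (d + 1) → ℝ) → ℝ} (hN : NormLike N) (ρ : ℝ)
    (hρ : critN N < ρ) : Good d N ρ := by
  obtain ⟨v, ⟨B, h1, h2, rfl⟩, h3⟩ := exists_lt_of_csInf_lt (critN_nonempty d hN) hρ
  exact good_real d hN B h1 h2 ρ h3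

/-- the kernel of a homomorphism to a finite group in diagonal form. -/
theorem from_hom {G : Type} [AddCommGroup G] [Fintype G] (d : ℕ)
    (φ : (Fin (d + 1) → ℤ) →ₗ[ℤ] G) :
    ∃ (u : Module.Basis (Fin (d + 1)) ℤ (Fin (d + 1) → ℤ)) (D : Fin (d + 1) → ℕ),
      (∀ i, 0 < D i) ∧ ∏ i, D i ≤ Fintype.card G ∧ ∀ z : Fin (d + 1) → ℤ, z ≠ 0 →
        (∑ i, ((D i : ℤ) * z i) • u i) ≠ 0 ∧ φ (∑ i, ((D i : ℤ) * z i) • u i) = 0 := by
  classical
  set L : Submodule ℤ (Fin (d + 1) → ℤ) := LinearMap.ker φ with hL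
  have hidx : L.toAddSubgroup.index ≠ 0 := by
    have h1 : L.toAddSubgroup = φ.toAddMonoidHom.ker := by
      ext y
      simp [hL]
    rw [h1]
    have : Finite (φ.toAddMonoidHom.range) := Subtype.finite
    have h2 : (φ.toAddMonoidHom.ker).FiniteIndex := inferInstance
    exact h2.index_ne_zero
  obtain ⟨eq⟩ := Int.submodule_toAddSubgroup_index_ne_zero_iff.mp hidx
  have hrank : Module.finrank ℤ L = Module.finrank ℤ (Fin (d + 1) → ℤ) := eq.finrank_eq
  obtain ⟨u, c, ab, hab⟩ :=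
    Submodule.exists_smith_normal_form_of_rank_eq (Pi.basisFun ℤ (Fin (d + 1))) hrank
  have hc0 : ∀ i, c i ≠ 0 := by
    intro i hi
    apply ab.ne_zero i
    have := hab i
    rw [hi, zero_smul] at this
    exact Subtype.ext this
  have hmem : ∀ i, (((c i).natAbs : ℕ) : ℤ) • u i ∈ L := by
    intro i
    have h1 : c i • u i ∈ L := by rw [← hab i]; exact (ab i).2
    rcases Int.natAbs_eq (c i) with h2 | h2
    · rw [← h2]; exact h1
    · have h3 : (((c i).natAbs : ℕ) : ℤ) = -(c i) := by omega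
      rw [h3, neg_smul]
      exact L.neg_mem h1
  refine ⟨u, fun i => (c i).natAbs, fun i => Int.natAbs_pos.mpr (hc0 i), ?_, ?_⟩
  · set f : (∀ i : Fin (d + 1), Fin (c i).natAbs) → G :=
      fun x => φ (∑ i, ((x i : ℕ) : ℤ) • u i) with hf
    have hfinj : Function.Injective f := by
      intro x x' hxx
      have h1 : (∑ i, (((x i : ℕ) : ℤ) - ((x' i : ℕ) : ℤ)) • u i) ∈ L := by
        rw [hL, LinearMap.mem_ker]
        simp only [sub_smul]
        rw [sum_sub_distrib, map_sub, sub_eq_zero]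
        exact hxx
      set v : L := ⟨_, h1⟩ with hv
      have h2 : (v : Fin (d + 1) → ℤ) = ∑ i, (ab.repr v i * c i) • u i := by
        conv_lhs => rw [← ab.sum_repr v]
        rw [Submodule.coe_sum]
        apply sum_congr rfl
        intro i _
        rw [Submodule.coe_smul, hab, smul_smul]
      have h3 : ∀ i, ((x i : ℕ) : ℤ) - ((x' i : ℕ) : ℤ) = ab.repr v i * c i := by
        intro i
        have h4 := congrArg (fun y => u.repr y i) h2
        simp only [hv] at h4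
        rw [u.repr_sum_self, u.repr_sum_self] at h4
        exact h4
      funext i
      have h5 := h3 i
      have h6 : c i ∣ ((x i : ℕ) : ℤ) - ((x' i : ℕ) : ℤ) := ⟨_, by rw [h5]; ring⟩
      have h7 : |((x i : ℕ) : ℤ) - ((x' i : ℕ) : ℤ)| < |c i| := by
        have a1 := (x i).isLt
        have a2 := (x' i).isLt
        rw [Int.abs_eq_natAbs (c i), abs_lt]
        constructor <;> omega
      have h8 := Int.eq_zero_of_abs_lt_dvd ((abs_dvd _ _).mpr h6) h7
      exact Fin.ext (by omega)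
    have := Fintype.card_le_of_injective f hfinj
    rw [Fintype.card_pi] at this
    simp only [Fintype.card_fin] at this
    exact this
  · intro z hz
    constructor
    · intro hy0
      apply hz
      ext i
      have h3 := congrArg (fun y => u.repr y i) hy0
      simp only at h3
      rw [u.repr_sum_self, map_zero] at h3
      have h4 : ((c i).natAbs : ℤ) * z i = 0 := h3
      rcases mul_eq_zero.mp h4 with h5 | h5
      · exact absurd h5 (by have := hc0 i; omega)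
      · exact h5
    · have hyL : (∑ i, (((c i).natAbs : ℤ) * z i) • u i) ∈ L := by
        apply Submodule.sum_mem
        intro i _
        rw [mul_comm, mul_smul]
        exact L.smul_mem _ (hmem i)
      rwa [hL, LinearMap.mem_ker] at hyL

/-- a homomorphism to a finite group without short kernel vectors bounds the critical
determinant. -/
theorem critN_le {G : Type} [AddCommGroup G] [Fintype G] (d : ℕ)
    {N : (Fin (d + 1) → ℝ) → ℝ} (hN : NormLike N)
    (φ : (Fin (d + 1) → ℤ) →ₗ[ℤ] G) (b : ℝ) (hb : 0 < b)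
    (hφ : ∀ y : Fin (d + 1) → ℤ, y ≠ 0 → φ y = 0 → b ≤ N (fun j => (y j : ℝ))) :
    critN N * b ^ (d + 1) ≤ Fintype.card G := by
  classical
  obtain ⟨u, D, hD, hDle, hz⟩ := from_hom d φ
  set U : Matrix (Fin (d + 1)) (Fin (d + 1)) ℤ := Matrix.of fun j i => u i j with hU
  have hUdet : |(U.det : ℝ)| = 1 := by
    have h1 : IsUnit ((Pi.basisFun ℤ (Fin (d + 1))).det u) :=
      Module.Basis.isUnit_det _ u
    have h2 : (Pi.basisFun ℤ (Fin (d + 1))).det u = U.det := by
      rw [Pi.basisFun_det_apply, ← Matrix.det_transpose]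
      rfl
    rw [h2] at h1
    rcases Int.isUnit_iff.mp h1 with h3 | h3 <;> rw [h3] <;> norm_num
  set B : Matrix (Fin (d + 1)) (Fin (d + 1)) ℝ :=
    (U.map (Int.cast : ℤ → ℝ)) * Matrix.diagonal (fun i => (D i : ℝ) / b) with hB
  have hBdet : |B.det| = (∏ i, (D i : ℝ)) / b ^ (d + 1) := by
    rw [hB, Matrix.det_mul, Matrix.det_diagonal, abs_mul, ← cast_det', hUdet, one_mul,
      prod_div_distrib, prod_const, card_univ, Fintype.card_fin, abs_of_nonneg]
    have : 0 ≤ ∏ i, (D i : ℝ) := prod_nonneg fun i _ => Nat.cast_nonneg _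
    positivity
  have hB0 : B.det ≠ 0 := by
    rw [← abs_pos, hBdet]
    have : 0 < ∏ i, (D i : ℝ) := prod_pos fun i _ => by exact_mod_cast hD i
    positivity
  have hBz : ∀ z : Fin (d + 1) → ℤ, z ≠ 0 → 1 ≤ N (B.mulVec fun i => (z i : ℝ)) := by
    intro z hz0
    obtain ⟨h1, h2⟩ := hz z hz0
    have h3 := hφ _ h1 h2
    have e : (B.mulVec fun i => (z i : ℝ)) = fun j => (1 / b) *
        (((∑ i, ((D i : ℤ) * z i) • u i) j : ℤ) : ℝ) := by
      ext j
      rw [hB, ← Matrix.mulVec_mulVec, Finset.sum_apply]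
      simp only [Matrix.mulVec, dotProduct, Matrix.map_apply, Matrix.diagonal_apply, hU,
        Matrix.of_apply, ite_mul, zero_mul, sum_ite_eq, mem_univ, if_true, Pi.smul_apply,
        smul_eq_mul]
      push_cast
      rw [mul_sum]
      apply sum_congr rfl
      intro i _
      ring
    rw [e, hN.smul _ (by positivity), one_div, ← div_eq_inv_mul, le_div_iff₀ hb, one_mul]
    exact h3
  have h1 : critN N ≤ |B.det| := csInf_le ⟨0, by
    rintro _ ⟨B, _, _, rfl⟩
    exact abs_nonneg _⟩ ⟨B, hB0, hBz, rfl⟩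
  rw [hBdet, le_div_iff₀ (by positivity)] at h1
  exact h1.trans (by exact_mod_cast hDle)

end Pool.Agent.H560Bh
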