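import Pool.Agent.H560Bh.NormC
import Pool.Agent.H560Bh.Good

namespace Pool.Agent.H560Bh

open Finset Filter Topology

theorem good_intQ (d : ℕ) {N : (Fin (d + 1) → ℝ) → ℝ}
    {Q : ℝ → Prop} (hQ : ∀ (u : Module.Basis (Fin (d + 1)) ℤ (Fin (d + 1) → ℤ))
      (D : Fin (d + 1) → ℕ), (∀ i, 0 < D i) → ∀ b : ℝ, 0 < b →
      (∀ z : Fin (d + 1) → ℤ, z ≠ 0 →
        b ≤ N (fun j => ((∑ i, ((D i : ℤ) * z i) * u i j : ℤ) : ℝ))) →
      ∀ ρ : ℝ, (∏ i, (D i : ℝ)) / b ^ (d + 1) < ρ → Q ρ)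
    (M : Matrix (Fin (d + 1)) (Fin (d + 1)) ℤ) (hM : M.det ≠ 0) (b : ℝ)
    (hb0 : 0 < b)
    (hz : ∀ z : Fin (d + 1) → ℤ, z ≠ 0 → b ≤ N (fun j => ((M.mulVec z j : ℤ) : ℝ))) (ρ : ℝ)
    (hρ : |(M.det : ℝ)| / b ^ (d + 1) < ρ) : Q ρ := by
  classical
  have hinj : Function.Injective M.mulVecLin := by
    rw [← LinearMap.ker_eq_bot, LinearMap.ker_eq_bot']
    intro y hy
    exact Matrix.eq_zero_of_mulVec_eq_zero hM hy
  set L : Submodule ℤ (Fin (d + 1) → ℤ) := LinearMap.range M.mulVecLin with hL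
  obtain ⟨eq, heq⟩ : ∃ eq : (Fin (d + 1) → ℤ) ≃ₗ[ℤ] L,
      ∀ y, (eq y : Fin (d + 1) → ℤ) = M.mulVec y :=
    ⟨LinearEquiv.ofInjective M.mulVecLin hinj, fun y => rfl⟩
  set bN : Module.Basis (Fin (d + 1)) ℤ L := (Pi.basisFun ℤ (Fin (d + 1))).map eq with hbN
  have hrank : Module.finrank ℤ L = Module.finrank ℤ (Fin (d + 1) → ℤ) := eq.symm.finrank_eq
  obtain ⟨u, c', ab, hab⟩ :=
    Submodule.exists_smith_normal_form_of_rank_eq (Pi.basisFun ℤ (Fin (d + 1))) hrank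
  have hc0 : ∀ i, c' i ≠ 0 := by
    intro i hi
    apply ab.ne_zero i
    have := hab i
    rw [hi, zero_smul] at this
    exact Subtype.ext this
  have hmem : ∀ i, (((c' i).natAbs : ℕ) : ℤ) • u i ∈ L := by
    intro i
    have h1 : c' i • u i ∈ L := by rw [← hab i]; exact (ab i).2
    rcases Int.natAbs_eq (c' i) with h2 | h2
    · rw [← h2]; exact h1
    · have h3 : (((c' i).natAbs : ℕ) : ℤ) = -(c' i) := by omega
      rw [h3, neg_smul]
      exact L.neg_mem h1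
  have hdet : ∏ i, (c' i).natAbs = M.det.natAbs := by
    have e1 := Submodule.natAbs_det_basis_change u L ab
    have e2 := Submodule.natAbs_det_basis_change (Pi.basisFun ℤ (Fin (d + 1))) L bN
    have e3 : u.det ((↑) ∘ ab) = ∏ i, c' i := by
      have : ((↑) ∘ ab : Fin (d + 1) → (Fin (d + 1) → ℤ)) = fun i => c' i • u i := by
        funext i
        exact hab i
      rw [this, AlternatingMap.map_smul_univ, u.det_self, smul_eq_mul, mul_one]
    have e4 : (Pi.basisFun ℤ (Fin (d + 1))).det ((↑) ∘ bN) = M.det := by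
      rw [Pi.basisFun_det_apply, ← Matrix.det_transpose]
      congr 1
      ext i j
      simp [hbN, heq, Matrix.transpose_apply, Matrix.of_apply]
    rw [e3] at e1
    rw [e4] at e2
    rw [e2, ← e1]
    exact (map_prod Int.natAbsHom c' univ).symm
  have h2 : (∏ i, (((c' i).natAbs : ℕ) : ℝ)) = |(M.det : ℝ)| := by
    have : ((∏ i, (c' i).natAbs : ℕ) : ℝ) = |(M.det : ℝ)| := by
      rw [hdet, Nat.cast_natAbs, Int.cast_abs]
    rw [← this, Nat.cast_prod]
  refine hQ u (fun i => (c' i).natAbs) (fun i => Int.natAbs_pos.mpr (hc0 i)) b hb0 ?_ ρ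
    (by rw [h2]; exact hρ)
  intro z hz0
  set y : Fin (d + 1) → ℤ := ∑ i, (((c' i).natAbs : ℤ) * z i) • u i with hy
  have hyj : ∀ j, y j = ∑ i, (((c' i).natAbs : ℤ) * z i) * u i j := by
    intro j
    rw [hy, Finset.sum_apply]
    rfl
  simp only [← hyj]
  have hyL : y ∈ L := by
    rw [hy]
    apply Submodule.sum_mem
    intro i _
    rw [mul_comm, mul_smul]
    exact L.smul_mem _ (hmem i)
  obtain ⟨z', hz'⟩ := LinearMap.mem_range.mp hyL
  rw [Matrix.mulVecLin_apply] at hz'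
  rw [← hz']
  apply hz
  rintro rfl
  rw [Matrix.mulVec_zero] at hz'
  apply hz0
  ext i
  have h3 := congrArg (fun y => u.repr y i) hz'.symm
  simp only [hy] at h3
  rw [u.repr_sum_self, map_zero] at h3
  have h4 : ((c' i).natAbs : ℤ) * z i = 0 := h3
  rcases mul_eq_zero.mp h4 with h5 | h5
  · exact absurd h5 (by have := hc0 i; omega)
  · exact h5

theorem good_realQ (d : ℕ) {C : ℝ} {N : (Fin (d + 1) → ℝ) → ℝ}
    {Q : ℝ → Prop} (hQ : ∀ (u : Module.Basis (Fin (d + 1)) ℤ (Fin (d + 1) → ℤ))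
      (D : Fin (d + 1) → ℕ), (∀ i, 0 < D i) → ∀ b : ℝ, 0 < b →
      (∀ z : Fin (d + 1) → ℤ, z ≠ 0 →
        b ≤ N (fun j => ((∑ i, ((D i : ℤ) * z i) * u i j : ℤ) : ℝ))) →
      ∀ ρ : ℝ, (∏ i, (D i : ℝ)) / b ^ (d + 1) < ρ → Q ρ)
    (hC : 0 < C) (hN : NormLikeC C N)
    (B : Matrix (Fin (d + 1)) (Fin (d + 1)) ℝ) (hB : B.det ≠ 0)
    (hz : ∀ z : Fin (d + 1) → ℤ, z ≠ 0 → 1 ≤ N (B.mulVec fun i => (z i : ℝ))) (ρ : ℝ)
    (hρ : |B.det| < ρ) : Q ρ := by
  classical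
  set S : ℝ := ∑ i, ∑ j, |B⁻¹ i j| with hS
  have hS0 : 0 ≤ S := sum_nonneg fun _ _ => sum_nonneg fun _ _ => abs_nonneg _
  have hzC : ∀ z : Fin (d + 1) → ℤ, ∑ i, |(z i : ℝ)| ≤
      S * (C * N (B.mulVec fun i => (z i : ℝ))) := by
    intro z
    have e : (fun i => (z i : ℝ)) = B⁻¹.mulVec (B.mulVec fun i => (z i : ℝ)) := by
      rw [Matrix.mulVec_mulVec, Matrix.nonsing_inv_mul B (isUnit_iff_ne_zero.mpr hB),
        Matrix.one_mulVec]
    rw [hS, sum_mul]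
    apply sum_le_sum
    intro i _
    have e2 : (z i : ℝ) = ∑ j, B⁻¹ i j * (B.mulVec fun i => (z i : ℝ)) j := by
      conv_lhs => rw [show (z i : ℝ) = (fun i => (z i : ℝ)) i from rfl, e]
      rfl
    rw [e2, sum_mul]
    refine (abs_sum_le_sum_abs _ _).trans (sum_le_sum fun j _ => ?_)
    rw [abs_mul]
    gcongr
    exact hN.abs_le _ j
  set M : ℕ → Matrix (Fin (d + 1)) (Fin (d + 1)) ℤ := fun q =>
    Matrix.of fun i j => round ((q : ℝ) * B i j) with hM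
  set C₁ : ℝ := C * ((d + 1) * (S * C)) with hC₁
  have hC₁0 : 0 ≤ C₁ := by positivity
  have hlow : ∀ q : ℕ, C₁ < q → ∀ z : Fin (d + 1) → ℤ, z ≠ 0 →
      (q : ℝ) - C₁ ≤ N (fun j => (((M q).mulVec z j : ℤ) : ℝ)) := by
    intro q hq z hz0
    set V := N (B.mulVec fun i => (z i : ℝ)) with hV
    have hN1 : 1 ≤ V := hz z hz0
    have h1 : (q : ℝ) * V ≤ N (fun j => (((M q).mulVec z j : ℤ) : ℝ)) +
        C * ∑ j, |(q : ℝ) * (B.mulVec fun i => (z i : ℝ)) j - (((M q).mulVec z j : ℤ) : ℝ)| := by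
      rw [hV, ← hN.smul _ (Nat.cast_nonneg q)]
      have e : (fun j => (q : ℝ) * (B.mulVec fun i => (z i : ℝ)) j) =
          fun j => (((M q).mulVec z j : ℤ) : ℝ) +
            ((q : ℝ) * (B.mulVec fun i => (z i : ℝ)) j - (((M q).mulVec z j : ℤ) : ℝ)) := by
        ext j; ring
      conv_lhs => rw [e]
      exact (hN.add _ _).trans (add_le_add le_rfl (hN.le_sum _))
    have h2 : ∑ j, |(q : ℝ) * (B.mulVec fun i => (z i : ℝ)) j - (((M q).mulVec z j : ℤ) : ℝ)| ≤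
        (d + 1) * ∑ i, |(z i : ℝ)| := by
      have h3 : ∀ j, |(q : ℝ) * (B.mulVec fun i => (z i : ℝ)) j -
          (((M q).mulVec z j : ℤ) : ℝ)| ≤ ∑ i, |(z i : ℝ)| := by
        intro j
        have e : (q : ℝ) * (B.mulVec fun i => (z i : ℝ)) j - (((M q).mulVec z j : ℤ) : ℝ) =
            ∑ i, ((q : ℝ) * B j i - round ((q : ℝ) * B j i)) * (z i : ℝ) := by
          simp only [hM, Matrix.mulVec, dotProduct, Matrix.of_apply]
          push_cast
          rw [mul_sum, ← sum_sub_distrib]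
          apply sum_congr rfl
          intro i _
          ring
        rw [e]
        refine (abs_sum_le_sum_abs _ _).trans (sum_le_sum fun i _ => ?_)
        rw [abs_mul]
        have := abs_sub_round ((q : ℝ) * B j i)
        nlinarith [abs_nonneg (z i : ℝ)]
      calc _ ≤ ∑ _j : Fin (d + 1), ∑ i, |(z i : ℝ)| := sum_le_sum fun j _ => h3 j
        _ = (d + 1) * ∑ i, |(z i : ℝ)| := by
          rw [sum_const, card_univ, Fintype.card_fin, nsmul_eq_mul]
          push_cast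
          ring
    have h4 : C * ((d + 1) * ∑ i, |(z i : ℝ)|) ≤ C₁ * V := by
      calc C * ((d + 1) * ∑ i, |(z i : ℝ)|) ≤ C * ((d + 1) * (S * (C * V))) := by
            gcongr
            exact hzC z
        _ = C₁ * V := by rw [hC₁]; ring
    have h5 : C * ∑ j, |(q : ℝ) * (B.mulVec fun i => (z i : ℝ)) j -
        (((M q).mulVec z j : ℤ) : ℝ)| ≤ C * ((d + 1) * ∑ i, |(z i : ℝ)|) := by gcongr
    nlinarith
  -- limits
  have hF : Tendsto (fun q : ℕ => ((M q).det : ℝ) / (q : ℝ) ^ (d + 1)) atTop (𝓝 B.det) := by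
    have h1 : Tendsto (fun q : ℕ => (Matrix.of fun i j => (round ((q : ℝ) * B i j) : ℝ) / q :
        Matrix (Fin (d + 1)) (Fin (d + 1)) ℝ)) atTop (𝓝 B) := by
      refine tendsto_pi_nhds.mpr fun i => tendsto_pi_nhds.mpr fun j => ?_
      rw [tendsto_iff_norm_sub_tendsto_zero]
      have h0 : Tendsto (fun q : ℕ => 1 / (q : ℝ)) atTop (𝓝 0) := tendsto_one_div_atTop_nhds_zero_nat
      refine squeeze_zero' (Eventually.of_forall fun _ => norm_nonneg _) ?_ h0
      filter_upwards [eventually_ge_atTop 1] with q hq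
      have hq0 : (0 : ℝ) < q := by exact_mod_cast hq
      rw [Real.norm_eq_abs, Matrix.of_apply]
      have e : (round ((q : ℝ) * B i j) : ℝ) / q - B i j =
          -(((q : ℝ) * B i j - round ((q : ℝ) * B i j)) / q) := by
        field_simp
        ring
      rw [e, abs_neg, abs_div, abs_of_pos hq0]
      have := abs_sub_round ((q : ℝ) * B i j)
      gcongr
      linarith
    have h2 := (continuous_id.matrix_det.tendsto B).comp h1
    refine h2.congr' ?_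
    filter_upwards [eventually_ge_atTop 1] with q hq
    have hq0 : (0 : ℝ) < q := by exact_mod_cast hq
    have e : (Matrix.of fun i j => (round ((q : ℝ) * B i j) : ℝ) / q :
        Matrix (Fin (d + 1)) (Fin (d + 1)) ℝ) = (1 / (q : ℝ)) • (M q).map (Int.cast : ℤ → ℝ) := by
      ext i j
      simp only [hM, Matrix.of_apply, Matrix.smul_apply, Matrix.map_apply, smul_eq_mul]
      ring
    simp only [Function.comp, id]
    rw [e, Matrix.det_smul, Fintype.card_fin, ← cast_det', div_pow, one_pow]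
    ring
  have hG : Tendsto (fun q : ℕ => ((q : ℝ) / ((q : ℝ) - C₁)) ^ (d + 1)) atTop (𝓝 1) := by
    have h1 : Tendsto (fun q : ℕ => (q : ℝ) / ((q : ℝ) - C₁)) atTop (𝓝 1) := by
      have h2 : Tendsto (fun q : ℕ => 1 - C₁ / (q : ℝ)) atTop (𝓝 (1 - 0)) :=
        tendsto_const_nhds.sub (tendsto_const_div_atTop_nhds_zero_nat C₁)
      have h3 := h2.inv₀ (by norm_num)
      rw [sub_zero, inv_one] at h3
      refine h3.congr' ?_
      obtain ⟨V, hV⟩ := exists_nat_gt C₁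
      filter_upwards [eventually_ge_atTop (V + 1)] with q hq
      have hq1 : (V : ℝ) < q := by exact_mod_cast hq
      have hq0 : (0 : ℝ) < q := by linarith
      have hqC : (0 : ℝ) < q - C₁ := by linarith
      have : (1 : ℝ) - C₁ / q = (q - C₁) / q := by field_simp
      rw [this, inv_div]
    have := h1.pow (d + 1)
    rwa [one_pow] at this
  have hlim : Tendsto (fun q : ℕ => |((M q).det : ℝ)| / ((q : ℝ) - C₁) ^ (d + 1)) atTop
      (𝓝 |B.det|) := by
    have h1 := hF.abs.mul hG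
    rw [mul_one] at h1
    refine h1.congr' ?_
    obtain ⟨V, hV⟩ := exists_nat_gt C₁
    filter_upwards [eventually_ge_atTop (V + 1)] with q hq
    have hq1 : (V : ℝ) < q := by exact_mod_cast hq
    have hq0 : (0 : ℝ) < q := by linarith
    have hqC : (0 : ℝ) < q - C₁ := by linarith
    rw [abs_div, abs_of_pos (pow_pos hq0 _), div_pow]
    field_simp
  obtain ⟨V, hV⟩ := exists_nat_gt C₁
  have hne : ∀ᶠ q : ℕ in atTop, ((M q).det : ℝ) / (q : ℝ) ^ (d + 1) ≠ 0 :=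
    hF.eventually_ne hB
  have hlt : ∀ᶠ q : ℕ in atTop, |((M q).det : ℝ)| / ((q : ℝ) - C₁) ^ (d + 1) < ρ :=
    hlim.eventually_lt_const hρ
  obtain ⟨q, hq, hq2, hq3⟩ := ((eventually_ge_atTop (V + 1)).and (hne.and hlt)).exists
  have hq1 : (V : ℝ) < q := by exact_mod_cast hq
  have hqC : (0 : ℝ) < q - C₁ := by linarith
  have hdet : (M q).det ≠ 0 := by
    intro h0
    apply hq2
    rw [h0]
    simp
  exact good_intQ d hQ (M q) hdet ((q : ℝ) - C₁) hqC (hlow q (by linarith)) ρ hq3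

/-- as `Good`, in dimension `d + 2`, with a linear form which is even at a given vector `κ`. -/
def GoodP (d : ℕ) (κ : Fin (d + 1 + 1) → ℤ) (N : (Fin (d + 1 + 1) → ℝ) → ℝ) (ρ : ℝ) : Prop :=
  ∃ n₀ : ℕ, ∀ n ≥ n₀, ∃ ψ : (Fin (d + 1 + 1) → ℤ) →ₗ[ℤ] ℤ, 2 ∣ ψ κ ∧
    ∀ Y : Fin (d + 1 + 1) → ℤ, Y ≠ 0 →
    (n : ℤ) ∣ ψ Y → (n : ℝ) ≤ ρ * N (fun j => (Y j : ℝ)) ^ (d + 1 + 1)

theorem good_dataP_aux (d : ℕ) {C : ℝ} {N : (Fin (d + 1 + 1) → ℝ) → ℝ} (hC : 0 < C)
    (hN : NormLikeC C N) (κ : Fin (d + 1 + 1) → ℤ)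
    (u : Module.Basis (Fin (d + 1 + 1)) ℤ (Fin (d + 1 + 1) → ℤ))
    (D : Fin (d + 1 + 1) → ℕ) (hD : ∀ i, 0 < D i) (b : ℝ) (hb0 : 0 < b)
    (hz : ∀ z : Fin (d + 1 + 1) → ℤ, z ≠ 0 →
      b ≤ N (fun j => ((∑ i, ((D i : ℤ) * z i) * u i j : ℤ) : ℝ))) (ρ : ℝ)
    (hρ : (∏ i, (D i : ℝ)) / b ^ (d + 1 + 1) < ρ) (par : ℤ)
    (hpar : 2 ∣ u.repr κ 0 + par * u.repr κ 1) : GoodP d κ N ρ := by
  set P : ℝ := ∏ i, (D i : ℝ) with hP
  have hP0 : 0 < P := prod_pos fun i _ => by exact_mod_cast hD i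
  set r : ℝ := P / b ^ (d + 1 + 1) with hr
  have hr0 : 0 < r := by positivity
  set θ : ℝ := ρ / r with hθ'
  have hθ : 1 < θ := by rw [hθ', one_lt_div hr0]; exact hρ
  set ε : ℝ := (1 - 1 / θ) / (2 * ((d : ℝ) + 1 + 1)) with hε
  have hθ0 : 0 < θ := by linarith
  have h1θ : 0 < 1 - 1 / θ := by
    have : 1 / θ < 1 := by rw [div_lt_one hθ0]; exact hθ
    linarith
  have hε0 : 0 < ε := by positivity
  have hεd : ((d : ℝ) + 1 + 1) * ε = (1 - 1 / θ) / 2 := by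
    rw [hε]; field_simp
  have hε1 : ε ≤ 1 := by
    have h1 : (1 : ℝ) * ε ≤ ((d : ℝ) + 1 + 1) * ε := by
      have : (0 : ℝ) ≤ d := by positivity
      gcongr
      linarith
    have h2 : 0 < 1 / θ := by positivity
    linarith
  have hεθ : 1 < θ * (1 - ε) ^ (d + 1 + 1) := by
    have h3 := one_add_mul_le_pow (a := -ε) (by linarith) (d + 1 + 1)
    have h4 : (1 : ℝ) + ((d + 1 + 1 : ℕ) : ℝ) * -ε = 1 - (1 - 1 / θ) / 2 := by
      push_cast
      linarith
    rw [h4, ← sub_eq_add_neg] at h3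
    calc 1 < θ * (1 - (1 - 1 / θ) / 2) := by
          have : θ * (1 - (1 - 1 / θ) / 2) = (θ + 1) / 2 := by field_simp; ring
          linarith
      _ ≤ θ * (1 - ε) ^ (d + 1 + 1) := by gcongr
  obtain ⟨K₀, hK₀, hper⟩ := perturbP (d + 1) hC hN (digits2 d par) u D hD b hz ε hε0 hε1
  obtain ⟨n₀, hn₀⟩ := exists_nat_ge (P * K₀ ^ (d + 1 + 1))
  refine ⟨n₀, fun n hn => ?_⟩
  have hnR : P * K₀ ^ (d + 1 + 1) ≤ n := hn₀.trans (by exact_mod_cast hn)
  obtain ⟨K, hK0, hKd⟩ : ∃ K : ℝ, 0 ≤ K ∧ K ^ (d + 1 + 1) = n / P :=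
    ⟨((n : ℝ) / P) ^ (((d + 1 + 1 : ℕ) : ℝ)⁻¹), by positivity,
      Real.rpow_inv_natCast_pow (by positivity) (by omega)⟩
  have hKK : K₀ ≤ K := by
    rw [← pow_le_pow_iff_left₀ (by linarith) hK0 (show d + 1 + 1 ≠ 0 by omega), hKd,
      le_div_iff₀' hP0]
    exact hnR
  obtain ⟨w, hw0, ⟨hw1, hwe⟩, hψ⟩ := hper K hKK (n : ℤ) (by
    rw [hKd, ← hP]
    push_cast
    field_simp)
  refine ⟨∑ i, w i • u.coord i, ?_, fun Y hY hnY => ?_⟩
  · have e : (∑ i, w i • u.coord i : (Fin (d + 1 + 1) → ℤ) →ₗ[ℤ] ℤ) κ =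
        ∑ i, w i * u.repr κ i := by
      simp [LinearMap.sum_apply]
    rw [e, Fin.sum_univ_succ, Fin.sum_univ_succ, hw0]
    have e1 : (Fin.succ (0 : Fin (d + 1))) = 1 := rfl
    rw [e1]
    have h2 : (2 : ℤ) ∣ ∑ i : Fin d, w i.succ.succ * u.repr κ i.succ.succ := by
      apply Finset.dvd_sum
      intro i _
      apply Dvd.dvd.mul_right
      apply hwe
      · exact Fin.succ_ne_zero _
      · intro h
        rw [← e1] at h
        exact Fin.succ_ne_zero _ (Fin.succ_injective _ h)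
    have h3 : (2 : ℤ) ∣ 1 * u.repr κ 0 + w 1 * u.repr κ 1 := by
      have e2 : 1 * u.repr κ 0 + w 1 * u.repr κ 1 =
          (u.repr κ 0 + par * u.repr κ 1) + (w 1 - par) * u.repr κ 1 := by ring
      rw [e2]
      exact dvd_add hpar (Dvd.dvd.mul_right hw1 _)
    rw [← add_assoc]
    exact dvd_add h3 h2
  have h1 := hψ Y hY hnY
  have h1ε : 0 ≤ 1 - ε := by linarith
  have h2 : ((1 - ε) * K * b) ^ (d + 1 + 1) ≤ N (fun j => (Y j : ℝ)) ^ (d + 1 + 1) := by
    have : 0 ≤ (1 - ε) * K * b := by positivity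
    gcongr
  rw [mul_pow, mul_pow, hKd] at h2
  have hρθ : ρ = θ * r := by rw [hθ']; field_simp
  calc (n : ℝ) ≤ (θ * (1 - ε) ^ (d + 1 + 1)) * n := by
        have : (0 : ℝ) ≤ n := Nat.cast_nonneg n
        nlinarith
    _ = ρ * ((1 - ε) ^ (d + 1 + 1) * (n / P) * b ^ (d + 1 + 1)) := by
        rw [hρθ, hr]
        field_simp
    _ ≤ ρ * N (fun j => (Y j : ℝ)) ^ (d + 1 + 1) := by
        have : 0 < ρ := by linarith
        gcongr

theorem good_dataP (d : ℕ) {C : ℝ} {N : (Fin (d + 1 + 1) → ℝ) → ℝ} (hC : 0 < C)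
    (hN : NormLikeC C N) (κ : Fin (d + 1 + 1) → ℤ)
    (u : Module.Basis (Fin (d + 1 + 1)) ℤ (Fin (d + 1 + 1) → ℤ))
    (D : Fin (d + 1 + 1) → ℕ) (hD : ∀ i, 0 < D i) (b : ℝ) (hb0 : 0 < b)
    (hz : ∀ z : Fin (d + 1 + 1) → ℤ, z ≠ 0 →
      b ≤ N (fun j => ((∑ i, ((D i : ℤ) * z i) * u i j : ℤ) : ℝ))) (ρ : ℝ)
    (hρ : (∏ i, (D i : ℝ)) / b ^ (d + 1 + 1) < ρ) : GoodP d κ N ρ := by
  by_cases h0 : 2 ∣ u.repr κ 0
  · exact good_dataP_aux d hC hN κ u D hD b hb0 hz ρ hρ 0 (by simpa using h0)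
  · by_cases h1 : 2 ∣ u.repr κ 1
    · set σ : Equiv.Perm (Fin (d + 1 + 1)) := Equiv.swap 0 1 with hσ
      have hσσ : ∀ i, σ (σ i) = i := fun i => Equiv.swap_apply_self 0 1 i
      have hσs : σ.symm = σ := Equiv.symm_swap 0 1
      refine good_dataP_aux d hC hN κ (u.reindex σ) (fun i => D (σ i)) (fun i => hD _) b hb0 ?_ ρ
        ?_ 0 ?_
      · intro z hz0
        have hz1 : (fun i => z (σ i)) ≠ 0 := by
          intro h
          apply hz0
          ext i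
          have := congrFun h (σ i)
          simp only [hσσ] at this
          exact this
        have h2 := hz (fun i => z (σ i)) hz1
        have e : ∀ j, (∑ i, ((D (σ i) : ℤ) * z i) * (u.reindex σ) i j) =
            ∑ i, ((D i : ℤ) * z (σ i)) * u i j := by
          intro j
          rw [← Equiv.sum_comp σ (fun i => ((D i : ℤ) * z (σ i)) * u i j)]
          apply sum_congr rfl
          intro i _
          rw [Module.Basis.reindex_apply, hσs]
          simp only [hσσ]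
        simp only [e]
        exact h2
      · rw [Equiv.prod_comp σ (fun i => (D i : ℝ))]
        exact hρ
      · rw [Module.Basis.repr_reindex_apply, Module.Basis.repr_reindex_apply, hσs, zero_mul,
          add_zero, hσ, Equiv.swap_apply_left]
        exact h1
    · exact good_dataP_aux d hC hN κ u D hD b hb0 hz ρ hρ 1 (by omega)

end Pool.Agent.H560Bh
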