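import Pool.Agent.H560Bh.Basic
import Pool.Agent.H560Bh.Perturb

namespace Pool.Agent.H560Bh

open Finset

/-- the largest of the two one-sided sums, for integer vectors. -/
theorem nrm_lt {d : ℕ} (y : Fin d → ℤ) (h : ℕ) (hy : nrm (fun j => (y j : ℝ)) < h + 1) :
    ∑ j, (y j).toNat ≤ h ∧ ∑ j, (-(y j)).toNat ≤ h := by
  have e1 : ∀ x : ℤ, max (x : ℝ) 0 = ((x.toNat : ℕ) : ℝ) := by
    intro x
    have : ((x.toNat : ℕ) : ℤ) = max x 0 := Int.toNat_eq_max x
    have h2 : (((x.toNat : ℕ) : ℤ) : ℝ) = ((max x 0 : ℤ) : ℝ) := by rw [this]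
    rw [Int.cast_natCast] at h2
    rw [h2, Int.cast_max, Int.cast_zero]
  have e2 : ∀ x : ℤ, max (-(x : ℝ)) 0 = (((-x).toNat : ℕ) : ℝ) := by
    intro x
    rw [← e1]
    push_cast
    rfl
  unfold nrm at hy
  rw [max_lt_iff] at hy
  simp only [e1, e2] at hy
  obtain ⟨h1, h2⟩ := hy
  constructor
  · have : ((∑ j, (y j).toNat : ℕ) : ℝ) < ((h + 1 : ℕ) : ℝ) := by push_cast; exact h1
    have := Nat.cast_lt.mp this
    omega
  · have : ((∑ j, (-(y j)).toNat : ℕ) : ℝ) < ((h + 1 : ℕ) : ℝ) := by push_cast; exact h2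
    have := Nat.cast_lt.mp this
    omega

theorem nrm_le {d : ℕ} (y : Fin d → ℤ) (h : ℕ) (h1 : ∑ j, (y j).toNat ≤ h)
    (h2 : ∑ j, (-(y j)).toNat ≤ h) : nrm (fun j => (y j : ℝ)) ≤ h := by
  have e1 : ∀ x : ℤ, max (x : ℝ) 0 = ((x.toNat : ℕ) : ℝ) := by
    intro x
    have : ((x.toNat : ℕ) : ℤ) = max x 0 := Int.toNat_eq_max x
    have h2 : (((x.toNat : ℕ) : ℤ) : ℝ) = ((max x 0 : ℤ) : ℝ) := by rw [this]
    rw [Int.cast_natCast] at h2
    rw [h2, Int.cast_max, Int.cast_zero]
  have e2 : ∀ x : ℤ, max (-(x : ℝ)) 0 = (((-x).toNat : ℕ) : ℝ) := by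
    intro x
    rw [← e1]
    push_cast
    rfl
  unfold nrm
  simp only [e1, e2]
  apply max_le
  · exact_mod_cast h1
  · exact_mod_cast h2

/-- a relation with small coefficients contradicts the `B_h` property. -/
theorem bh_relation {G : Type} [AddCommGroup G] {d h : ℕ} {A : Finset G} (hA : IsBh h A)
    (a : Fin (d + 1) → G) (ha : ∀ i, a i ∈ A) (hinj : Function.Injective a) (y : Fin d → ℤ)
    (hy : ∑ j, y j • (a j.succ - a 0) = 0) (h1 : ∑ j, (y j).toNat ≤ h)
    (h2 : ∑ j, (-(y j)).toNat ≤ h) : y = 0 := by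
  classical
  set p := ∑ j, (y j).toNat with hp
  set q := ∑ j, (-(y j)).toNat with hq
  have hpq : (p : ℤ) - q = ∑ j, y j := by
    rw [hp, hq]
    push_cast
    rw [← sum_sub_distrib]
    apply sum_congr rfl
    intro j _
    omega
  have hs := hA (∑ j, Multiset.replicate (y j).toNat (a j.succ) + Multiset.replicate (h - p) (a 0))
    (∑ j, Multiset.replicate (-(y j)).toNat (a j.succ) + Multiset.replicate (h - q) (a 0))
    (by
      intro x hx
      rw [Multiset.mem_add, Multiset.mem_sum] at hx
      rcases hx with ⟨j, _, hx⟩ | hx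
      · rw [Multiset.eq_of_mem_replicate hx]; exact ha _
      · rw [Multiset.eq_of_mem_replicate hx]; exact ha _)
    (by
      intro x hx
      rw [Multiset.mem_add, Multiset.mem_sum] at hx
      rcases hx with ⟨j, _, hx⟩ | hx
      · rw [Multiset.eq_of_mem_replicate hx]; exact ha _
      · rw [Multiset.eq_of_mem_replicate hx]; exact ha _)
    (by
      rw [Multiset.card_add, Multiset.card_sum]
      simp only [Multiset.card_replicate]
      omega)
    (by
      rw [Multiset.card_add, Multiset.card_sum]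
      simp only [Multiset.card_replicate]
      omega)
    (by
      rw [Multiset.sum_add, Multiset.sum_add]
      have e : ∀ f : Fin d → Multiset G, (∑ j, f j).sum = ∑ j, (f j).sum := by
        intro f
        exact map_sum Multiset.sumAddMonoidHom f univ
      rw [e, e]
      simp only [Multiset.sum_replicate]
      rw [← sub_eq_zero]
      have c1 : ∀ x : G, (h - p) • x - (h - q) • x = -((∑ j, y j) • x) := by
        intro x
        rw [← hpq, ← natCast_zsmul, ← natCast_zsmul, ← sub_smul, ← neg_smul]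
        congr 1
        omega
      have c2 : ∀ j, (y j).toNat • a j.succ - (-(y j)).toNat • a j.succ = y j • a j.succ := by
        intro j
        rw [← natCast_zsmul, ← natCast_zsmul, ← sub_smul]
        congr 1
        omega
      calc ∑ j, (y j).toNat • a j.succ + (h - p) • a 0 -
            (∑ j, (-(y j)).toNat • a j.succ + (h - q) • a 0)
          = ∑ j, ((y j).toNat • a j.succ - (-(y j)).toNat • a j.succ) +
            ((h - p) • a 0 - (h - q) • a 0) := by
              rw [sum_sub_distrib]; abel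
        _ = ∑ j, y j • a j.succ - (∑ j, y j) • a 0 := by
              rw [c1]
              simp only [c2]
              abel
        _ = ∑ j, y j • (a j.succ - a 0) := by
              simp only [smul_sub]
              rw [sum_sub_distrib, sum_smul]
        _ = 0 := hy)
  ext j
  have hc := congrArg (Multiset.count (a j.succ)) hs
  rw [Multiset.count_add, Multiset.count_add, Multiset.count_sum', Multiset.count_sum'] at hc
  simp only [Multiset.count_replicate] at hc
  have n0 : a 0 ≠ a j.succ := fun h => absurd (hinj h) (Fin.succ_ne_zero j).symm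
  have n1 : ∀ i : Fin d, (a i.succ = a j.succ) ↔ i = j := by
    intro i
    constructor
    · intro h; exact Fin.succ_injective _ (hinj h)
    · rintro rfl; rfl
  simp only [if_neg n0, n1, add_zero, sum_ite_eq', mem_univ, if_true] at hc
  rw [Pi.zero_apply]
  omega

theorem from_group {G : Type} [AddCommGroup G] [Fintype G] (h d : ℕ) (A : Finset G)
    (hA : IsBh h A) (hcard : A.card = d + 2) :
    ∃ (u : Module.Basis (Fin (d + 1)) ℤ (Fin (d + 1) → ℤ)) (D : Fin (d + 1) → ℕ),
      (∀ i, 0 < D i) ∧ ∏ i, D i ≤ Fintype.card G ∧ ∀ z : Fin (d + 1) → ℤ, z ≠ 0 →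
        (h : ℝ) + 1 ≤ nrm (fun j => ((∑ i, ((D i : ℤ) * z i) * u i j : ℤ) : ℝ)) := by
  classical
  set e := (A.equivFinOfCardEq hcard).symm with he
  set a : Fin (d + 2) → G := fun i => (e i : G) with ha
  have haA : ∀ i, a i ∈ A := fun i => (e i).2
  have hainj : Function.Injective a := Subtype.val_injective.comp e.injective
  set φ : (Fin (d + 1) → ℤ) →ₗ[ℤ] G :=
    Fintype.linearCombination ℤ (fun j : Fin (d + 1) => a j.succ - a 0) with hφ
  have hφa : ∀ y, φ y = ∑ j, y j • (a j.succ - a 0) := by
    intro y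
    rw [hφ, Fintype.linearCombination_apply]
  set L : Submodule ℤ (Fin (d + 1) → ℤ) := LinearMap.ker φ with hL
  have hidx : L.toAddSubgroup.index ≠ 0 := by
    have h1 : L.toAddSubgroup = φ.toAddMonoidHom.ker := by
      ext y
      simp [hL]
    rw [h1]
    have : Finite (φ.toAddMonoidHom.range) := Subtype.finite
    have h2 : (φ.toAddMonoidHom.ker).FiniteIndex := inferInstance
    exact h2.index_ne_zero
  obtain ⟨eq⟩ := Int.submodule_toAddSubgroup_index_ne_zero_iff.mp hidx
  have hrank : Module.finrank ℤ L = Module.finrank ℤ (Fin (d + 1) → ℤ) := eq.finrank_eq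
  obtain ⟨u, c, ab, hab⟩ :=
    Submodule.exists_smith_normal_form_of_rank_eq (Pi.basisFun ℤ (Fin (d + 1))) hrank
  have hc0 : ∀ i, c i ≠ 0 := by
    intro i hi
    apply ab.ne_zero i
    have := hab i
    rw [hi, zero_smul] at this
    exact Subtype.ext this
  have hmem : ∀ i, (((c i).natAbs : ℕ) : ℤ) • u i ∈ L := by
    intro i
    have h1 : c i • u i ∈ L := by rw [← hab i]; exact (ab i).2
    rcases Int.natAbs_eq (c i) with h2 | h2
    · rw [← h2]; exact h1
    · have h3 : (((c i).natAbs : ℕ) : ℤ) = -(c i) := by omega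
      rw [h3, neg_smul]
      exact L.neg_mem h1
  refine ⟨u, fun i => (c i).natAbs, fun i => Int.natAbs_pos.mpr (hc0 i), ?_, ?_⟩
  · set f : (∀ i : Fin (d + 1), Fin (c i).natAbs) → G :=
      fun x => φ (∑ i, ((x i : ℕ) : ℤ) • u i) with hf
    have hfinj : Function.Injective f := by
      intro x x' hxx
      have h1 : (∑ i, (((x i : ℕ) : ℤ) - ((x' i : ℕ) : ℤ)) • u i) ∈ L := by
        rw [hL, LinearMap.mem_ker]
        simp only [sub_smul]
        rw [sum_sub_distrib, map_sub, sub_eq_zero]
        exact hxx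
      set v : L := ⟨_, h1⟩ with hv
      have h2 : (v : Fin (d + 1) → ℤ) = ∑ i, (ab.repr v i * c i) • u i := by
        conv_lhs => rw [← ab.sum_repr v]
        rw [Submodule.coe_sum]
        apply sum_congr rfl
        intro i _
        rw [Submodule.coe_smul, hab, smul_smul]
      have h3 : ∀ i, ((x i : ℕ) : ℤ) - ((x' i : ℕ) : ℤ) = ab.repr v i * c i := by
        intro i
        have h4 := congrArg (fun y => u.repr y i) h2
        simp only [hv] at h4
        rw [u.repr_sum_self, u.repr_sum_self] at h4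
        exact h4
      funext i
      have h5 := h3 i
      have h6 : c i ∣ ((x i : ℕ) : ℤ) - ((x' i : ℕ) : ℤ) := ⟨_, by rw [h5]; ring⟩
      have h7 : |((x i : ℕ) : ℤ) - ((x' i : ℕ) : ℤ)| < |c i| := by
        have a1 := (x i).isLt
        have a2 := (x' i).isLt
        rw [Int.abs_eq_natAbs (c i), abs_lt]
        constructor <;> omega
      have h8 := Int.eq_zero_of_abs_lt_dvd ((abs_dvd _ _).mpr h6) h7
      exact Fin.ext (by omega)
    have := Fintype.card_le_of_injective f hfinj
    rw [Fintype.card_pi] at this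
    simp only [Fintype.card_fin] at this
    exact this
  · intro z hz
    by_contra hlt
    rw [not_le] at hlt
    set y : Fin (d + 1) → ℤ := ∑ i, (((c i).natAbs : ℤ) * z i) • u i with hy
    have hyj : ∀ j, y j = ∑ i, (((c i).natAbs : ℤ) * z i) * u i j := by
      intro j
      rw [hy, Finset.sum_apply]
      rfl
    simp only [← hyj] at hlt
    obtain ⟨h1, h2⟩ := nrm_lt y h hlt
    have hyL : y ∈ L := by
      rw [hy]
      apply Submodule.sum_mem
      intro i _
      rw [mul_comm, mul_smul]
      exact L.smul_mem _ (hmem i)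
    rw [hL, LinearMap.mem_ker, hφa] at hyL
    have hy0 := bh_relation hA a haA hainj y hyL h1 h2
    apply hz
    ext i
    have h3 := congrArg (fun y => u.repr y i) hy0
    simp only [hy] at h3
    rw [u.repr_sum_self, map_zero] at h3
    have h4 : ((c i).natAbs : ℤ) * z i = 0 := h3
    rcases mul_eq_zero.mp h4 with h5 | h5
    · exact absurd h5 (by have := hc0 i; omega)
    · exact h5

end Pool.Agent.H560Bh
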