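import Pool.Agent.H560Bh.Digits

namespace Pool.Agent.H560Bh

open Finset

theorem key_digit_par (par : ℤ) (k : ℕ) (hk : 1 ≤ k) (c₁ c₂ δ : ℝ) (hc₁ : 0 < c₁) (hc : c₁ ≤ c₂) (hδ : 0 < δ)
    (hδ1 : δ ≤ 1) : ∃ x₀ ≥ (1 : ℝ), ∀ x ≥ x₀, ∀ n : ℤ, c₁ * x ^ (k + 1) ≤ n →
      n ≤ c₂ * x ^ (k + 1) → ∃ Q n' s : ℤ, 2 ∣ Q - par ∧ x ≤ Q ∧ (Q : ℝ) ≤ (1 + δ) * x ∧ |(s : ℝ)| ≤ δ * x ∧
        n = Q * n' + s := by
  obtain ⟨η, hη, J, hJ⟩ := dif_lemma k (δ / 2) (by positivity)
  set B : ℝ := (1 + δ / 2) ^ (k + 1) with hB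
  have hB1 : 1 < B := one_lt_pow₀ (by linarith) (by omega)
  have hBi : 0 < 1 - 1 / B := by
    have : 1 / B < 1 := by rw [div_lt_one (by linarith)]; exact hB1
    linarith
  set r₀ : ℕ := ⌈1 / (c₁ * (1 - 1 / B))⌉₊ with hr₀
  have hr₀0 : 0 < r₀ := Nat.ceil_pos.mpr (by positivity)
  set r : ℕ := 2 * r₀ with hr
  have hr0 : 0 < r := by omega
  have hr1 : (1 : ℝ) ≤ r := by exact_mod_cast hr0
  have hrc : 1 ≤ r * c₁ * (1 - 1 / B) := by
    have h1 : 1 / (c₁ * (1 - 1 / B)) ≤ r := by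
      have h2 : 1 / (c₁ * (1 - 1 / B)) ≤ r₀ := Nat.le_ceil _
      have h3 : (r₀ : ℝ) ≤ r := by exact_mod_cast (by omega : r₀ ≤ r)
      linarith
    rw [div_le_iff₀ (by positivity)] at h1
    linarith
  set W : ℝ := (k.factorial : ℝ) * (r : ℝ) ^ k with hW
  have hWr : (r : ℝ) ≤ W := by
    have h1 : (1 : ℝ) ≤ k.factorial := by exact_mod_cast Nat.succ_le_of_lt (Nat.factorial_pos k)
    have h2 : (r : ℝ) ≤ (r : ℝ) ^ k := le_self_pow₀ hr1 (by omega)
    calc (r : ℝ) = 1 * r := by ring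
      _ ≤ (k.factorial : ℝ) * (r : ℝ) ^ k := by gcongr
  have hW0 : 0 < W := by linarith
  set R : ℝ := 2 + r * ((J : ℝ) + k) with hR
  have hR0 : 0 < R := by positivity
  set A₂ : ℝ := W * c₂ with hA₂
  have hc₂ : 0 < c₂ := by linarith
  have hA₂0 : 0 < A₂ := by positivity
  refine ⟨1 + A₂ * (k + 1) * R / η + 2 * R / δ, by
    have : 0 ≤ A₂ * (k + 1) * R / η + 2 * R / δ := by positivity
    linarith, ?_⟩
  intro x hx n hn1 hn2
  have hx1 : 1 ≤ x := by
    have : 0 ≤ A₂ * (k + 1) * R / η + 2 * R / δ := by positivity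
    linarith
  have hx0 : 0 < x := by linarith
  have hxA : A₂ * (k + 1) * R / x ≤ η := by
    have h1 : A₂ * (k + 1) * R / η ≤ x := by
      have : 0 ≤ 2 * R / δ := by positivity
      linarith
    rw [div_le_iff₀ hη] at h1
    rw [div_le_iff₀ hx0]
    linarith
  have hxR : R ≤ δ / 2 * x := by
    have h1 : 2 * R / δ ≤ x := by
      have : 0 ≤ A₂ * (k + 1) * R / η := by positivity
      linarith
    rw [div_le_iff₀ hδ] at h1
    linarith
  have hxk : 0 < x ^ (k + 1) := by positivity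
  set A : ℝ := W * n / x ^ (k + 1) with hA
  have hA1 : W * c₁ ≤ A := by
    rw [hA, le_div_iff₀ hxk]
    calc W * c₁ * x ^ (k + 1) = W * (c₁ * x ^ (k + 1)) := by ring
      _ ≤ W * n := by gcongr
  have hA2 : A ≤ A₂ := by
    rw [hA, div_le_iff₀ hxk, hA₂]
    calc W * n ≤ W * (c₂ * x ^ (k + 1)) := by gcongr
      _ = W * c₂ * x ^ (k + 1) := by ring
  have hA0 : 0 < A := lt_of_lt_of_le (by positivity) hA1
  have hAgap : A / B ≤ A - 1 := by
    have h1 : r * c₁ * (1 - 1 / B) ≤ A * (1 - 1 / B) := by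
      have : r * c₁ ≤ A := le_trans (by gcongr) hA1
      gcongr
    have h2 : A * (1 - 1 / B) = A - A / B := by ring
    linarith
  set a : ℤ := ⌊A - 2 * η⌋ with ha
  set v : ℝ := a + 2 * η with hv
  have hvA : v ≤ A := by
    have := Int.floor_le (A - 2 * η)
    rw [hv]; linarith
  have hvB : A / B ≤ v := by
    have := Int.lt_floor_add_one (A - 2 * η)
    rw [hv]; linarith
  have hv0 : 0 < v := lt_of_lt_of_le (by positivity) hvB
  set Y : ℝ := x ^ (k + 1) * A / v with hY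
  have hY0 : 0 ≤ Y := by positivity
  obtain ⟨y, hy0, hyk⟩ : ∃ y : ℝ, 0 ≤ y ∧ y ^ (k + 1) = Y :=
    ⟨Y ^ (((k + 1 : ℕ) : ℝ)⁻¹), by positivity, Real.rpow_inv_natCast_pow hY0 (by omega)⟩
  have hxy : x ≤ y := by
    rw [← pow_le_pow_iff_left₀ hx0.le hy0 (show k + 1 ≠ 0 by omega), hyk, hY, le_div_iff₀ hv0]
    gcongr
  have hyx : y ≤ (1 + δ / 2) * x := by
    rw [← pow_le_pow_iff_left₀ hy0 (by positivity) (show k + 1 ≠ 0 by omega), hyk, hY, mul_pow,
      ← hB, div_le_iff₀ hv0]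
    have : A ≤ B * v := by rwa [div_le_iff₀' (by linarith)] at hvB
    calc x ^ (k + 1) * A ≤ x ^ (k + 1) * (B * v) := by gcongr
      _ = B * x ^ (k + 1) * v := by ring
  have hy00 : 0 < y := by linarith
  have hWn : W * n = v * y ^ (k + 1) := by
    rw [hyk, hY, hA]
    field_simp
  obtain ⟨Q₀, hQpar, hQ1, hQ2⟩ : ∃ Q₀ : ℤ, 2 ∣ Q₀ - par ∧ y ≤ Q₀ ∧ (Q₀ : ℝ) < y + 2 := by
    have h1 : y ≤ ⌈y⌉ := Int.le_ceil y
    have h2 : (⌈y⌉ : ℝ) < y + 1 := Int.ceil_lt_add_one y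
    by_cases hp : 2 ∣ ⌈y⌉ - par
    · exact ⟨⌈y⌉, hp, h1, by linarith⟩
    · refine ⟨⌈y⌉ + 1, by omega, ?_, ?_⟩
      · push_cast; linarith
      · push_cast; linarith
  have hQpos : (0 : ℝ) < Q₀ := by linarith
  obtain ⟨i, hi, z, hz⟩ := hJ (fun i => ((-1) ^ k * (n : ℝ)) / ((Q₀ : ℝ) + r * i)) (by
    intro i hi
    refine ⟨a, ?_⟩
    rw [dif_inv _ (Q₀ : ℝ) r hQpos (by positivity)]
    set P : ℝ := ∏ l ∈ range (k + 1), ((Q₀ : ℝ) + r * (i + l)) with hP
    have e1 : (-1 : ℝ) ^ k * ((-1) ^ k * (n : ℝ) * k.factorial * (r : ℝ) ^ k) =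
        v * y ^ (k + 1) := by
      rw [← hWn, hW]
      have : (-1 : ℝ) ^ k * (-1) ^ k = 1 := by rw [← mul_pow]; norm_num
      linear_combination ((n : ℝ) * k.factorial * (r : ℝ) ^ k) * this
    rw [e1]
    have hP1 : y ^ (k + 1) ≤ P := by
      have : ∏ _l ∈ range (k + 1), y = y ^ (k + 1) := by rw [prod_const, card_range]
      rw [← this, hP]
      apply prod_le_prod
      · intro _ _; exact hy0
      · intro l _
        have : (0 : ℝ) ≤ r * (i + l) := by positivity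
        linarith
    have hP2 : P ≤ (y + R) ^ (k + 1) := by
      have : ∏ _l ∈ range (k + 1), (y + R) = (y + R) ^ (k + 1) := by rw [prod_const, card_range]
      rw [← this, hP]
      apply prod_le_prod
      · intro l _; positivity
      · intro l hl
        have hl' : (l : ℝ) ≤ k := by
          have := mem_range.mp hl
          exact_mod_cast (by omega : l ≤ k)
        have hi' : (i : ℝ) ≤ J := by exact_mod_cast hi
        have : (r : ℝ) * (i + l) ≤ r * (J + k) := by gcongr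
        rw [hR]
        linarith
    have hP0 : 0 < P := lt_of_lt_of_le (by positivity) hP1
    have hup : v * y ^ (k + 1) / P ≤ v := by
      rw [div_le_iff₀ hP0]
      gcongr
    have hlo : v - η ≤ v * y ^ (k + 1) / P := by
      have hyR : 0 < y + R := by linarith
      have h1 : v * (y / (y + R)) ^ (k + 1) ≤ v * y ^ (k + 1) / P := by
        rw [div_pow, ← mul_div_assoc]
        gcongr
      have h2 : 1 - (k + 1) * (R / (y + R)) ≤ (y / (y + R)) ^ (k + 1) := by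
        have h3 := one_add_mul_le_pow (a := -(R / (y + R))) (by
          have : R / (y + R) ≤ 1 := by rw [div_le_one hyR]; linarith
          linarith) (k + 1)
        have h4 : 1 + -(R / (y + R)) = y / (y + R) := by
          field_simp
          ring
        rw [h4] at h3
        push_cast at h3
        linarith
      have h5 : v * ((k + 1) * (R / (y + R))) ≤ η := by
        calc v * ((k + 1) * (R / (y + R))) ≤ A₂ * ((k + 1) * (R / x)) := by
              have : x ≤ y + R := by linarith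
              have hvA2 : v ≤ A₂ := hvA.trans hA2
              gcongr
          _ = A₂ * (k + 1) * R / x := by ring
          _ ≤ η := hxA
      nlinarith
    constructor
    · rw [hv] at hlo ⊢
      linarith
    · rw [hv] at hup ⊢
      linarith)
  have hQi1 : x ≤ ((Q₀ + r * i : ℤ) : ℝ) := by
    push_cast
    have : (0 : ℝ) ≤ r * i := by positivity
    linarith
  have hQi2 : ((Q₀ + r * i : ℤ) : ℝ) ≤ (1 + δ) * x := by
    push_cast
    have hi' : (i : ℝ) ≤ J := by exact_mod_cast hi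
    have h1 : (r : ℝ) * i ≤ r * (J + k) := by
      have : (0 : ℝ) ≤ k := by positivity
      gcongr
      linarith
    have h2 : (2 : ℝ) + r * (J + k) ≤ δ / 2 * x := hxR
    linarith
  refine ⟨Q₀ + r * i, (-1) ^ k * z, n - (Q₀ + r * i) * ((-1) ^ k * z), ?_, hQi1, hQi2, ?_, by ring⟩
  · have e : Q₀ + (r : ℤ) * i - par = (Q₀ - par) + 2 * (r₀ * i) := by
      rw [hr]
      push_cast
      ring
    rw [e]
    exact dvd_add hQpar (dvd_mul_right _ _)
  have hQi0 : (0 : ℝ) < ((Q₀ + r * i : ℤ) : ℝ) := by linarith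
  have e2 : (((n - (Q₀ + r * i) * ((-1) ^ k * z) : ℤ)) : ℝ) =
      ((Q₀ + r * i : ℤ) : ℝ) * ((-1) ^ k * (((-1) ^ k * (n : ℝ)) / ((Q₀ : ℝ) + r * i) - z)) := by
    have h3 : ((Q₀ : ℝ) + r * i) ≠ 0 := by
      push_cast at hQi0
      exact hQi0.ne'
    have h4 : (-1 : ℝ) ^ k * (-1) ^ k = 1 := by rw [← mul_pow]; norm_num
    push_cast
    field_simp
    linear_combination (-(n : ℝ)) * h4
  rw [e2, abs_mul, abs_mul, abs_pow, abs_neg, abs_one, one_pow, one_mul, abs_of_pos hQi0]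
  calc ((Q₀ + r * i : ℤ) : ℝ) * |((-1) ^ k * (n : ℝ)) / ((Q₀ : ℝ) + r * i) - z|
      ≤ ((1 + δ) * x) * (δ / 2) := by gcongr
    _ ≤ δ * x := by nlinarith [mul_pos hδ hx0]

end Pool.Agent.H560Bh
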