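import Pool.Agent.H560Bh.Groups

namespace Pool.Agent.H560Bh

open Finset Filter Topology

/-- the least order of a finite abelian group which contains a `B_h` set with `m` elements. -/
noncomputable def f (m h : ℕ) : ℕ :=
  sInf {n | ∃ (G : Type) (_ : AddCommGroup G) (_ : Fintype G) (A : Finset G),
    Fintype.card G = n ∧ IsBh h A ∧ A.card = m}

/-- the infimum over `h ≥ 0` of `f m h / (h + 1) ^ (m - 1)`. -/
noncomputable def c (m : ℕ) : ℝ := ⨅ h : ℕ, (f m h : ℝ) / ((h : ℝ) + 1) ^ (m - 1)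

theorem to_zmod (n h d : ℕ) (hn : 0 < n) (hh : 1 ≤ h) (ψ : (Fin (d + 1) → ℤ) →ₗ[ℤ] ℤ)
    (hψ : ∀ Y : Fin (d + 1) → ℤ, Y ≠ 0 → (n : ℤ) ∣ ψ Y → (h : ℝ) < nrm (fun j => (Y j : ℝ))) :
    d + 2 ≤ sigma n h := by
  classical
  set p : Fin (d + 2) → ZMod n :=
    Fin.cons 0 (fun j => ((ψ (Pi.single j 1) : ℤ) : ZMod n)) with hp
  have hp0 : p 0 = 0 := rfl
  have hps : ∀ j : Fin (d + 1), p j.succ = ((ψ (Pi.single j 1) : ℤ) : ZMod n) := fun j => rfl
  have key : ∀ a b : Fin (d + 2) → ℕ, ∑ i, a i = h → ∑ i, b i = h →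
      ∑ i, a i • p i = ∑ i, b i • p i → a = b := by
    intro a b ha hb hab
    set Y : Fin (d + 1) → ℤ := fun j => (a j.succ : ℤ) - b j.succ with hY
    rw [Fin.sum_univ_succ] at ha hb
    have hY0 : Y = 0 := by
      by_contra hne
      have hψY : ψ Y = ∑ j, Y j * ψ (Pi.single j 1) := by
        conv_lhs => rw [show Y = ∑ j, Y j • (Pi.single j 1 : Fin (d + 1) → ℤ) from by
          ext k
          simp [Finset.sum_apply, Pi.single_apply]]
        rw [map_sum]
        apply sum_congr rfl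
        intro j _
        rw [map_smul, smul_eq_mul]
      have hdvd : (n : ℤ) ∣ ψ Y := by
        rw [← ZMod.intCast_zmod_eq_zero_iff_dvd, hψY]
        rw [Fin.sum_univ_succ (fun i => a i • p i), Fin.sum_univ_succ (fun i => b i • p i), hp0,
          smul_zero, smul_zero, zero_add, zero_add] at hab
        push_cast
        simp only [hY]
        push_cast
        simp only [sub_mul]
        rw [sum_sub_distrib, sub_eq_zero]
        simpa only [nsmul_eq_mul, hps] using hab
      have h1 := hψ Y hne hdvd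
      have h2 := nrm_le Y h (by
        calc ∑ j, (Y j).toNat ≤ ∑ j : Fin (d + 1), a j.succ := by
              apply sum_le_sum
              intro j _
              simp only [hY]
              omega
          _ ≤ h := by omega) (by
        calc ∑ j, (-(Y j)).toNat ≤ ∑ j : Fin (d + 1), b j.succ := by
              apply sum_le_sum
              intro j _
              simp only [hY]
              omega
          _ ≤ h := by omega)
      linarith
    have hsucc : ∀ j : Fin (d + 1), a j.succ = b j.succ := by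
      intro j
      have := congrFun hY0 j
      simp only [hY, Pi.zero_apply] at this
      omega
    ext i
    refine Fin.cases ?_ (fun j => hsucc j) i
    have : ∑ j : Fin (d + 1), a j.succ = ∑ j : Fin (d + 1), b j.succ :=
      sum_congr rfl fun j _ => hsucc j
    omega
  have hinj : Function.Injective p := by
    intro i j hij
    by_contra hne
    have := key (Pi.single i h) (Pi.single j h) (by simp) (by simp) (by
      have e : ∀ i : Fin (d + 2), ∑ k, (Pi.single i h : Fin (d + 2) → ℕ) k • p k = h • p i := by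
        intro i
        rw [Finset.sum_eq_single i]
        · simp
        · intro k _ hk
          rw [Pi.single_eq_of_ne hk, zero_smul]
        · intro hi; exact absurd (mem_univ _) hi
      rw [e, e, hij])
    have h1 := congrFun this i
    rw [Pi.single_eq_same, Pi.single_eq_of_ne hne] at h1
    omega
  set A : Finset (ZMod n) := univ.image p with hA
  have hcard : A.card = d + 2 := by
    rw [hA, card_image_of_injective _ hinj, card_univ, Fintype.card_fin]
  have hsum : ∀ s : Multiset (ZMod n), (∀ x ∈ s, x ∈ A) →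
      s.sum = ∑ i, s.count (p i) • p i ∧ ∑ i, s.count (p i) = Multiset.card s := by
    intro s hs
    constructor
    · rw [Finset.sum_multiset_count_of_subset s A (fun x hx => hs x (Multiset.mem_toFinset.mp hx)),
        hA, sum_image fun _ _ _ _ h => hinj h]
    · rw [← Multiset.sum_count_eq_card (s := A) hs, hA, sum_image fun _ _ _ _ h => hinj h]
  have hBh : IsBh h A := by
    intro s t hs ht hcs hct hst
    obtain ⟨s1, s2⟩ := hsum s hs
    obtain ⟨t1, t2⟩ := hsum t ht
    rw [s1, t1] at hst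
    have hk := key (fun i => s.count (p i)) (fun i => t.count (p i)) (s2.trans hcs)
      (t2.trans hct) hst
    ext x
    by_cases hx : x ∈ A
    · rw [hA, mem_image] at hx
      obtain ⟨i, _, rfl⟩ := hx
      exact congrFun hk i
    · rw [Multiset.count_eq_zero_of_notMem (fun h => hx (hs x h)),
        Multiset.count_eq_zero_of_notMem (fun h => hx (ht x h))]
  have := le_sigma hn hBh
  omega

theorem upper_data (d : ℕ) (u : Module.Basis (Fin (d + 1)) ℤ (Fin (d + 1) → ℤ))
    (D : Fin (d + 1) → ℕ) (hD : ∀ i, 0 < D i) (b : ℝ) (hb0 : 0 < b)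
    (hz : ∀ z : Fin (d + 1) → ℤ, z ≠ 0 →
      b ≤ nrm (fun j => ((∑ i, ((D i : ℤ) * z i) * u i j : ℤ) : ℝ))) (θ : ℝ) (hθ : 1 < θ) :
    ∃ H : ℕ, ∀ h ≥ H, ∀ n : ℕ,
      θ * ((∏ i, (D i : ℝ)) / b ^ (d + 1)) * (h : ℝ) ^ (d + 1) ≤ n →
      d + 2 ≤ sigma n h := by
  set ε : ℝ := (1 - 1 / θ) / (2 * (d + 1)) with hε
  have hθ0 : 0 < θ := by linarith
  have h1θ : 0 < 1 - 1 / θ := by
    have : 1 / θ < 1 := by rw [div_lt_one hθ0]; exact hθ
    linarith
  have hε0 : 0 < ε := by positivity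
  have hεd : (d + 1) * ε = (1 - 1 / θ) / 2 := by
    rw [hε]; field_simp
  have hε1 : ε ≤ 1 := by
    have h1 : (1 : ℝ) * ε ≤ (d + 1) * ε := by
      have : (0 : ℝ) ≤ d := by positivity
      gcongr
      linarith
    have h2 : 0 < 1 / θ := by positivity
    linarith
  have hεθ : 1 < θ * (1 - ε) ^ (d + 1) := by
    have h3 := one_add_mul_le_pow (a := -ε) (by linarith) (d + 1)
    have h4 : (1 : ℝ) + ((d + 1 : ℕ) : ℝ) * -ε = 1 - (1 - 1 / θ) / 2 := by
      push_cast
      linarith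
    rw [h4, ← sub_eq_add_neg] at h3
    calc 1 < θ * (1 - (1 - 1 / θ) / 2) := by
          have : θ * (1 - (1 - 1 / θ) / 2) = (θ + 1) / 2 := by field_simp; ring
          linarith
      _ ≤ θ * (1 - ε) ^ (d + 1) := by gcongr
  obtain ⟨K₀, hK₀, hper⟩ := perturb d u D hD b hz ε hε0 hε1
  obtain ⟨M, hM⟩ : ∃ M : ℕ, K₀ * b ≤ M := ⟨_, Nat.le_ceil _⟩
  refine ⟨M + 1, fun h hh n hn => ?_⟩
  set P : ℝ := ∏ i, (D i : ℝ) with hP
  have hP0 : 0 < P := prod_pos fun i _ => by exact_mod_cast hD i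
  have hh1 : 1 ≤ h := by omega
  have hhR : (0 : ℝ) < h := by exact_mod_cast hh1
  have hhK : K₀ * b ≤ h := by
    have h2 : (M : ℝ) ≤ h := by exact_mod_cast (show M ≤ h by omega)
    linarith
  have hnP : θ * ((h : ℝ) / b) ^ (d + 1) ≤ n / P := by
    rw [le_div_iff₀ hP0]
    calc θ * ((h : ℝ) / b) ^ (d + 1) * P
        = θ * (P / b ^ (d + 1)) * (h : ℝ) ^ (d + 1) := by
          rw [div_pow]; ring
      _ ≤ n := hn
  have hn0 : 0 < n := by
    have h1 : 0 < (n : ℝ) / P := lt_of_lt_of_le (by positivity) hnP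
    have h2 : (0 : ℝ) < n := by
      by_contra hc
      rw [not_lt] at hc
      have : (n : ℝ) / P ≤ 0 := div_nonpos_of_nonpos_of_nonneg hc hP0.le
      linarith
    exact_mod_cast h2
  obtain ⟨K, hK0, hKd⟩ : ∃ K : ℝ, 0 ≤ K ∧ K ^ (d + 1) = n / P :=
    ⟨((n : ℝ) / P) ^ (((d + 1 : ℕ) : ℝ)⁻¹), by positivity,
      Real.rpow_inv_natCast_pow (by positivity) (by omega)⟩
  have hKh : (h : ℝ) / b ≤ K := by
    rw [← pow_le_pow_iff_left₀ (by positivity) hK0 (show d + 1 ≠ 0 by omega), hKd]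
    refine le_trans ?_ hnP
    have : 0 < ((h : ℝ) / b) ^ (d + 1) := by positivity
    nlinarith
  have hKK : K₀ ≤ K := by
    refine le_trans ?_ hKh
    rwa [le_div_iff₀ hb0]
  obtain ⟨ψ, hψ⟩ := hper K hKK (n : ℤ) (by
    rw [hKd]
    push_cast
    field_simp)
  refine to_zmod n h d hn0 hh1 ψ fun Y hY hnY => lt_of_lt_of_le ?_ (hψ Y hY hnY)
  have hpos : 0 ≤ (1 - ε) * K * b := by
    have : 0 ≤ 1 - ε := by linarith
    positivity
  refine lt_of_pow_lt_pow_left₀ (d + 1) hpos ?_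
  rw [mul_pow, mul_pow, hKd]
  calc (h : ℝ) ^ (d + 1) < (θ * (1 - ε) ^ (d + 1)) * (h : ℝ) ^ (d + 1) := by
        have : 0 < (h : ℝ) ^ (d + 1) := by positivity
        nlinarith
    _ = (1 - ε) ^ (d + 1) * (θ * ((h : ℝ) / b) ^ (d + 1)) * b ^ (d + 1) := by
        rw [div_pow]
        field_simp
    _ ≤ (1 - ε) ^ (d + 1) * (n / P) * b ^ (d + 1) := by
        have : 0 ≤ 1 - ε := by linarith
        gcongr

theorem upper {G : Type} [AddCommGroup G] [Fintype G] (h₀ d : ℕ) (A : Finset G)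
    (hA : IsBh h₀ A) (hcard : A.card = d + 2) (θ : ℝ) (hθ : 1 < θ) :
    ∃ H : ℕ, ∀ h ≥ H, ∀ n : ℕ,
      θ * ((Fintype.card G : ℝ) / ((h₀ : ℝ) + 1) ^ (d + 1)) * (h : ℝ) ^ (d + 1) ≤ n →
      d + 2 ≤ sigma n h := by
  obtain ⟨u, D, hD, hDle, hz⟩ := from_group h₀ d A hA hcard
  obtain ⟨H, hH⟩ := upper_data d u D hD ((h₀ : ℝ) + 1) (by positivity) hz θ hθ
  refine ⟨H, fun h hh n hn => hH h hh n (le_trans ?_ hn)⟩
  have hPF : (∏ i, (D i : ℝ)) ≤ Fintype.card G := by exact_mod_cast hDle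
  have : 0 < θ := by linarith
  gcongr

theorem isBh_mono {G : Type} [AddCommGroup G] {h h' : ℕ} (hh : h ≤ h') {A : Finset G}
    (hA : IsBh h' A) : IsBh h A := by
  intro s t hs ht hcs hct hst
  rcases A.eq_empty_or_nonempty with he | ⟨a, ha⟩
  · have e1 : s = 0 := Multiset.eq_zero_of_forall_notMem fun x hx => by
      have := hs x hx
      rw [he] at this
      simp at this
    have e2 : t = 0 := Multiset.eq_zero_of_forall_notMem fun x hx => by
      have := ht x hx
      rw [he] at this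
      simp at this
    rw [e1, e2]
  · have := hA (s + Multiset.replicate (h' - h) a) (t + Multiset.replicate (h' - h) a)
      (by
        intro x hx
        rcases Multiset.mem_add.mp hx with hx | hx
        · exact hs x hx
        · rw [Multiset.eq_of_mem_replicate hx]; exact ha)
      (by
        intro x hx
        rcases Multiset.mem_add.mp hx with hx | hx
        · exact ht x hx
        · rw [Multiset.eq_of_mem_replicate hx]; exact ha)
      (by rw [Multiset.card_add, Multiset.card_replicate]; omega)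
      (by rw [Multiset.card_add, Multiset.card_replicate]; omega)
      (by rw [Multiset.sum_add, Multiset.sum_add, hst])
    exact add_right_cancel this

theorem isBh_subset {G : Type} [AddCommGroup G] {h : ℕ} {A B : Finset G} (hBA : B ⊆ A)
    (hA : IsBh h A) : IsBh h B :=
  fun s t hs ht => hA s t (fun x hx => hBA (hs x hx)) (fun x hx => hBA (ht x hx))

theorem isBh_zero {G : Type} [AddCommGroup G] (A : Finset G) : IsBh 0 A := by
  intro s t _ _ hs ht _
  rw [Multiset.card_eq_zero.mp hs, Multiset.card_eq_zero.mp ht]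

/-- if `sigma n h ≥ m`, then `f m h ≤ n`. -/
theorem f_le_of_sigma {m n h : ℕ} (hn : 0 < n) (hm : m ≤ sigma n h) : f m h ≤ n := by
  have : NeZero n := ⟨by omega⟩
  obtain ⟨A, hA, hc⟩ := exists_of_sigma hn hm
  obtain ⟨B, hB, hBc⟩ := Finset.exists_subset_card_eq hc
  exact Nat.sInf_le ⟨ZMod n, inferInstance, inferInstance, B, ZMod.card n, isBh_subset hB hA, hBc⟩

/-- the eventual bound for `g`. -/
theorem g_le {G : Type} [AddCommGroup G] [Fintype G] (h₀ d : ℕ) (A : Finset G)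
    (hA : IsBh h₀ A) (hcard : A.card = d + 2) (θ : ℝ) (hθ : 1 < θ) :
    ∃ H : ℕ, ∀ h ≥ H, (g (d + 2) h : ℝ) ≤
      θ * ((Fintype.card G : ℝ) / ((h₀ : ℝ) + 1) ^ (d + 1)) * (h : ℝ) ^ (d + 1) + 1 ∧
      (0 < g (d + 2) h ∧ ∀ n ≥ g (d + 2) h, d + 2 ≤ sigma n h) := by
  obtain ⟨H, hH⟩ := upper h₀ d A hA hcard θ hθ
  have hG : (0 : ℝ) < Fintype.card G := by exact_mod_cast Fintype.card_pos
  refine ⟨H + 1, fun h hh => ?_⟩
  have hh1 : (0 : ℝ) < h := by exact_mod_cast (by omega : 0 < h)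
  set x : ℝ := θ * ((Fintype.card G : ℝ) / ((h₀ : ℝ) + 1) ^ (d + 1)) * (h : ℝ) ^ (d + 1) with hx
  have hx0 : 0 < x := by
    have : 0 < θ := by linarith
    positivity
  have hmem : ⌈x⌉₊ ∈ {N | 0 < N ∧ ∀ n ≥ N, d + 2 ≤ sigma n h} := by
    refine ⟨Nat.ceil_pos.mpr hx0, fun n hn => hH h (by omega) n ?_⟩
    exact (Nat.le_ceil x).trans (by exact_mod_cast hn)
  refine ⟨?_, Nat.sInf_mem ⟨_, hmem⟩⟩
  have h1 : g (d + 2) h ≤ ⌈x⌉₊ := Nat.sInf_le hmem
  have h2 : (⌈x⌉₊ : ℝ) < x + 1 := Nat.ceil_lt_add_one hx0.le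
  have h3 : (g (d + 2) h : ℝ) ≤ (⌈x⌉₊ : ℝ) := by exact_mod_cast h1
  linarith

theorem g_spec (d : ℕ) : ∃ H : ℕ, ∀ h ≥ H,
    0 < g (d + 2) h ∧ ∀ n ≥ g (d + 2) h, d + 2 ≤ sigma n h := by
  obtain ⟨H, hH⟩ := g_le (G := ZMod (d + 2)) 0 d univ (isBh_zero _) (by
    rw [card_univ, ZMod.card]) 2 (by norm_num)
  exact ⟨H, fun h hh => (hH h hh).2⟩

theorem f_mem (d h : ℕ) : ∃ (G : Type) (_ : AddCommGroup G) (_ : Fintype G) (A : Finset G),
    Fintype.card G = f (d + 2) h ∧ IsBh h A ∧ A.card = d + 2 := by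
  obtain ⟨H, hH⟩ := g_spec d
  have hne : {n | ∃ (G : Type) (_ : AddCommGroup G) (_ : Fintype G) (A : Finset G),
      Fintype.card G = n ∧ IsBh h A ∧ A.card = d + 2}.Nonempty := by
    obtain ⟨h1, h2⟩ := hH (max H h) (le_max_left _ _)
    set n := g (d + 2) (max H h) with hn
    have : NeZero n := ⟨by omega⟩
    obtain ⟨A, hA, hc⟩ := exists_of_sigma h1 (h2 n le_rfl)
    obtain ⟨B, hB, hBc⟩ := Finset.exists_subset_card_eq hc
    exact ⟨n, ZMod n, inferInstance, inferInstance, B, ZMod.card n,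
      isBh_mono (le_max_right _ _) (isBh_subset hB hA), hBc⟩
  exact Nat.sInf_mem hne

theorem f_lower (d h : ℕ) : (((h : ℝ) + 1) / (d + 1)) ^ (d + 1) ≤ f (d + 2) h := by
  classical
  obtain ⟨G, iG, iF, A, hGc, hA, hAc⟩ := f_mem d h
  set e := (A.equivFinOfCardEq hAc).symm with he
  set a : Fin (d + 2) → G := fun i => (e i : G) with ha
  have haA : ∀ i, a i ∈ A := fun i => (e i).2
  have hainj : Function.Injective a := Subtype.val_injective.comp e.injective
  set k := h / (d + 1) with hk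
  set F : (Fin (d + 1) → Fin (k + 1)) → G := fun y => ∑ j, ((y j : ℕ) : ℤ) • (a j.succ - a 0)
    with hF
  have hkd : (d + 1) * k ≤ h := Nat.mul_div_le h (d + 1)
  have hFinj : Function.Injective F := by
    intro y y' hyy
    have h0 := bh_relation hA a haA hainj (fun j => ((y j : ℕ) : ℤ) - ((y' j : ℕ) : ℤ)) (by
      simp only [sub_smul]
      rw [sum_sub_distrib, sub_eq_zero]
      exact hyy) (by
      calc ∑ j : Fin (d + 1), (((y j : ℕ) : ℤ) - ((y' j : ℕ) : ℤ)).toNat
          ≤ ∑ _j : Fin (d + 1), k := by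
            apply sum_le_sum
            intro j _
            have := (y j).isLt
            omega
        _ = (d + 1) * k := by rw [sum_const, card_univ, Fintype.card_fin, smul_eq_mul]
        _ ≤ h := hkd) (by
      calc ∑ j : Fin (d + 1), (-(((y j : ℕ) : ℤ) - ((y' j : ℕ) : ℤ))).toNat
          ≤ ∑ _j : Fin (d + 1), k := by
            apply sum_le_sum
            intro j _
            have := (y' j).isLt
            omega
        _ = (d + 1) * k := by rw [sum_const, card_univ, Fintype.card_fin, smul_eq_mul]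
        _ ≤ h := hkd)
    funext j
    have := congrFun h0 j
    simp only [Pi.zero_apply] at this
    exact Fin.ext (by omega)
  have h1 := Fintype.card_le_of_injective F hFinj
  rw [Fintype.card_fun, Fintype.card_fin, Fintype.card_fin, hGc] at h1
  have h2 : ((h : ℝ) + 1) / (d + 1) ≤ (k : ℝ) + 1 := by
    rw [div_le_iff₀ (by positivity)]
    have : h + 1 ≤ (k + 1) * (d + 1) := by
      have := Nat.lt_mul_div_succ h (show 0 < d + 1 by omega)
      rw [← hk] at this
      rw [mul_comm]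
      exact this
    exact_mod_cast this
  calc (((h : ℝ) + 1) / (d + 1)) ^ (d + 1) ≤ ((k : ℝ) + 1) ^ (d + 1) := by gcongr
    _ ≤ f (d + 2) h := by exact_mod_cast h1

theorem c_le (m h : ℕ) : c m ≤ (f m h : ℝ) / ((h : ℝ) + 1) ^ (m - 1) :=
  ciInf_le ⟨0, by rintro _ ⟨k, rfl⟩; positivity⟩ h

theorem c_pos (d : ℕ) : 0 < c (d + 2) := by
  have h1 : (1 / ((d : ℝ) + 1)) ^ (d + 1) ≤ c (d + 2) := by
    apply le_ciInf
    intro h
    have e : d + 2 - 1 = d + 1 := by omega
    rw [e, le_div_iff₀ (by positivity), ← mul_pow]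
    refine le_trans (le_of_eq ?_) (f_lower d h)
    congr 1
    ring
  exact lt_of_lt_of_le (by positivity) h1

theorem main (d : ℕ) :
    Tendsto (fun h : ℕ => (g (d + 2) h : ℝ) / (h : ℝ) ^ (d + 1)) atTop (𝓝 (c (d + 2))) ∧
    Tendsto (fun h : ℕ => (f (d + 2) h : ℝ) / (h : ℝ) ^ (d + 1)) atTop (𝓝 (c (d + 2))) := by
  obtain ⟨H₀, hH₀⟩ := g_spec d
  have hlow : ∀ h : ℕ, c (d + 2) * (h : ℝ) ^ (d + 1) ≤ f (d + 2) h := by
    intro h
    have h1 := c_le (d + 2) h
    have e : d + 2 - 1 = d + 1 := by omega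
    rw [e, le_div_iff₀ (by positivity)] at h1
    refine le_trans ?_ h1
    have := (c_pos d).le
    gcongr
    linarith
  have hfg : ∀ h ≥ H₀, (f (d + 2) h : ℝ) ≤ g (d + 2) h := by
    intro h hh
    obtain ⟨a, b⟩ := hH₀ h hh
    exact_mod_cast f_le_of_sigma a (b _ le_rfl)
  have hup : ∀ η > (0 : ℝ), ∀ᶠ h : ℕ in atTop,
      (g (d + 2) h : ℝ) / (h : ℝ) ^ (d + 1) < c (d + 2) + η := by
    intro η hη
    obtain ⟨h₀, hh₀⟩ : ∃ h₀ : ℕ, (f (d + 2) h₀ : ℝ) / ((h₀ : ℝ) + 1) ^ (d + 1) <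
        c (d + 2) + η / 3 := by
      have : c (d + 2) < c (d + 2) + η / 3 := by linarith
      obtain ⟨k, hk⟩ := exists_lt_of_ciInf_lt this
      exact ⟨k, hk⟩
    obtain ⟨G, iG, iF, A, hGc, hA, hAc⟩ := f_mem d h₀
    set r : ℝ := (f (d + 2) h₀ : ℝ) / ((h₀ : ℝ) + 1) ^ (d + 1) with hr
    have hr0 : 0 < r := lt_of_lt_of_le (c_pos d) (c_le (d + 2) h₀)
    set θ : ℝ := 1 + η / 3 / r with hθ
    have hθ1 : 1 < θ := by
      have : 0 < η / 3 / r := by positivity
      linarith
    have hθr : θ * r = r + η / 3 := by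
      rw [hθ]; field_simp
    obtain ⟨H, hH⟩ := g_le h₀ d A hA hAc θ hθ1
    filter_upwards [eventually_ge_atTop H, eventually_ge_atTop (⌈3 / η⌉₊ + 1)] with h h1 h2
    have h3 := (hH h h1).1
    rw [hGc, ← hr, hθr] at h3
    have hh1 : 1 ≤ h := by omega
    have hhR : (1 : ℝ) ≤ h := by exact_mod_cast hh1
    have hpow : (h : ℝ) ≤ (h : ℝ) ^ (d + 1) := le_self_pow₀ hhR (by omega)
    have h4 : 3 / η < h := by
      have a1 : 3 / η ≤ ⌈3 / η⌉₊ := Nat.le_ceil _
      have a2 : ((⌈3 / η⌉₊ + 1 : ℕ) : ℝ) ≤ h := by exact_mod_cast h2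
      push_cast at a2
      linarith
    have h5 : 1 < η / 3 * (h : ℝ) ^ (d + 1) := by
      rw [div_lt_iff₀ hη] at h4
      have : η / 3 * h ≤ η / 3 * (h : ℝ) ^ (d + 1) := by gcongr
      linarith
    have hpos : 0 < (h : ℝ) ^ (d + 1) := by positivity
    rw [div_lt_iff₀ hpos]
    nlinarith
  have hlo1 : ∀ᶠ h : ℕ in atTop, c (d + 2) ≤ (f (d + 2) h : ℝ) / (h : ℝ) ^ (d + 1) := by
    filter_upwards [eventually_ge_atTop 1] with h hh
    have hhR : (1 : ℝ) ≤ h := by exact_mod_cast hh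
    rw [le_div_iff₀ (by positivity)]
    exact hlow h
  have hlo2 : ∀ᶠ h : ℕ in atTop, (f (d + 2) h : ℝ) / (h : ℝ) ^ (d + 1) ≤
      (g (d + 2) h : ℝ) / (h : ℝ) ^ (d + 1) := by
    filter_upwards [eventually_ge_atTop H₀] with h hh
    have := hfg h hh
    gcongr
  constructor
  · rw [tendsto_order]
    constructor
    · intro a ha
      filter_upwards [hlo1, hlo2] with h h1 h2
      linarith
    · intro a ha
      have := hup (a - c (d + 2)) (by linarith)
      filter_upwards [this] with h h1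
      linarith
  · rw [tendsto_order]
    constructor
    · intro a ha
      filter_upwards [hlo1] with h h1
      linarith
    · intro a ha
      have := hup (a - c (d + 2)) (by linarith)
      filter_upwards [this, hlo2] with h h1 h2
      linarith

theorem ratio (d : ℕ) :
    Tendsto (fun h : ℕ => (g (d + 2) h : ℝ) / (f (d + 2) h : ℝ)) atTop (𝓝 1) := by
  obtain ⟨h1, h2⟩ := main d
  have h3 := h1.div h2 (c_pos d).ne'
  rw [div_self (c_pos d).ne'] at h3
  refine h3.congr' ?_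
  filter_upwards [eventually_ge_atTop 1] with h hh
  have : (h : ℝ) ^ (d + 1) ≠ 0 := by
    have : (1 : ℝ) ≤ h := by exact_mod_cast hh
    positivity
  rw [Pi.div_apply]
  field_simp

end Pool.Agent.H560Bh
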