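import Pool.Agent.H560Bh.Basic

namespace Pool.Agent.H560Bh

open Finset

theorem sum_abs (a b : ℕ) :
    2 * ∑ y ∈ Icc (-(a : ℤ)) b, |y| = (a : ℤ) * (a + 1) + b * (b + 1) := by
  induction b with
  | zero =>
    induction a with
    | zero => simp
    | succ a ih =>
      have : Icc (-((a + 1 : ℕ) : ℤ)) ((0 : ℕ) : ℤ) =
          insert (-((a + 1 : ℕ) : ℤ)) (Icc (-(a : ℤ)) ((0 : ℕ) : ℤ)) := by
        ext y
        simp only [mem_Icc, mem_insert]
        omega
      rw [this, sum_insert (by simp only [mem_Icc]; omega), mul_add, ih, abs_neg, Nat.abs_cast]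
      push_cast
      ring
  | succ b ih =>
    have : Icc (-(a : ℤ)) ((b + 1 : ℕ) : ℤ) =
        insert ((b + 1 : ℕ) : ℤ) (Icc (-(a : ℤ)) (b : ℤ)) := by
      ext y
      simp only [mem_Icc, mem_insert]
      omega
    rw [this, sum_insert (by simp only [mem_Icc]; omega), mul_add, ih, Nat.abs_cast]
    push_cast
    ring

theorem lower (n h : ℕ) (hn : 0 < n) (A : Finset (ZMod n)) (hA : IsBh h A) (h3 : 3 ≤ A.card) :
    3 * (h + 1) ^ 2 ≤ 4 * n := by
  classical
  have : NeZero n := ⟨by omega⟩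
  obtain ⟨a0, m0, a1, m1, a2, m2, n01, n02, n12⟩ := Finset.two_lt_card.mp (show 2 < A.card by omega)
  set k := h / 2 with hk
  set k' := h - k with hk'
  have hkk : k + k' = h := by omega
  set S : Finset (Σ _ : ℤ, ℤ) := (Icc (-(k' : ℤ)) k).sigma
    (fun y => Icc (max (-(k' : ℤ)) (-(k' : ℤ) - y)) (min (k : ℤ) (k - y))) with hS
  have hmem : ∀ p ∈ S, -(k' : ℤ) ≤ p.1 ∧ p.1 ≤ k ∧ -(k' : ℤ) ≤ p.2 ∧ p.2 ≤ k ∧
      -(k' : ℤ) ≤ p.1 + p.2 ∧ p.1 + p.2 ≤ k := by
    intro p hp
    rw [hS, mem_sigma, mem_Icc, mem_Icc] at hp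
    omega
  have hinj : Set.InjOn (fun p : (Σ _ : ℤ, ℤ) =>
      (p.1 : ZMod n) * (a1 - a0) + (p.2 : ZMod n) * (a2 - a0)) (S : Set (Σ _ : ℤ, ℤ)) := by
    rintro ⟨x, y⟩ hp ⟨x', y'⟩ hp' heq
    obtain ⟨p1, p2, p3, p4, p5, p6⟩ := hmem _ hp
    obtain ⟨q1, q2, q3, q4, q5, q6⟩ := hmem _ hp'
    simp only at p1 p2 p3 p4 p5 p6 q1 q2 q3 q4 q5 q6 heq
    set u1 := (x - x').toNat with hu1
    set v1 := (x' - x).toNat with hv1
    set u2 := (y - y').toNat with hu2
    set v2 := (y' - y).toNat with hv2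
    have hu : u1 + u2 ≤ h := by omega
    have hv : v1 + v2 ≤ h := by omega
    have hs := hA
      (Multiset.replicate u1 a1 + Multiset.replicate u2 a2 + Multiset.replicate (h - (u1 + u2)) a0)
      (Multiset.replicate v1 a1 + Multiset.replicate v2 a2 + Multiset.replicate (h - (v1 + v2)) a0)
      (by
        intro z hz
        simp only [Multiset.mem_add] at hz
        rcases hz with (hz | hz) | hz
        · rw [Multiset.eq_of_mem_replicate hz]; exact m1
        · rw [Multiset.eq_of_mem_replicate hz]; exact m2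
        · rw [Multiset.eq_of_mem_replicate hz]; exact m0)
      (by
        intro z hz
        simp only [Multiset.mem_add] at hz
        rcases hz with (hz | hz) | hz
        · rw [Multiset.eq_of_mem_replicate hz]; exact m1
        · rw [Multiset.eq_of_mem_replicate hz]; exact m2
        · rw [Multiset.eq_of_mem_replicate hz]; exact m0)
      (by simp only [Multiset.card_add, Multiset.card_replicate]; omega)
      (by simp only [Multiset.card_add, Multiset.card_replicate]; omega)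
      (by
        simp only [Multiset.sum_add, Multiset.sum_replicate, nsmul_eq_mul]
        rw [Nat.cast_sub hu, Nat.cast_sub hv]
        have e1 : (x : ZMod n) - x' = (u1 : ZMod n) - v1 := by
          have : x - x' = (u1 : ℤ) - v1 := by omega
          exact_mod_cast congrArg (Int.cast : ℤ → ZMod n) this
        have e2 : (y : ZMod n) - y' = (u2 : ZMod n) - v2 := by
          have : y - y' = (u2 : ℤ) - v2 := by omega
          exact_mod_cast congrArg (Int.cast : ℤ → ZMod n) this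
        push_cast
        linear_combination heq - (a1 - a0) * e1 - (a2 - a0) * e2)
    have c1 := congrArg (Multiset.count a1) hs
    have c2 := congrArg (Multiset.count a2) hs
    simp only [Multiset.count_add, Multiset.count_replicate, if_true, if_neg n01, if_neg n02,
      if_neg n12, if_neg n12.symm] at c1 c2
    have hx : x = x' := by omega
    have hy : y = y' := by omega
    rw [hx, hy]
  have hcard : S.card ≤ n := by
    have := Finset.card_le_card_of_injOn (t := (Finset.univ : Finset (ZMod n))) _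
      (fun _ _ => by simp) hinj
    rwa [Finset.card_univ, ZMod.card] at this
  have hcount : ((h : ℤ) + 1) * (h + 1) - ∑ y ∈ Icc (-(k' : ℤ)) k, |y| ≤ S.card := by
    rw [hS, card_sigma]
    push_cast
    have e1 : ((h : ℤ) + 1) * (h + 1) = ∑ _y ∈ Icc (-(k' : ℤ)) k, ((h : ℤ) + 1) := by
      rw [sum_const, nsmul_eq_mul, Int.card_Icc]
      congr 1
      omega
    rw [e1, ← sum_sub_distrib]
    apply sum_le_sum
    intro y hy
    rw [mem_Icc] at hy
    rw [Int.card_Icc]
    rcases le_or_gt 0 y with h0 | h0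
    · rw [abs_of_nonneg h0]
      omega
    · rw [abs_of_neg h0]
      omega
  have habs := sum_abs k' k
  have h5 : (4 : ℤ) * n ≥ 4 * ((h : ℤ) + 1) * (h + 1) - 2 * ((k' : ℤ) * (k' + 1) + k * (k + 1)) := by
    rw [← habs]
    have : (S.card : ℤ) ≤ n := by exact_mod_cast hcard
    nlinarith
  have h6 : (2 : ℤ) * ((k' : ℤ) * (k' + 1) + k * (k + 1)) ≤ ((h : ℤ) + 1) * (h + 1) := by
    have hkZ : (k : ℤ) + k' = h := by exact_mod_cast hkk
    have hd : (k' : ℤ) - k = 0 ∨ (k' : ℤ) - k = 1 := by omega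
    rcases hd with hd | hd
    · have : (k' : ℤ) = k := by omega
      rw [← hkZ, this]
      nlinarith
    · have : (k' : ℤ) = k + 1 := by omega
      rw [← hkZ, this]
      nlinarith
  have h7 : (3 : ℤ) * (h + 1) ^ 2 ≤ 4 * n := by nlinarith
  exact_mod_cast h7

theorem g_mem (h : ℕ) (hh : 1 ≤ h) (u s : ℕ) (hu : h ≤ 2 * u) (hs : 12 * u ≤ s ^ 2) :
    g 3 h ≤ h + 1 + (3 * u + s) * u :=
  Nat.sInf_le ⟨by omega, fun n hn => chain h n u s hh hu hs hn⟩

theorem g_lower (h : ℕ) (hh : 1 ≤ h) : 3 * (h + 1) ^ 2 ≤ 4 * g 3 h := by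
  have hne : {N | 0 < N ∧ ∀ n ≥ N, 3 ≤ sigma n h}.Nonempty :=
    ⟨h + 1 + (3 * h + 12 * h) * h, by omega, fun n hn => chain h n h (12 * h) hh (by omega)
      (by nlinarith) hn⟩
  have hmem : 0 < g 3 h ∧ ∀ n ≥ g 3 h, 3 ≤ sigma n h := Nat.sInf_mem hne
  obtain ⟨A, hA, hc⟩ := exists_of_sigma hmem.1 (hmem.2 _ le_rfl)
  exact lower _ h hmem.1 A hA hc

theorem g_upper (h : ℕ) (hh : 1 ≤ h) : (g 3 h : ℝ) ≤ 3 / 4 * (h : ℝ) ^ 2 + 9 * h * Real.sqrt h := by
  set u := (h + 1) / 2 with hu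
  set s := Nat.sqrt (12 * u) + 1 with hs
  have hs2 : 12 * u ≤ s ^ 2 := by
    have := Nat.lt_succ_sqrt (12 * u)
    rw [hs, sq]
    exact this.le
  have h1 := g_mem h hh u s (by omega) hs2
  have h1R : (g 3 h : ℝ) ≤ h + 1 + (3 * u + s) * u := by exact_mod_cast h1
  have hhR : (1 : ℝ) ≤ h := by exact_mod_cast hh
  have huR : (u : ℝ) ≤ (h + 1) / 2 := by
    rw [le_div_iff₀ (by norm_num)]
    have : u * 2 ≤ h + 1 := by omega
    exact_mod_cast this
  have hq1 : 1 ≤ Real.sqrt h := by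
    rw [show (1 : ℝ) = Real.sqrt 1 by simp]
    exact Real.sqrt_le_sqrt hhR
  have hqq : Real.sqrt h * Real.sqrt h = h := Real.mul_self_sqrt (by linarith)
  have hsR : (s : ℝ) ≤ 3.5 * Real.sqrt h + 1 := by
    rw [hs]
    push_cast
    have a1 : ((Nat.sqrt (12 * u) : ℕ) : ℝ) ≤ 3.5 * Real.sqrt h := by
      have b1 : (((Nat.sqrt (12 * u) : ℕ) : ℝ)) ^ 2 ≤ 12 * u := by
        have := Nat.sqrt_le' (12 * u)
        exact_mod_cast this
      have b2 : (12 : ℝ) * u ≤ (3.5 * Real.sqrt h) ^ 2 := by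
        have : (3.5 * Real.sqrt h) ^ 2 = 12.25 * h := by
          rw [mul_pow, sq (Real.sqrt (h : ℝ)), hqq]; norm_num
        rw [this]
        linarith
      exact (pow_le_pow_iff_left₀ (by positivity) (by positivity) (by norm_num)).mp (b1.trans b2)
    linarith
  have hu0 : (0 : ℝ) ≤ u := Nat.cast_nonneg _
  have h2 : ((3 : ℝ) * u + s) * u ≤ (3 * ((h + 1) / 2) + (3.5 * Real.sqrt h + 1)) * ((h + 1) / 2) := by
    gcongr
  have h3 : (h : ℝ) ≤ h * Real.sqrt h := by nlinarith
  nlinarith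

end Pool.Agent.H560Bh
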