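import Pool.Agent.H560Bh.Radix

namespace Pool.Agent.H560Bh

open Finset Filter Topology

/-- the properties of a norm on `ℝ ^ d` which are used. -/
structure NormLike {d : ℕ} (N : (Fin d → ℝ) → ℝ) : Prop where
  add : ∀ a b : Fin d → ℝ, N (fun i => a i + b i) ≤ N a + N b
  smul : ∀ c : ℝ, 0 ≤ c → ∀ a : Fin d → ℝ, N (fun i => c * a i) = c * N a
  le_sum : ∀ a : Fin d → ℝ, N a ≤ ∑ i, |a i|
  abs_le : ∀ (a : Fin d → ℝ) (i : Fin d), |a i| ≤ N a

theorem NormLike.nonneg {d : ℕ} {N : (Fin (d + 1) → ℝ) → ℝ} (hN : NormLike N)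
    (a : Fin (d + 1) → ℝ) : 0 ≤ N a :=
  (abs_nonneg _).trans (hN.abs_le a 0)

/-- the perturbation step: a diagonal form of a sublattice of `ℤ ^ (d + 1)` gives for every large
`n` a linear form whose kernel modulo `n` is a slightly perturbed scaled copy of that sublattice. -/
theorem perturbN (d : ℕ) {N : (Fin (d + 1) → ℝ) → ℝ} (hN : NormLike N) (u : Module.Basis (Fin (d + 1)) ℤ (Fin (d + 1) → ℤ)) (D : Fin (d + 1) → ℕ)
    (hD : ∀ i, 0 < D i) (H : ℝ)
    (hz : ∀ z : Fin (d + 1) → ℤ, z ≠ 0 →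
      H ≤ N (fun j => ((∑ i, ((D i : ℤ) * z i) * u i j : ℤ) : ℝ)))
    (ε : ℝ) (hε : 0 < ε) (hε1 : ε ≤ 1) :
    ∃ K₀ ≥ (1 : ℝ), ∀ K ≥ K₀, ∀ n : ℤ, (n : ℝ) = (∏ i, (D i : ℝ)) * K ^ (d + 1) →
      ∃ ψ : (Fin (d + 1) → ℤ) →ₗ[ℤ] ℤ, ∀ Y : Fin (d + 1) → ℤ, Y ≠ 0 → n ∣ ψ Y →
        (1 - ε) * K * H ≤ N (fun j => (Y j : ℝ)) := by
  set Cu : ℝ := ∑ j, ∑ i, |(u i j : ℝ)| with hCu
  set Cr : ℝ := ∑ i, ∑ j, |((u.repr (Pi.single j 1) i : ℤ) : ℝ)| with hCr
  have hCu0 : 0 ≤ Cu := sum_nonneg fun _ _ => sum_nonneg fun _ _ => abs_nonneg _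
  have hCr0 : 0 ≤ Cr := sum_nonneg fun _ _ => sum_nonneg fun _ _ => abs_nonneg _
  obtain ⟨δ, hδ0, hδ⟩ : ∃ δ > (0 : ℝ), δ * Cu * Cr ≤ ε := by
    refine ⟨ε / (Cu * Cr + 1), by positivity, ?_⟩
    rw [mul_assoc, div_mul_eq_mul_div, div_le_iff₀ (by positivity)]
    nlinarith
  obtain ⟨δ₁, hδ₁, K₀, hK₀, hdig⟩ := digits d (fun i => (D i : ℝ))
    (fun i => by exact_mod_cast hD i) δ hδ0
  refine ⟨K₀, hK₀, fun K hK n hn => ?_⟩
  have hK1 : 1 ≤ K := hK₀.trans hK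
  have hK0 : 0 < K := by linarith
  obtain ⟨w, -, hw⟩ := hdig K hK n (by
    rw [hn, sub_self, abs_zero]
    positivity)
  refine ⟨∑ i, w i • u.coord i, fun Y hY hnY => ?_⟩
  obtain ⟨t, ht⟩ := hnY
  obtain ⟨z, -, hzX⟩ := hw (fun i => u.repr Y i) t (by
    rw [mul_comm t n, ← ht]
    simp [LinearMap.sum_apply])
  have hz0 : z ≠ 0 := by
    rintro rfl
    apply hY
    have : u.repr Y = 0 := by
      ext i
      have := hzX i
      simp only [Pi.zero_apply, Int.cast_zero, mul_zero, sub_zero, abs_zero, sum_const_zero] at this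
      have h0 : ((u.repr Y i : ℤ) : ℝ) = 0 := abs_nonpos_iff.mp this
      exact_mod_cast h0
    exact u.repr.map_eq_zero_iff.mp this
  set y : Fin (d + 1) → ℤ := ∑ i, ((D i : ℤ) * z i) • u i with hy
  have hyj : ∀ j, y j = ∑ i, ((D i : ℤ) * z i) * u i j := by
    intro j
    rw [hy, Finset.sum_apply]
    rfl
  have hHy : H ≤ N (fun j => (y j : ℝ)) := by
    have := hz z hz0
    simp only [← hyj] at this
    exact this
  -- size of z
  have hrepr : ∀ i, u.repr y i = (D i : ℤ) * z i := by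
    intro i
    rw [hy, u.repr_sum_self]
  have hyexp : ∀ i, u.repr y i = ∑ j, y j * u.repr (Pi.single j 1) i := by
    intro i
    conv_lhs => rw [show y = ∑ j, y j • (Pi.single j 1 : Fin (d + 1) → ℤ) from by
      ext k
      simp [Finset.sum_apply, Pi.single_apply]]
    rw [map_sum, Finsupp.finsetSum_apply]
    apply sum_congr rfl
    intro j _
    rw [map_smul, Finsupp.smul_apply, smul_eq_mul]
  have hzsum : ∑ i, |(z i : ℝ)| ≤ N (fun j => (y j : ℝ)) * Cr := by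
    rw [hCr, mul_sum]
    apply sum_le_sum
    intro i _
    have h1 : |(z i : ℝ)| ≤ |((u.repr y i : ℤ) : ℝ)| := by
      rw [hrepr]
      push_cast
      rw [abs_mul, Nat.abs_cast]
      have : (1 : ℝ) ≤ D i := by exact_mod_cast hD i
      nlinarith [abs_nonneg (z i : ℝ)]
    refine h1.trans ?_
    rw [hyexp, mul_sum]
    push_cast
    refine (abs_sum_le_sum_abs _ _).trans (sum_le_sum fun j _ => ?_)
    rw [abs_mul]
    gcongr
    exact hN.abs_le (fun j => (y j : ℝ)) j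
  -- the error
  have hYj : ∀ j, Y j = ∑ i, u.repr Y i * u i j := by
    intro j
    conv_lhs => rw [← u.sum_repr Y]
    rw [Finset.sum_apply]
    rfl
  have herr : ∑ j, |K * (y j : ℝ) - Y j| ≤ δ * K * (∑ i, |(z i : ℝ)|) * Cu := by
    rw [hCu, mul_sum]
    apply sum_le_sum
    intro j _
    have e : K * (y j : ℝ) - Y j = ∑ i, (-(((u.repr Y i : ℤ) : ℝ) - D i * K * z i)) * (u i j : ℝ) := by
      rw [hyj, hYj]
      push_cast
      rw [mul_sum, ← sum_sub_distrib]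
      apply sum_congr rfl
      intro i _
      ring
    rw [e, mul_sum]
    refine (abs_sum_le_sum_abs _ _).trans (sum_le_sum fun i _ => ?_)
    rw [abs_mul, abs_neg]
    gcongr
    exact hzX i
  have hfin : K * N (fun j => (y j : ℝ)) ≤
      N (fun j => (Y j : ℝ)) + δ * K * (N (fun j => (y j : ℝ)) * Cr) * Cu := by
    rw [← hN.smul K hK0.le]
    have e : (fun j => K * (y j : ℝ)) = fun j => (Y j : ℝ) + (K * (y j : ℝ) - Y j) := by
      ext j; ring
    rw [e]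
    refine (hN.add _ _).trans ?_
    refine add_le_add le_rfl ((hN.le_sum _).trans (herr.trans ?_))
    gcongr
  have h0 := hN.nonneg (fun j => (y j : ℝ))
  have h1 : δ * K * (N (fun j => (y j : ℝ)) * Cr) * Cu ≤ ε * (K * N (fun j => (y j : ℝ))) := by
    calc δ * K * (N (fun j => (y j : ℝ)) * Cr) * Cu
        = (δ * Cu * Cr) * (K * N (fun j => (y j : ℝ))) := by ring
      _ ≤ ε * (K * N (fun j => (y j : ℝ))) := by gcongr
  calc (1 - ε) * K * H ≤ (1 - ε) * K * N (fun j => (y j : ℝ)) := by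
        have : 0 ≤ (1 - ε) * K := mul_nonneg (by linarith) hK0.le
        gcongr
    _ ≤ _ := by linarith

end Pool.Agent.H560Bh
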