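import Pool.Agent.H560Bh.Key

namespace Pool.Agent.H560Bh

open Finset

theorem digits (d : ℕ) : ∀ (D : Fin (d + 1) → ℝ), (∀ i, 0 < D i) → ∀ δ > (0 : ℝ),
    ∃ δ₁ > (0 : ℝ), ∃ K₀ ≥ (1 : ℝ), ∀ K ≥ K₀, ∀ n : ℤ,
      |(n : ℝ) - (∏ i, D i) * K ^ (d + 1)| ≤ δ₁ * K ^ (d + 1) →
      ∃ w : Fin (d + 1) → ℤ, w 0 = 1 ∧ ∀ (X : Fin (d + 1) → ℤ) (t : ℤ),
        ∑ i, w i * X i = t * n → ∃ z : Fin (d + 1) → ℤ, z (Fin.last d) = t ∧
          ∀ i, |(X i : ℝ) - D i * K * z i| ≤ δ * K * ∑ j, |(z j : ℝ)| := by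
  induction d with
  | zero =>
    intro D hD δ hδ
    refine ⟨δ, hδ, 1, le_rfl, fun K hK n hn => ⟨fun _ => 1, rfl, fun X t hX => ?_⟩⟩
    refine ⟨fun _ => t, rfl, ?_⟩
    intro i
    have hi : i = 0 := by
      have := i.isLt
      ext
      simp only [Fin.val_zero]
      omega
    subst hi
    simp only [zero_add, Fin.prod_univ_succ, pow_one, Fin.sum_univ_succ, univ_eq_empty, prod_empty,
      sum_empty, mul_one, add_zero, one_mul, Nat.reduceAdd, Fin.isValue] at hn hX ⊢
    rw [hX]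
    push_cast
    have : (t : ℝ) * n - D 0 * K * t = t * (n - D 0 * K) := by ring
    rw [this, abs_mul]
    calc |(t : ℝ)| * |(n : ℝ) - D 0 * K| ≤ |(t : ℝ)| * (δ * K) := by gcongr
      _ = δ * K * |(t : ℝ)| := by ring
  | succ d ih =>
    intro D hD δ hδ
    set D' : Fin (d + 1) → ℝ := fun i => D i.succ with hD'
    set P' : ℝ := ∏ i, D' i with hP'
    have hP'0 : 0 < P' := prod_pos fun i _ => hD _
    set P : ℝ := D 0 * P' with hP
    have hD0 : 0 < D 0 := hD 0
    have hP0 : 0 < P := by positivity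
    have hPprod : ∏ i, D i = P := by rw [Fin.prod_univ_succ]
    obtain ⟨δ₁', hδ₁', K₀', hK₀', hih⟩ := ih D' (fun i => hD _) (δ / 2) (by positivity)
    obtain ⟨δq, hδq0, hδq1, hδq2, hδq3⟩ : ∃ δq > (0 : ℝ), δq ≤ 1 ∧ δq * D 0 ≤ δ ∧
        δq * (D 0 + P) ≤ δ₁' * D 0 / 2 := by
      refine ⟨min 1 (min (δ / D 0) (δ₁' * D 0 / 2 / (D 0 + P))), by positivity, min_le_left _ _,
        ?_, ?_⟩
      · have h1 : min 1 (min (δ / D 0) (δ₁' * D 0 / 2 / (D 0 + P))) ≤ δ / D 0 :=
          (min_le_right _ _).trans (min_le_left _ _)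
        calc _ ≤ δ / D 0 * D 0 := by gcongr
          _ = δ := by field_simp
      · have h1 : min 1 (min (δ / D 0) (δ₁' * D 0 / 2 / (D 0 + P))) ≤
            δ₁' * D 0 / 2 / (D 0 + P) := (min_le_right _ _).trans (min_le_right _ _)
        calc _ ≤ δ₁' * D 0 / 2 / (D 0 + P) * (D 0 + P) := by gcongr
          _ = δ₁' * D 0 / 2 := by field_simp
    obtain ⟨x₀, hx₀, hkey⟩ := key_digit (d + 1) (by omega) (P / 2 / D 0 ^ (d + 2))
      (2 * P / D 0 ^ (d + 2)) δq (by positivity) (by gcongr; linarith) hδq0 hδq1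
    refine ⟨min (P / 2) (δ₁' * D 0 / 2), by positivity,
      max (max 1 K₀') (max (x₀ / D 0) (2 / δ)), (le_max_left _ _).trans (le_max_left _ _), ?_⟩
    intro K hK n hn
    have hK1 : 1 ≤ K := le_trans ((le_max_left _ _).trans (le_max_left _ _)) hK
    have hKK : K₀' ≤ K := le_trans ((le_max_right _ _).trans (le_max_left _ _)) hK
    have hKx : x₀ ≤ D 0 * K := by
      have : x₀ / D 0 ≤ K := le_trans ((le_max_left _ _).trans (le_max_right _ _)) hK
      rwa [div_le_iff₀' hD0] at this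
    have hKδ : 2 ≤ δ * K := by
      have : 2 / δ ≤ K := le_trans ((le_max_right _ _).trans (le_max_right _ _)) hK
      rwa [div_le_iff₀' hδ] at this
    have hK0 : 0 < K := by linarith
    rw [hPprod] at hn
    have hn1 : |(n : ℝ) - P * K ^ (d + 1 + 1)| ≤ P / 2 * K ^ (d + 1 + 1) :=
      hn.trans (by gcongr; exact min_le_left _ _)
    have hn2 : |(n : ℝ) - P * K ^ (d + 1 + 1)| ≤ δ₁' * D 0 / 2 * K ^ (d + 1 + 1) :=
      hn.trans (by gcongr; exact min_le_right _ _)
    have hPK : 0 < P * K ^ (d + 1 + 1) := by positivity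
    obtain ⟨Q, n', s, hQ1, hQ2, hs, hnQ⟩ := hkey (D 0 * K) hKx n (by
        rw [mul_pow, div_mul_eq_mul_div, ← mul_assoc, mul_right_comm, mul_div_assoc]
        have : (D 0 : ℝ) ^ (d + 1 + 1) / D 0 ^ (d + 2) = 1 := div_self (by positivity)
        rw [this, mul_one]
        have := (abs_le.mp hn1).1
        linarith) (by
        rw [mul_pow, div_mul_eq_mul_div, ← mul_assoc, mul_right_comm, mul_div_assoc]
        have : (D 0 : ℝ) ^ (d + 1 + 1) / D 0 ^ (d + 2) = 1 := div_self (by positivity)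
        rw [this, mul_one]
        have := (abs_le.mp hn1).2
        linarith)
    have hQ3 : |(Q : ℝ) - D 0 * K| ≤ δq * (D 0 * K) := by
      rw [abs_le]
      constructor
      · have : 0 ≤ δq * (D 0 * K) := by positivity
        linarith
      · linarith
    have hn' : |(n' : ℝ) - (∏ i, D' i) * K ^ (d + 1)| ≤ δ₁' * K ^ (d + 1) := by
      have e1 : (Q : ℝ) * ((n' : ℝ) - P' * K ^ (d + 1)) =
          ((n : ℝ) - P * K ^ (d + 1 + 1)) - s - ((Q : ℝ) - D 0 * K) * (P' * K ^ (d + 1)) := by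
        rw [hnQ, hP]
        push_cast
        ring
      have hQpos : (0 : ℝ) < Q := lt_of_lt_of_le (by positivity) hQ1
      have hKp : K ≤ K ^ (d + 1 + 1) := le_self_pow₀ hK1 (by omega)
      have e2 : D 0 * K * |(n' : ℝ) - P' * K ^ (d + 1)| ≤ D 0 * K * (δ₁' * K ^ (d + 1)) := by
        calc D 0 * K * |(n' : ℝ) - P' * K ^ (d + 1)|
            ≤ Q * |(n' : ℝ) - P' * K ^ (d + 1)| := by gcongr
          _ = |((n : ℝ) - P * K ^ (d + 1 + 1)) - s -
                ((Q : ℝ) - D 0 * K) * (P' * K ^ (d + 1))| := by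
              rw [← e1, abs_mul, abs_of_pos hQpos]
          _ ≤ |(n : ℝ) - P * K ^ (d + 1 + 1)| + |(s : ℝ)| +
                |((Q : ℝ) - D 0 * K) * (P' * K ^ (d + 1))| := by
              refine (abs_sub _ _).trans ?_
              gcongr
              exact abs_sub _ _
          _ ≤ δ₁' * D 0 / 2 * K ^ (d + 1 + 1) + δq * (D 0 * K ^ (d + 1 + 1)) +
                δq * (D 0 * K) * (P' * K ^ (d + 1)) := by
              rw [abs_mul, abs_of_pos (show 0 < P' * K ^ (d + 1) by positivity)]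
              have : |(s : ℝ)| ≤ δq * (D 0 * K ^ (d + 1 + 1)) := hs.trans (by gcongr)
              gcongr
          _ = (δ₁' * D 0 / 2 + δq * (D 0 + P)) * K ^ (d + 1 + 1) := by
              rw [hP]; ring
          _ ≤ (δ₁' * D 0 / 2 + δ₁' * D 0 / 2) * K ^ (d + 1 + 1) := by gcongr
          _ = D 0 * K * (δ₁' * K ^ (d + 1)) := by ring
      exact le_of_mul_le_mul_left e2 (by positivity)
    obtain ⟨w', hw'0, hw'⟩ := hih K hKK n' hn'
    refine ⟨Fin.cons 1 (fun i => Q * w' i), rfl, ?_⟩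
    intro X t hX
    rw [Fin.sum_univ_succ] at hX
    simp only [Fin.cons_zero, Fin.cons_succ, one_mul] at hX
    set S : ℤ := ∑ i, w' i * X i.succ with hS
    have hXS : X 0 + Q * S = t * n := by
      rw [← hX, hS, mul_sum]
      congr 1
      apply sum_congr rfl
      intro i _
      ring
    set z0 : ℤ := t * n' - S with hz0
    obtain ⟨z', hz'l, hz'⟩ := hw' (fun i => X i.succ + if i = 0 then z0 else 0) t (by
      simp only [mul_add, sum_add_distrib, mul_ite, mul_zero, sum_ite_eq', mem_univ, if_true,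
        hw'0, one_mul]
      rw [← hS, hz0]
      ring)
    refine ⟨Fin.cons z0 z', ?_, ?_⟩
    · rw [← hz'l]
      rfl
    · intro i
      have hsum : ∑ j, |(((Fin.cons z0 z' : Fin (d + 1 + 1) → ℤ) j : ℤ) : ℝ)| =
          |(z0 : ℝ)| + ∑ j, |(z' j : ℝ)| := by
        rw [Fin.sum_univ_succ]
        simp only [Fin.cons_zero, Fin.cons_succ]
      rw [hsum]
      have hsn : 0 ≤ ∑ j, |(z' j : ℝ)| := sum_nonneg fun _ _ => abs_nonneg _
      refine Fin.cases ?_ (fun j => ?_) i
      · simp only [Fin.cons_zero]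
        have hX0 : (X 0 : ℝ) - D 0 * K * z0 = ((Q : ℝ) - D 0 * K) * z0 + t * s := by
          have h1 : (X 0 : ℝ) + Q * S = t * (Q * n' + s) := by
            rw [hnQ] at hXS
            exact_mod_cast hXS
          rw [hz0]
          push_cast
          linear_combination h1
        have ht : |(t : ℝ)| ≤ ∑ j, |(z' j : ℝ)| := by
          rw [← hz'l]
          exact single_le_sum (f := fun j => |(z' j : ℝ)|) (fun _ _ => abs_nonneg _)
            (mem_univ (Fin.last d))
        rw [hX0]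
        calc |((Q : ℝ) - D 0 * K) * z0 + t * s|
            ≤ |((Q : ℝ) - D 0 * K) * z0| + |(t : ℝ) * s| := abs_add_le _ _
          _ = |(Q : ℝ) - D 0 * K| * |(z0 : ℝ)| + |(t : ℝ)| * |(s : ℝ)| := by
              rw [abs_mul, abs_mul]
          _ ≤ δq * (D 0 * K) * |(z0 : ℝ)| + (∑ j, |(z' j : ℝ)|) * (δq * (D 0 * K)) := by gcongr
          _ = δq * D 0 * K * (|(z0 : ℝ)| + ∑ j, |(z' j : ℝ)|) := by ring
          _ ≤ δ * K * (|(z0 : ℝ)| + ∑ j, |(z' j : ℝ)|) := by gcongr
      · simp only [Fin.cons_succ]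
        have h1 := hz' j
        set c : ℤ := if j = 0 then z0 else 0 with hc
        have hc1 : |(c : ℝ)| ≤ |(z0 : ℝ)| := by
          rw [hc]
          split_ifs
          · exact le_rfl
          · simp
        have e3 : (X j.succ : ℝ) - D j.succ * K * z' j =
            (((X j.succ + c : ℤ) : ℝ) - D' j * K * z' j) - c := by
          push_cast
          ring
        rw [e3]
        calc |(((X j.succ + c : ℤ) : ℝ) - D' j * K * z' j) - c|
            ≤ |((X j.succ + c : ℤ) : ℝ) - D' j * K * z' j| + |(c : ℝ)| := abs_sub _ _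
          _ ≤ δ / 2 * K * ∑ j, |(z' j : ℝ)| + |(z0 : ℝ)| := by gcongr
          _ ≤ δ * K * (|(z0 : ℝ)| + ∑ j, |(z' j : ℝ)|) := by
              have h2 : 0 ≤ |(z0 : ℝ)| := abs_nonneg _
              have h3 : 1 * |(z0 : ℝ)| ≤ δ * K * |(z0 : ℝ)| := by
                gcongr
                linarith
              have h4 : 0 ≤ δ / 2 * K * ∑ j, |(z' j : ℝ)| := by positivity
              nlinarith

end Pool.Agent.H560Bh
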