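import Pool.Agent.H560Bh.KeyP

namespace Pool.Agent.H560Bh

open Finset

/-- the mixed radix statement, with an additional property `Pr` of the weights. -/
def DigitsP (d : ℕ) (Pr : (Fin (d + 1) → ℤ) → Prop) : Prop :=
  ∀ (D : Fin (d + 1) → ℝ), (∀ i, 0 < D i) → ∀ δ > (0 : ℝ),
    ∃ δ₁ > (0 : ℝ), ∃ K₀ ≥ (1 : ℝ), ∀ K ≥ K₀, ∀ n : ℤ,
      |(n : ℝ) - (∏ i, D i) * K ^ (d + 1)| ≤ δ₁ * K ^ (d + 1) →
      ∃ w : Fin (d + 1) → ℤ, w 0 = 1 ∧ Pr w ∧ ∀ (X : Fin (d + 1) → ℤ) (t : ℤ),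
        ∑ i, w i * X i = t * n → ∃ z : Fin (d + 1) → ℤ, z (Fin.last d) = t ∧
          ∀ i, |(X i : ℝ) - D i * K * z i| ≤ δ * K * ∑ j, |(z j : ℝ)|

theorem digitsP_mono {d : ℕ} {Pr Pr' : (Fin (d + 1) → ℤ) → Prop} (h : DigitsP d Pr)
    (hPr : ∀ w, w 0 = 1 → Pr w → Pr' w) : DigitsP d Pr' := by
  intro D hD δ hδ
  obtain ⟨δ₁, hδ₁, K₀, hK₀, h1⟩ := h D hD δ hδ
  refine ⟨δ₁, hδ₁, K₀, hK₀, fun K hK n hn => ?_⟩
  obtain ⟨w, h2, h3, h4⟩ := h1 K hK n hn
  exact ⟨w, h2, hPr w h2 h3, h4⟩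

theorem digitsP_zero : DigitsP 0 (fun _ => True) := by
  intro D hD δ hδ
  refine ⟨δ, hδ, 1, le_rfl, fun K hK n hn => ⟨fun _ => 1, rfl, trivial, fun X t hX => ?_⟩⟩
  refine ⟨fun _ => t, rfl, ?_⟩
  intro i
  have hi : i = 0 := by
    have := i.isLt
    ext
    simp only [Fin.val_zero]
    omega
  subst hi
  simp only [zero_add, Fin.prod_univ_succ, pow_one, Fin.sum_univ_succ, univ_eq_empty, prod_empty,
    sum_empty, mul_one, add_zero, one_mul, Nat.reduceAdd, Fin.isValue] at hn hX ⊢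
  rw [hX]
  push_cast
  have : (t : ℝ) * n - D 0 * K * t = t * (n - D 0 * K) := by ring
  rw [this, abs_mul]
  calc |(t : ℝ)| * |(n : ℝ) - D 0 * K| ≤ |(t : ℝ)| * (δ * K) := by gcongr
    _ = δ * K * |(t : ℝ)| := by ring

theorem digitsP_step (d : ℕ) (Pr : (Fin (d + 1) → ℤ) → Prop) (par : ℤ) (ih : DigitsP d Pr) :
    DigitsP (d + 1) (fun w => ∃ (Q : ℤ) (w' : Fin (d + 1) → ℤ), 2 ∣ Q - par ∧ w' 0 = 1 ∧ Pr w' ∧
      w = Fin.cons 1 (fun i => Q * w' i)) := by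
  intro D hD δ hδ
  set D' : Fin (d + 1) → ℝ := fun i => D i.succ with hD'
  set P' : ℝ := ∏ i, D' i with hP'
  have hP'0 : 0 < P' := prod_pos fun i _ => hD _
  set P : ℝ := D 0 * P' with hP
  have hD0 : 0 < D 0 := hD 0
  have hP0 : 0 < P := by positivity
  have hPprod : ∏ i, D i = P := by rw [Fin.prod_univ_succ]
  obtain ⟨δ₁', hδ₁', K₀', hK₀', hih⟩ := ih D' (fun i => hD _) (δ / 2) (by positivity)
  obtain ⟨δq, hδq0, hδq1, hδq2, hδq3⟩ : ∃ δq > (0 : ℝ), δq ≤ 1 ∧ δq * D 0 ≤ δ ∧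
      δq * (D 0 + P) ≤ δ₁' * D 0 / 2 := by
    refine ⟨min 1 (min (δ / D 0) (δ₁' * D 0 / 2 / (D 0 + P))), by positivity, min_le_left _ _,
      ?_, ?_⟩
    · have h1 : min 1 (min (δ / D 0) (δ₁' * D 0 / 2 / (D 0 + P))) ≤ δ / D 0 :=
        (min_le_right _ _).trans (min_le_left _ _)
      calc _ ≤ δ / D 0 * D 0 := by gcongr
        _ = δ := by field_simp
    · have h1 : min 1 (min (δ / D 0) (δ₁' * D 0 / 2 / (D 0 + P))) ≤
          δ₁' * D 0 / 2 / (D 0 + P) := (min_le_right _ _).trans (min_le_right _ _)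
      calc _ ≤ δ₁' * D 0 / 2 / (D 0 + P) * (D 0 + P) := by gcongr
        _ = δ₁' * D 0 / 2 := by field_simp
  obtain ⟨x₀, hx₀, hkey⟩ := key_digit_par par (d + 1) (by omega) (P / 2 / D 0 ^ (d + 2))
    (2 * P / D 0 ^ (d + 2)) δq (by positivity) (by gcongr; linarith) hδq0 hδq1
  refine ⟨min (P / 2) (δ₁' * D 0 / 2), by positivity,
    max (max 1 K₀') (max (x₀ / D 0) (2 / δ)), (le_max_left _ _).trans (le_max_left _ _), ?_⟩
  intro K hK n hn
  have hK1 : 1 ≤ K := le_trans ((le_max_left _ _).trans (le_max_left _ _)) hK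
  have hKK : K₀' ≤ K := le_trans ((le_max_right _ _).trans (le_max_left _ _)) hK
  have hKx : x₀ ≤ D 0 * K := by
    have : x₀ / D 0 ≤ K := le_trans ((le_max_left _ _).trans (le_max_right _ _)) hK
    rwa [div_le_iff₀' hD0] at this
  have hKδ : 2 ≤ δ * K := by
    have : 2 / δ ≤ K := le_trans ((le_max_right _ _).trans (le_max_right _ _)) hK
    rwa [div_le_iff₀' hδ] at this
  have hK0 : 0 < K := by linarith
  rw [hPprod] at hn
  have hn1 : |(n : ℝ) - P * K ^ (d + 1 + 1)| ≤ P / 2 * K ^ (d + 1 + 1) :=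
    hn.trans (by gcongr; exact min_le_left _ _)
  have hn2 : |(n : ℝ) - P * K ^ (d + 1 + 1)| ≤ δ₁' * D 0 / 2 * K ^ (d + 1 + 1) :=
    hn.trans (by gcongr; exact min_le_right _ _)
  have hPK : 0 < P * K ^ (d + 1 + 1) := by positivity
  obtain ⟨Q, n', s, hQpar, hQ1, hQ2, hs, hnQ⟩ := hkey (D 0 * K) hKx n (by
      rw [mul_pow, div_mul_eq_mul_div, ← mul_assoc, mul_right_comm, mul_div_assoc]
      have : (D 0 : ℝ) ^ (d + 1 + 1) / D 0 ^ (d + 2) = 1 := div_self (by positivity)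
      rw [this, mul_one]
      have := (abs_le.mp hn1).1
      linarith) (by
      rw [mul_pow, div_mul_eq_mul_div, ← mul_assoc, mul_right_comm, mul_div_assoc]
      have : (D 0 : ℝ) ^ (d + 1 + 1) / D 0 ^ (d + 2) = 1 := div_self (by positivity)
      rw [this, mul_one]
      have := (abs_le.mp hn1).2
      linarith)
  have hQ3 : |(Q : ℝ) - D 0 * K| ≤ δq * (D 0 * K) := by
    rw [abs_le]
    constructor
    · have : 0 ≤ δq * (D 0 * K) := by positivity
      linarith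
    · linarith
  have hn' : |(n' : ℝ) - (∏ i, D' i) * K ^ (d + 1)| ≤ δ₁' * K ^ (d + 1) := by
    have e1 : (Q : ℝ) * ((n' : ℝ) - P' * K ^ (d + 1)) =
        ((n : ℝ) - P * K ^ (d + 1 + 1)) - s - ((Q : ℝ) - D 0 * K) * (P' * K ^ (d + 1)) := by
      rw [hnQ, hP]
      push_cast
      ring
    have hQpos : (0 : ℝ) < Q := lt_of_lt_of_le (by positivity) hQ1
    have hKp : K ≤ K ^ (d + 1 + 1) := le_self_pow₀ hK1 (by omega)
    have e2 : D 0 * K * |(n' : ℝ) - P' * K ^ (d + 1)| ≤ D 0 * K * (δ₁' * K ^ (d + 1)) := by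
      calc D 0 * K * |(n' : ℝ) - P' * K ^ (d + 1)|
          ≤ Q * |(n' : ℝ) - P' * K ^ (d + 1)| := by gcongr
        _ = |((n : ℝ) - P * K ^ (d + 1 + 1)) - s -
              ((Q : ℝ) - D 0 * K) * (P' * K ^ (d + 1))| := by
            rw [← e1, abs_mul, abs_of_pos hQpos]
        _ ≤ |(n : ℝ) - P * K ^ (d + 1 + 1)| + |(s : ℝ)| +
              |((Q : ℝ) - D 0 * K) * (P' * K ^ (d + 1))| := by
            refine (abs_sub _ _).trans ?_
            gcongr
            exact abs_sub _ _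
        _ ≤ δ₁' * D 0 / 2 * K ^ (d + 1 + 1) + δq * (D 0 * K ^ (d + 1 + 1)) +
              δq * (D 0 * K) * (P' * K ^ (d + 1)) := by
            rw [abs_mul, abs_of_pos (show 0 < P' * K ^ (d + 1) by positivity)]
            have : |(s : ℝ)| ≤ δq * (D 0 * K ^ (d + 1 + 1)) := hs.trans (by gcongr)
            gcongr
        _ = (δ₁' * D 0 / 2 + δq * (D 0 + P)) * K ^ (d + 1 + 1) := by
            rw [hP]; ring
        _ ≤ (δ₁' * D 0 / 2 + δ₁' * D 0 / 2) * K ^ (d + 1 + 1) := by gcongr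
        _ = D 0 * K * (δ₁' * K ^ (d + 1)) := by ring
    exact le_of_mul_le_mul_left e2 (by positivity)
  obtain ⟨w', hw'0, hPrw, hw'⟩ := hih K hKK n' hn'
  refine ⟨Fin.cons 1 (fun i => Q * w' i), rfl, ⟨Q, w', hQpar, hw'0, hPrw, rfl⟩, ?_⟩
  intro X t hX
  rw [Fin.sum_univ_succ] at hX
  simp only [Fin.cons_zero, Fin.cons_succ, one_mul] at hX
  set S : ℤ := ∑ i, w' i * X i.succ with hS
  have hXS : X 0 + Q * S = t * n := by
    rw [← hX, hS, mul_sum]
    congr 1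
    apply sum_congr rfl
    intro i _
    ring
  set z0 : ℤ := t * n' - S with hz0
  obtain ⟨z', hz'l, hz'⟩ := hw' (fun i => X i.succ + if i = 0 then z0 else 0) t (by
    simp only [mul_add, sum_add_distrib, mul_ite, mul_zero, sum_ite_eq', mem_univ, if_true,
      hw'0, one_mul]
    rw [← hS, hz0]
    ring)
  refine ⟨Fin.cons z0 z', ?_, ?_⟩
  · rw [← hz'l]
    rfl
  · intro i
    have hsum : ∑ j, |(((Fin.cons z0 z' : Fin (d + 1 + 1) → ℤ) j : ℤ) : ℝ)| =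
        |(z0 : ℝ)| + ∑ j, |(z' j : ℝ)| := by
      rw [Fin.sum_univ_succ]
      simp only [Fin.cons_zero, Fin.cons_succ]
    rw [hsum]
    have hsn : 0 ≤ ∑ j, |(z' j : ℝ)| := sum_nonneg fun _ _ => abs_nonneg _
    refine Fin.cases ?_ (fun j => ?_) i
    · simp only [Fin.cons_zero]
      have hX0 : (X 0 : ℝ) - D 0 * K * z0 = ((Q : ℝ) - D 0 * K) * z0 + t * s := by
        have h1 : (X 0 : ℝ) + Q * S = t * (Q * n' + s) := by
          rw [hnQ] at hXS
          exact_mod_cast hXS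
        rw [hz0]
        push_cast
        linear_combination h1
      have ht : |(t : ℝ)| ≤ ∑ j, |(z' j : ℝ)| := by
        rw [← hz'l]
        exact single_le_sum (f := fun j => |(z' j : ℝ)|) (fun _ _ => abs_nonneg _)
          (mem_univ (Fin.last d))
      rw [hX0]
      calc |((Q : ℝ) - D 0 * K) * z0 + t * s|
          ≤ |((Q : ℝ) - D 0 * K) * z0| + |(t : ℝ) * s| := abs_add_le _ _
        _ = |(Q : ℝ) - D 0 * K| * |(z0 : ℝ)| + |(t : ℝ)| * |(s : ℝ)| := by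
            rw [abs_mul, abs_mul]
        _ ≤ δq * (D 0 * K) * |(z0 : ℝ)| + (∑ j, |(z' j : ℝ)|) * (δq * (D 0 * K)) := by gcongr
        _ = δq * D 0 * K * (|(z0 : ℝ)| + ∑ j, |(z' j : ℝ)|) := by ring
        _ ≤ δ * K * (|(z0 : ℝ)| + ∑ j, |(z' j : ℝ)|) := by gcongr
    · simp only [Fin.cons_succ]
      have h1 := hz' j
      set c : ℤ := if j = 0 then z0 else 0 with hc
      have hc1 : |(c : ℝ)| ≤ |(z0 : ℝ)| := by
        rw [hc]
        split_ifs
        · exact le_rfl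
        · simp
      have e3 : (X j.succ : ℝ) - D j.succ * K * z' j =
          (((X j.succ + c : ℤ) : ℝ) - D' j * K * z' j) - c := by
        push_cast
        ring
      rw [e3]
      calc |(((X j.succ + c : ℤ) : ℝ) - D' j * K * z' j) - c|
          ≤ |((X j.succ + c : ℤ) : ℝ) - D' j * K * z' j| + |(c : ℝ)| := abs_sub _ _
        _ ≤ δ / 2 * K * ∑ j, |(z' j : ℝ)| + |(z0 : ℝ)| := by gcongr
        _ ≤ δ * K * (|(z0 : ℝ)| + ∑ j, |(z' j : ℝ)|) := by
            have h2 : 0 ≤ |(z0 : ℝ)| := abs_nonneg _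
            have h3 : 1 * |(z0 : ℝ)| ≤ δ * K * |(z0 : ℝ)| := by
              gcongr
              linarith
            have h4 : 0 ≤ δ / 2 * K * ∑ j, |(z' j : ℝ)| := by positivity
            nlinarith


theorem digitsE (d : ℕ) : DigitsP d (fun w => ∀ i, i ≠ 0 → 2 ∣ w i) := by
  induction d with
  | zero =>
    refine digitsP_mono digitsP_zero fun w _ _ i hi => ?_
    exfalso
    apply hi
    have := i.isLt
    ext
    simp only [Fin.val_zero]
    omega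
  | succ d ih =>
    refine digitsP_mono (digitsP_step d _ 0 ih) ?_
    rintro w _ ⟨Q, w', h1, _, _, rfl⟩ i hi
    obtain ⟨j, rfl⟩ := Fin.exists_succ_eq.mpr hi
    rw [Fin.cons_succ]
    exact Dvd.dvd.mul_right (by simpa using h1) _

theorem digits2 (d : ℕ) (par : ℤ) :
    DigitsP (d + 1) (fun w => 2 ∣ w 1 - par ∧ ∀ i, i ≠ 0 → i ≠ 1 → 2 ∣ w i) := by
  refine digitsP_mono (digitsP_step d _ par (digitsE d)) ?_
  rintro w _ ⟨Q, w', h1, h2, h3, rfl⟩
  constructor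
  · have : (1 : Fin (d + 2)) = Fin.succ 0 := rfl
    rw [this, Fin.cons_succ, h2, mul_one]
    exact h1
  · intro i hi hi1
    obtain ⟨j, rfl⟩ := Fin.exists_succ_eq.mpr hi
    rw [Fin.cons_succ]
    apply Dvd.dvd.mul_left
    apply h3
    rintro rfl
    exact hi1 rfl

end Pool.Agent.H560Bh
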