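import Pool.Agent.H560Bh.Good
import Pool.Agent.H560Bh.Final

namespace Pool.Agent.H560Bh

open Finset Filter Topology

/-- the `ℓ ¹` norm on `ℝ ^ d`. -/
noncomputable def l1 {d : ℕ} (y : Fin d → ℝ) : ℝ := ∑ i, |y i|

theorem l1_normLike {d : ℕ} : NormLike (l1 (d := d)) where
  add := fun a b => by
    unfold l1
    rw [← sum_add_distrib]
    exact sum_le_sum fun i _ => abs_add_le _ _
  smul := fun c hc a => by
    unfold l1
    rw [mul_sum]
    apply sum_congr rfl
    intro i _
    rw [abs_mul, abs_of_nonneg hc]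
  le_sum := fun a => le_rfl
  abs_le := fun a i => single_le_sum (f := fun i => |a i|) (fun _ _ => abs_nonneg _) (mem_univ i)

/-- `A ⊆ ℤ_n` is `t`-independent: no nontrivial integer combination of the elements of `A` whose
coefficients have absolute values adding up to at most `t` is zero (coefficients are given as a
function on `ℤ_n` of which only the values on `A` matter). -/
def IsTIndep {n : ℕ} (t : ℕ) (A : Finset (ZMod n)) : Prop :=
  ∀ l : ZMod n → ℤ, 1 ≤ ∑ a ∈ A, |l a| → ∑ a ∈ A, |l a| ≤ (t : ℤ) → ∑ a ∈ A, l a • a ≠ 0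

/-- `τ_±(ℤ_n, [1,t])`: the largest size of a `t`-independent set in `ℤ_n`. -/
noncomputable def tau (n t : ℕ) : ℕ :=
  sSup {k | ∃ A : Finset (ZMod n), IsTIndep t A ∧ A.card = k}

theorem tau_bdd (n t : ℕ) (hn : 0 < n) :
    BddAbove {k | ∃ A : Finset (ZMod n), IsTIndep t A ∧ A.card = k} := by
  have : NeZero n := ⟨by omega⟩
  refine ⟨n, ?_⟩
  rintro c ⟨A, _, rfl⟩
  have := Finset.card_le_univ A
  rwa [ZMod.card] at this

theorem le_tau {n t : ℕ} (hn : 0 < n) {A : Finset (ZMod n)} (hA : IsTIndep t A) :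
    A.card ≤ tau n t :=
  le_csSup (tau_bdd n t hn) ⟨A, hA, rfl⟩

theorem exists_of_tau {n t m : ℕ} (hn : 0 < n) (hm : m ≤ tau n t) :
    ∃ A : Finset (ZMod n), IsTIndep t A ∧ m ≤ A.card := by
  have hne : {k | ∃ A : Finset (ZMod n), IsTIndep t A ∧ A.card = k}.Nonempty := by
    refine ⟨0, ∅, ?_, rfl⟩
    intro l h1 _ _
    simp at h1
  obtain ⟨A, hA, hc⟩ := Nat.sSup_mem hne (tau_bdd n t hn)
  exact ⟨A, hA, hm.trans hc.ge⟩

theorem isTIndep_subset {n t : ℕ} {A B : Finset (ZMod n)} (hBA : B ⊆ A) (hA : IsTIndep t A) :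
    IsTIndep t B := by
  classical
  intro l h1 h2 h3
  set l' : ZMod n → ℤ := fun a => if a ∈ B then l a else 0 with hl'
  have e1 : ∑ a ∈ A, |l' a| = ∑ a ∈ B, |l a| := by
    rw [← sum_subset hBA]
    · apply sum_congr rfl
      intro a ha
      simp only [hl', if_pos ha]
    · intro a _ ha
      simp only [hl', if_neg ha, abs_zero]
  have e2 : ∑ a ∈ A, l' a • a = ∑ a ∈ B, l a • a := by
    rw [← sum_subset hBA]
    · apply sum_congr rfl
      intro a ha
      simp only [hl', if_pos ha]
    · intro a _ ha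
      simp only [hl', if_neg ha, zero_smul]
  exact hA l' (by rw [e1]; exact h1) (by rw [e1]; exact h2) (by rw [e2]; exact h3)

theorem isTIndep_mono {n t t' : ℕ} (ht : t ≤ t') {A : Finset (ZMod n)} (hA : IsTIndep t' A) :
    IsTIndep t A := fun l h1 h2 => hA l h1 (h2.trans (by exact_mod_cast ht))

/-- the upper bound for `t`. -/
theorem tindep_lower (d n t : ℕ) (hn : 0 < n) (hm : d + 1 ≤ tau n t) :
    critN (l1 (d := d + 1)) * ((t : ℝ) + 1) ^ (d + 1) ≤ n := by
  classical
  have : NeZero n := ⟨by omega⟩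
  obtain ⟨A, hA, hc⟩ := exists_of_tau hn hm
  obtain ⟨B, hB, hBc⟩ := Finset.exists_subset_card_eq hc
  have hB' := isTIndep_subset hB hA
  set e := (B.equivFinOfCardEq hBc).symm with he
  set a : Fin (d + 1) → ZMod n := fun i => (e i : ZMod n) with ha
  have hainj : Function.Injective a := Subtype.val_injective.comp e.injective
  have himg : univ.image a = B := by
    apply Finset.eq_of_subset_of_card_le
    · intro x hx
      obtain ⟨i, _, rfl⟩ := mem_image.mp hx
      exact (e i).2
    · rw [card_image_of_injective _ hainj, card_univ, Fintype.card_fin, hBc]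
  have h1 := critN_le (G := ZMod n) d (l1_normLike) (Fintype.linearCombination ℤ a)
    ((t : ℝ) + 1) (by positivity) (by
      intro y hy0 hy
      rw [Fintype.linearCombination_apply] at hy
      by_contra hlt
      rw [not_le] at hlt
      have hsum : ∑ j, |y j| ≤ (t : ℤ) := by
        have : ((∑ j, |y j| : ℤ) : ℝ) < ((t + 1 : ℤ) : ℝ) := by
          push_cast
          exact hlt
        have := Int.cast_lt.mp this
        omega
      have hpos : 1 ≤ ∑ j, |y j| := by
        obtain ⟨j, hj⟩ := Function.ne_iff.mp hy0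
        have h2 : 1 ≤ |y j| := Int.one_le_abs hj
        exact h2.trans (single_le_sum (f := fun j => |y j|) (fun _ _ => abs_nonneg _) (mem_univ j))
      -- coefficients on the set
      set l : ZMod n → ℤ := fun x => ∑ j, if a j = x then y j else 0 with hl
      have hla : ∀ j, l (a j) = y j := by
        intro j
        simp only [hl]
        rw [Finset.sum_eq_single j]
        · simp
        · intro k _ hk
          rw [if_neg (fun h => hk (hainj h))]
        · intro h; exact absurd (mem_univ _) h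
      refine hB' l ?_ ?_ ?_
      · rw [← himg, sum_image fun _ _ _ _ h => hainj h]
        simp only [hla]
        exact hpos
      · rw [← himg, sum_image fun _ _ _ _ h => hainj h]
        simp only [hla]
        exact hsum
      · rw [← himg, sum_image fun _ _ _ _ h => hainj h]
        simp only [hla]
        exact hy)
  rwa [ZMod.card] at h1

/-- from a linear form to a `t`-independent set. -/
theorem tindep_of_form (d n t : ℕ) (hn : 0 < n) (ht : 2 ≤ t) (ψ : (Fin (d + 1) → ℤ) →ₗ[ℤ] ℤ)
    (hψ : ∀ Y : Fin (d + 1) → ℤ, Y ≠ 0 → (n : ℤ) ∣ ψ Y → (t : ℝ) < l1 (fun j => (Y j : ℝ))) :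
    d + 1 ≤ tau n t := by
  classical
  set p : Fin (d + 1) → ZMod n := fun j => ((ψ (Pi.single j 1) : ℤ) : ZMod n) with hp
  have hψY : ∀ Y : Fin (d + 1) → ℤ, ((ψ Y : ℤ) : ZMod n) = ∑ j, Y j • p j := by
    intro Y
    have e : ψ Y = ∑ j, Y j * ψ (Pi.single j 1) := by
      conv_lhs => rw [show Y = ∑ j, Y j • (Pi.single j 1 : Fin (d + 1) → ℤ) from by
        ext k
        simp [Finset.sum_apply, Pi.single_apply]]
      rw [map_sum]
      apply sum_congr rfl
      intro j _
      rw [map_smul, smul_eq_mul]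
    rw [e]
    push_cast
    apply sum_congr rfl
    intro j _
    rw [hp, zsmul_eq_mul]
  have key : ∀ Y : Fin (d + 1) → ℤ, Y ≠ 0 → ∑ j, Y j • p j = 0 → (t : ℤ) < ∑ j, |Y j| := by
    intro Y hY h0
    rw [← hψY, ZMod.intCast_zmod_eq_zero_iff_dvd] at h0
    have h1 := hψ Y hY h0
    have h2 : ((t : ℤ) : ℝ) < ((∑ j, |Y j| : ℤ) : ℝ) := by
      push_cast
      exact h1
    exact_mod_cast h2
  have hinj : Function.Injective p := by
    intro i j hij
    by_contra hne
    have h1 := key (Pi.single i 1 - Pi.single j 1) (by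
      intro h
      have := congrFun h i
      rw [Pi.sub_apply, Pi.single_eq_same, Pi.single_eq_of_ne hne, Pi.zero_apply] at this
      omega) (by
      have e : ∀ k : Fin (d + 1), ∑ x, (Pi.single k 1 : Fin (d + 1) → ℤ) x • p x = p k := by
        intro k
        rw [Finset.sum_eq_single k]
        · simp
        · intro x _ hx
          rw [Pi.single_eq_of_ne hx, zero_smul]
        · intro hi; exact absurd (mem_univ _) hi
      simp only [Pi.sub_apply, sub_smul]
      rw [sum_sub_distrib, e, e, hij, sub_self])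
    have h2 : ∑ x, |(Pi.single i 1 - Pi.single j 1 : Fin (d + 1) → ℤ) x| ≤ 2 := by
      calc ∑ x, |(Pi.single i 1 - Pi.single j 1 : Fin (d + 1) → ℤ) x|
          ≤ ∑ x, ((Pi.single i 1 : Fin (d + 1) → ℤ) x + (Pi.single j 1 : Fin (d + 1) → ℤ) x) := by
            apply sum_le_sum
            intro x _
            rw [Pi.sub_apply]
            have a1 : 0 ≤ (Pi.single i 1 : Fin (d + 1) → ℤ) x := by
              rw [Pi.single_apply]; split_ifs <;> norm_num
            have a2 : 0 ≤ (Pi.single j 1 : Fin (d + 1) → ℤ) x := by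
              rw [Pi.single_apply]; split_ifs <;> norm_num
            rw [abs_le]
            constructor <;> omega
        _ = 2 := by
            rw [sum_add_distrib, Finset.sum_pi_single', Finset.sum_pi_single']
            simp
    omega
  set A : Finset (ZMod n) := univ.image p with hA
  have hcard : A.card = d + 1 := by
    rw [hA, card_image_of_injective _ hinj, card_univ, Fintype.card_fin]
  have hT : IsTIndep t A := by
    intro l h1 h2 h3
    rw [hA, sum_image fun _ _ _ _ h => hinj h] at h1 h2 h3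
    have := key (fun j => l (p j)) (by
      intro h0
      have : ∑ j, |l (p j)| = 0 := by
        apply sum_eq_zero
        intro j _
        have := congrFun h0 j
        simp only [Pi.zero_apply] at this
        rw [this, abs_zero]
      omega) h3
    omega
  have := le_tau hn hT
  omega

/-- the existence for all large `n`. -/
theorem tindep_upper (d : ℕ) (ρ : ℝ) (hρ : critN (l1 (d := d + 1)) < ρ) (hρ0 : 0 < ρ) :
    ∃ n₀ : ℕ, ∀ n ≥ n₀, ∀ t : ℕ, ρ * (t : ℝ) ^ (d + 1) < n → d + 1 ≤ tau n t := by
  obtain ⟨n₀, h0⟩ := good_crit d l1_normLike ρ hρ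
  obtain ⟨n₁, h1⟩ := exists_nat_gt (ρ * 2 ^ (d + 1))
  refine ⟨max n₀ (max n₁ 1), fun n hn t ht => ?_⟩
  have hn0 : n₀ ≤ n := (le_max_left _ _).trans hn
  have hn1 : n₁ ≤ n := ((le_max_left _ _).trans (le_max_right _ _)).trans hn
  have hnp : 0 < n := ((le_max_right _ _).trans (le_max_right _ _)).trans hn
  obtain ⟨ψ, hψ⟩ := h0 n hn0
  have main : ∀ s : ℕ, 2 ≤ s → ρ * (s : ℝ) ^ (d + 1) < n → d + 1 ≤ tau n s := by
    intro s hs hs2
    refine tindep_of_form d n s hnp hs ψ fun Y hY hnY => ?_
    have h3 := hψ Y hY hnY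
    have h4 : ρ * (s : ℝ) ^ (d + 1) < ρ * l1 (fun j => (Y j : ℝ)) ^ (d + 1) :=
      lt_of_lt_of_le hs2 h3
    have h5 := lt_of_mul_lt_mul_left h4 hρ0.le
    exact lt_of_pow_lt_pow_left₀ (d + 1) (l1_normLike.nonneg _) h5
  rcases le_or_gt 2 t with h2 | h2
  · exact main t h2 ht
  · have h3 := main 2 le_rfl (by
      have : (n₁ : ℝ) ≤ n := by exact_mod_cast hn1
      push_cast
      linarith)
    obtain ⟨A, hA, hc⟩ := exists_of_tau hnp h3
    exact hc.trans (le_tau hnp (isTIndep_mono (by omega) hA))

theorem crit_l1_pos (d : ℕ) : 0 < critN (l1 (d := d + 1)) := by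
  have h0 : 0 < crit (d + 1) := by
    rw [← c_eq_crit]
    exact c_pos d
  have h1 : crit (d + 1) / 2 ^ (d + 1) ≤ critN (l1 (d := d + 1)) := by
    apply le_csInf (critN_nonempty d l1_normLike)
    rintro _ ⟨B, hB, hz, rfl⟩
    rw [div_le_iff₀ (by positivity)]
    have hdet : ((2 : ℝ) • B).det = 2 ^ (d + 1) * B.det := by
      rw [Matrix.det_smul, Fintype.card_fin]
    refine le_trans (csInf_le ⟨0, ?_⟩ ⟨(2 : ℝ) • B, ?_, ?_, rfl⟩) ?_
    · rintro _ ⟨B, _, _, rfl⟩
      exact abs_nonneg _
    · rw [hdet]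
      positivity
    · intro z hz0
      have h2 := hz z hz0
      have e : ((2 : ℝ) • B).mulVec (fun i => (z i : ℝ)) =
          fun j => 2 * (B.mulVec fun i => (z i : ℝ)) j := by
        rw [Matrix.smul_mulVec]
        rfl
      rw [e, nrm_mul 2 (by norm_num)]
      have h3 : l1 (B.mulVec fun i => (z i : ℝ)) ≤ 2 * nrm (B.mulVec fun i => (z i : ℝ)) := by
        unfold l1 nrm
        set v := B.mulVec fun i => (z i : ℝ) with hv
        have e2 : ∑ i, |v i| = ∑ i, max (v i) 0 + ∑ i, max (-(v i)) 0 := by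
          rw [← sum_add_distrib]
          apply sum_congr rfl
          intro i _
          rcases le_total 0 (v i) with h | h
          · rw [abs_of_nonneg h, max_eq_left h, max_eq_right (by linarith), add_zero]
          · rw [abs_of_nonpos h, max_eq_right h, max_eq_left (by linarith), zero_add]
        rw [e2]
        have a1 := le_max_left (∑ i, max (v i) 0) (∑ i, max (-(v i)) 0)
        have a2 := le_max_right (∑ i, max (v i) 0) (∑ i, max (-(v i)) 0)
        linarith
      linarith
    · rw [hdet, abs_mul, abs_of_pos (by positivity : (0 : ℝ) < 2 ^ (d + 1)), mul_comm]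
  exact lt_of_lt_of_le (by positivity) h1

end Pool.Agent.H560Bh
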