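import Pool.Agent.H560Bh.GoodP
import Pool.Agent.H560Bh.TIndep
import Pool.Agent.Results.MP_f688e9_co.AllSizes

namespace Pool.Agent.H560Bh

open Finset Filter Topology

/-- coordinates for the lattice of integer vectors with even sum. -/
def tr {d : ℕ} (x : Fin (d + 1) → ℝ) : Fin (d + 1) → ℝ :=
  Fin.cons (2 * x 0 - ∑ j : Fin d, x j.succ) (fun j => x j.succ)

/-- the `ℓ ¹` norm in these coordinates. -/
noncomputable def n2 {d : ℕ} (x : Fin (d + 1) → ℝ) : ℝ := l1 (tr x)

theorem n2_eq {d : ℕ} (x : Fin (d + 1) → ℝ) :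
    n2 x = |2 * x 0 - ∑ j : Fin d, x j.succ| + ∑ j : Fin d, |x j.succ| := by
  unfold n2 l1 tr
  rw [Fin.sum_univ_succ]
  simp only [Fin.cons_zero, Fin.cons_succ]

theorem n2_normLike {d : ℕ} : NormLikeC 2 (n2 (d := d)) where
  add := fun a b => by
    unfold n2
    refine le_trans (le_of_eq ?_) (l1_normLike.add (tr a) (tr b))
    congr 1
    ext i
    refine Fin.cases ?_ (fun j => ?_) i
    · simp only [tr, Fin.cons_zero]
      rw [sum_add_distrib]
      ring
    · simp only [tr, Fin.cons_succ]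
  smul := fun c hc a => by
    unfold n2
    rw [← l1_normLike.smul c hc]
    congr 1
    ext i
    refine Fin.cases ?_ (fun j => ?_) i
    · simp only [tr, Fin.cons_zero]
      rw [mul_sub, mul_sum]
      ring
    · simp only [tr, Fin.cons_succ]
  le_sum := fun a => by
    rw [n2_eq, Fin.sum_univ_succ]
    have h1 : |2 * a 0 - ∑ j : Fin d, a j.succ| ≤ 2 * |a 0| + ∑ j : Fin d, |a j.succ| := by
      calc |2 * a 0 - ∑ j : Fin d, a j.succ| ≤ |2 * a 0| + |∑ j : Fin d, a j.succ| := abs_sub _ _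
        _ ≤ 2 * |a 0| + ∑ j : Fin d, |a j.succ| := by
          rw [abs_mul, abs_of_pos (by norm_num : (0 : ℝ) < 2)]
          gcongr
          exact abs_sum_le_sum_abs _ _
    linarith
  abs_le := fun a i => by
    rw [n2_eq]
    have h0 : 0 ≤ |2 * a 0 - ∑ j : Fin d, a j.succ| := abs_nonneg _
    have h00 : 0 ≤ ∑ j : Fin d, |a j.succ| := sum_nonneg fun _ _ => abs_nonneg _
    refine Fin.cases ?_ (fun j => ?_) i
    · have h1 : |2 * a 0| ≤ |2 * a 0 - ∑ j : Fin d, a j.succ| + ∑ j : Fin d, |a j.succ| := by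
        have e : 2 * a 0 = (2 * a 0 - ∑ j : Fin d, a j.succ) + ∑ j : Fin d, a j.succ := by ring
        calc |2 * a 0| = |(2 * a 0 - ∑ j : Fin d, a j.succ) + ∑ j : Fin d, a j.succ| := by
              rw [← e]
          _ ≤ |2 * a 0 - ∑ j : Fin d, a j.succ| + |∑ j : Fin d, a j.succ| := abs_add_le _ _
          _ ≤ _ := by gcongr; exact abs_sum_le_sum_abs _ _
      rw [abs_mul, abs_of_pos (by norm_num : (0 : ℝ) < 2)] at h1
      have := abs_nonneg (a 0)
      linarith
    · have h1 : |a j.succ| ≤ ∑ j : Fin d, |a j.succ| :=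
        single_le_sum (f := fun j : Fin d => |a j.succ|) (fun _ _ => abs_nonneg _) (mem_univ j)
      linarith

/-- the inverse change of coordinates as a matrix. -/
noncomputable def sM (d : ℕ) : Matrix (Fin (d + 1)) (Fin (d + 1)) ℝ :=
  Matrix.of fun i j => if i = 0 then 1 / 2 else if i = j then 1 else 0

theorem sM_det (d : ℕ) : (sM d).det = 1 / 2 := by
  rw [Matrix.det_of_isUpperTriangular]
  · rw [Fin.prod_univ_succ]
    simp [sM]
  · intro i j hij
    simp only [id] at hij
    have h1 : i ≠ 0 := by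
      rintro rfl
      exact absurd hij (by simp)
    simp only [sM, Matrix.of_apply, if_neg h1, if_neg (ne_of_gt hij)]

theorem tr_sM (d : ℕ) (v : Fin (d + 1) → ℝ) : tr ((sM d).mulVec v) = v := by
  have h0 : (sM d).mulVec v 0 = (∑ j, v j) / 2 := by
    simp only [Matrix.mulVec, dotProduct, sM, Matrix.of_apply, if_true]
    rw [← mul_sum]
    ring
  have h1 : ∀ j : Fin d, (sM d).mulVec v j.succ = v j.succ := by
    intro j
    simp only [Matrix.mulVec, dotProduct, sM, Matrix.of_apply, if_neg (Fin.succ_ne_zero j)]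
    simp
  ext i
  refine Fin.cases ?_ (fun j => ?_) i
  · simp only [tr, Fin.cons_zero, h0, h1]
    rw [Fin.sum_univ_succ]
    ring
  · simp only [tr, Fin.cons_succ, h1]

theorem goodEven (d : ℕ) (ρ : ℝ) (hρ : critN (l1 (d := d + 1 + 1)) < ρ) :
    ∃ n₀ : ℕ, ∀ n ≥ n₀, ∃ a : Fin (d + 1 + 1) → ℤ, ∀ x : Fin (d + 1 + 1) → ℤ, x ≠ 0 →
      2 ∣ ∑ i, x i → (n : ℤ) ∣ ∑ i, x i * a i →
      2 * (n : ℝ) ≤ ρ * (∑ i, |(x i : ℝ)|) ^ (d + 1 + 1) := by
  obtain ⟨v, ⟨B, hB, hz, rfl⟩, hv⟩ :=
    exists_lt_of_csInf_lt (critN_nonempty (d + 1) l1_normLike) hρ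
  have hdet : (sM (d + 1) * B).det = 1 / 2 * B.det := by
    rw [Matrix.det_mul, sM_det]
  obtain ⟨n₀, hn₀⟩ := good_realQ (d + 1) (C := 2) (N := n2)
    (Q := GoodP d (Pi.single 0 1) n2)
    (fun u D hD b hb hz ρ hρ => good_dataP d (by norm_num) n2_normLike _ u D hD b hb hz ρ hρ)
    (by norm_num) n2_normLike (sM (d + 1) * B) (by
      rw [hdet]
      exact mul_ne_zero (by norm_num) hB) (by
      intro z hz0
      have h1 := hz z hz0
      unfold n2
      rw [← Matrix.mulVec_mulVec, tr_sM]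
      exact h1) (ρ / 2) (by
      rw [hdet, abs_mul, abs_of_pos (by norm_num : (0 : ℝ) < 1 / 2)]
      linarith)
  refine ⟨n₀, fun n hn => ?_⟩
  obtain ⟨ψ, ⟨e, he⟩, hψ⟩ := hn₀ n hn
  refine ⟨fun i => if i = 0 then e else e + ψ (Pi.single i 1), fun x hx hx2 hxa => ?_⟩
  obtain ⟨s, hs⟩ := hx2
  have hs' : x 0 = 2 * s - ∑ j : Fin (d + 1), x j.succ := by
    rw [Fin.sum_univ_succ] at hs
    omega
  set X : Fin (d + 1 + 1) → ℤ := Fin.cons s (fun j => x j.succ) with hX
  have hX0 : X ≠ 0 := by
    intro h0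
    apply hx
    have h1 : s = 0 := by
      have := congrFun h0 0
      simpa [hX] using this
    have h2 : ∀ j : Fin (d + 1), x j.succ = 0 := by
      intro j
      have := congrFun h0 j.succ
      simpa [hX] using this
    ext i
    refine Fin.cases ?_ (fun j => ?_) i
    · rw [hs', h1]
      simp [h2]
    · simpa using h2 j
  have hψX : ψ X = ∑ i, x i * (if i = 0 then e else e + ψ (Pi.single i 1)) := by
    have e1 : ψ X = ∑ j, X j * ψ (Pi.single j 1) := by
      conv_lhs => rw [show X = ∑ j, X j • (Pi.single j 1 : Fin (d + 1 + 1) → ℤ) from by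
        ext k
        simp [Finset.sum_apply, Pi.single_apply]]
      rw [map_sum]
      apply sum_congr rfl
      intro j _
      rw [map_smul, smul_eq_mul]
    rw [e1, Fin.sum_univ_succ (fun j => X j * ψ (Pi.single j 1)),
      Fin.sum_univ_succ (fun i => x i * (if i = 0 then e else e + ψ (Pi.single i 1))), he]
    simp only [hX, Fin.cons_zero, Fin.cons_succ, if_true, if_neg (Fin.succ_ne_zero _), mul_add]
    rw [sum_add_distrib, hs', ← sum_mul]
    ring
  have h1 := hψ X hX0 (by rw [hψX]; exact hxa)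
  have h2 : n2 (fun j => (X j : ℝ)) = ∑ i, |(x i : ℝ)| := by
    rw [n2_eq, Fin.sum_univ_succ (fun i => |(x i : ℝ)|)]
    simp only [hX, Fin.cons_zero, Fin.cons_succ]
    congr 2
    rw [hs']
    push_cast
    ring
  rw [h2] at h1
  linarith

open Pool.Agent.Results.MP_f688e9_co

theorem signed_upper (d : ℕ) (ρ : ℝ) (hρ : critN (l1 (d := d + 1 + 1)) < ρ) (hρ0 : 0 < ρ) :
    ∃ n₀ : ℕ, ∀ n ≥ n₀, ∀ h : ℕ, 1 ≤ h → ρ * (2 * (h : ℝ)) ^ (d + 1 + 1) < 2 * n →
      d + 1 + 1 ≤ SmallModuli.sigma n h := by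
  obtain ⟨n₀, h0⟩ := goodEven d ρ hρ
  refine ⟨max n₀ 1, fun n hn h hh hlt => ?_⟩
  have hn0 : n₀ ≤ n := (le_max_left _ _).trans hn
  have hn1 : 1 ≤ n := (le_max_right _ _).trans hn
  have : NeZero n := ⟨by omega⟩
  obtain ⟨a, ha⟩ := h0 n hn0
  obtain ⟨A, hA, hc⟩ := AllSizes.of_family (n := n) hh a (by
    intro x hx1 hx2 hx3
    by_contra hne
    have hx0 : x ≠ 0 := by
      rintro rfl
      exact hne fun i => rfl
    have h1 := ha x hx0 hx2 hx3
    have h2 : ∑ i, |(x i : ℝ)| ≤ 2 * (h : ℝ) := by exact_mod_cast hx1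
    have h3 : 0 ≤ ∑ i, |(x i : ℝ)| := sum_nonneg fun _ _ => abs_nonneg _
    have h4 : ρ * (∑ i, |(x i : ℝ)|) ^ (d + 1 + 1) ≤ ρ * (2 * (h : ℝ)) ^ (d + 1 + 1) := by gcongr
    linarith)
  rw [Fintype.card_fin] at hc
  exact (SmallModuli.le_sigma_iff h _ hh).2 ⟨A, hA, hc⟩

theorem signed_lower (d n h : ℕ) (hn : 1 ≤ n) (hh : 1 ≤ h)
    (hm : d + 1 + 1 ≤ SmallModuli.sigma n h) :
    critN (l1 (d := d + 1 + 1)) * (2 * (h : ℝ) + 2) ^ (d + 1 + 1) ≤ 2 * n := by
  classical
  have : NeZero n := ⟨by omega⟩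
  obtain ⟨A, hA, hAc⟩ := (SmallModuli.le_sigma_iff h _ hh).1 hm
  set e := (A.equivFinOfCardEq hAc).symm with he
  set a : Fin (d + 1 + 1) → ZMod n := fun i => (e i : ZMod n) with ha
  have hainj : Function.Injective a := Subtype.val_injective.comp e.injective
  have himg : univ.image a = A := by
    apply Finset.eq_of_subset_of_card_le
    · intro x hx
      obtain ⟨i, _, rfl⟩ := mem_image.mp hx
      exact (e i).2
    · rw [card_image_of_injective _ hainj, card_univ, Fintype.card_fin, hAc]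
  have h1 := critN_le (G := ZMod n × ZMod 2) (d + 1) l1_normLike
    (Fintype.linearCombination ℤ (fun j => (a j, (1 : ZMod 2)))) (2 * (h : ℝ) + 2)
    (by positivity) (by
      intro y hy0 hy
      rw [Fintype.linearCombination_apply] at hy
      have hy1 : ∑ j, y j • a j = 0 := by
        have := congrArg Prod.fst hy
        rw [Prod.fst_sum] at this
        exact this
      have hy2 : (2 : ℤ) ∣ ∑ j, y j := by
        have := congrArg Prod.snd hy
        rw [Prod.snd_sum] at this
        have h2 : ((∑ j, y j : ℤ) : ZMod 2) = 0 := by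
          push_cast
          have e2 : (∑ j, (y j : ZMod 2)) = ∑ c, (y c • (a c, (1 : ZMod 2))).2 := by
            apply sum_congr rfl
            intro j _
            simp
          rw [e2, this]
          rfl
        exact_mod_cast (ZMod.intCast_zmod_eq_zero_iff_dvd _ 2).mp h2
      by_contra hlt
      rw [not_le] at hlt
      have hsum : ∑ j, |y j| < 2 * (h : ℤ) + 2 := by
        have h3 : ((∑ j, |y j| : ℤ) : ℝ) < ((2 * (h : ℤ) + 2 : ℤ) : ℝ) := by
          push_cast
          exact hlt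
        exact_mod_cast h3
      have hpar := AllSizes.abs_parity univ y hy2
      have hle : ∑ j, |y j| ≤ 2 * (h : ℤ) := by omega
      obtain ⟨l, m, hl, hm', hlm⟩ := AllSizes.split univ (by
        rw [card_univ, Fintype.card_fin]; omega) h y hle hpar
      set tf : (Fin (d + 1 + 1) → ℤ) → ZMod n → ℤ :=
        fun f x => ∑ j, if a j = x then f j else 0 with htf
      have htfa : ∀ f j, tf f (a j) = f j := by
        intro f j
        simp only [htf]
        rw [Finset.sum_eq_single j]
        · simp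
        · intro k _ hk
          rw [if_neg (fun h => hk (hainj h))]
        · intro h; exact absurd (mem_univ _) h
      have key := hA (tf l) (tf m) (by
        rw [← himg, sum_image fun _ _ _ _ h => hainj h]
        simp only [htfa]
        exact hl) (by
        rw [← himg, sum_image fun _ _ _ _ h => hainj h]
        simp only [htfa]
        exact hm') (by
        rw [← himg, sum_image fun _ _ _ _ h => hainj h, sum_image fun _ _ _ _ h => hainj h]
        simp only [htfa]
        rw [← sub_eq_zero, ← sum_sub_distrib, ← hy1]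
        apply sum_congr rfl
        intro j _
        rw [← hlm j (mem_univ j), zsmul_eq_mul]
        push_cast
        ring)
      apply hy0
      ext j
      have h5 := key (a j) (by rw [← himg]; exact mem_image_of_mem _ (mem_univ _))
      rw [htfa, htfa] at h5
      have h6 := hlm j (mem_univ j)
      rw [Pi.zero_apply]
      omega)
  rw [Fintype.card_prod, ZMod.card, ZMod.card] at h1
  push_cast at h1
  linarith

end Pool.Agent.H560Bh
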