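import Pool.Agent.H560Bh.TIndep

namespace Pool.Agent.H560Bh

open Finset Filter Topology

theorem six_le (a b c : ℤ) (hd : (38 : ℤ) ∣ a + 7 * b + 11 * c) (h : |a| + |b| + |c| < 6) :
    a = 0 ∧ b = 0 ∧ c = 0 := by
  obtain ⟨q, hq⟩ := hd
  have h1 := abs_nonneg a
  have h2 := abs_nonneg b
  have h3 := abs_nonneg c
  have hb : |b| ≤ 5 := by omega
  have hc : |c| ≤ 5 := by omega
  rw [abs_le] at hb hc
  obtain ⟨hb1, hb2⟩ := hb
  obtain ⟨hc1, hc2⟩ := hc
  have ha : a ≤ |a| := le_abs_self a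
  have ha' : -a ≤ |a| := neg_le_abs a
  interval_cases b <;> interval_cases c <;> simp only [abs_neg, Nat.abs_ofNat, abs_one, abs_zero] at h <;> omega

theorem crit3_le : critN (l1 (d := 3)) ≤ 19 / 108 := by
  have h1 := critN_le (G := ZMod 38) 2 (l1_normLike)
    (Fintype.linearCombination ℤ (![1, 7, 11] : Fin 3 → ZMod 38)) 6 (by norm_num) (by
      intro y hy0 hy
      rw [Fintype.linearCombination_apply] at hy
      by_contra hlt
      rw [not_le] at hlt
      unfold l1 at hlt
      change (∑ i : Fin 3, y i • (![1, 7, 11] : Fin 3 → ZMod 38) i) = 0 at hy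
      change (∑ i : Fin 3, |(y i : ℝ)|) < 6 at hlt
      rw [Fin.sum_univ_three] at hy hlt
      have hlt' : |y 0| + |y 1| + |y 2| < 6 := by
        have : ((|y 0| + |y 1| + |y 2| : ℤ) : ℝ) < ((6 : ℤ) : ℝ) := by
          push_cast
          exact hlt
        exact_mod_cast this
      have hy2 : (y 0 : ZMod 38) * 1 + (y 1 : ZMod 38) * 7 + (y 2 : ZMod 38) * 11 = 0 := by
        rw [← hy]
        simp
      have hdvd : (38 : ℤ) ∣ y 0 + 7 * y 1 + 11 * y 2 := by
        have h2 : ((y 0 + 7 * y 1 + 11 * y 2 : ℤ) : ZMod 38) = 0 := by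
          push_cast
          linear_combination hy2
        exact_mod_cast (ZMod.intCast_zmod_eq_zero_iff_dvd _ 38).mp h2
      obtain ⟨e1, e2, e3⟩ := six_le _ _ _ hdvd hlt'
      apply hy0
      funext i
      change Fin 3 at i
      fin_cases i
      · exact e1
      · exact e2
      · exact e3)
  rw [ZMod.card] at h1
  norm_num at h1 ⊢
  linarith

theorem tau_two (k n : ℕ) (hk : 1 ≤ k) (hn : 2 * k ^ 2 + 2 * k + 1 ≤ n) : 2 ≤ tau n (2 * k) := by
  classical
  have hn0 : 0 < n := by omega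
  have : NeZero n := ⟨by omega⟩
  have hne : ((k : ℕ) : ZMod n) ≠ ((k + 1 : ℕ) : ZMod n) := by
    intro h
    have h1 : (((1 : ℤ)) : ZMod n) = 0 := by
      push_cast at h ⊢
      linear_combination -h
    rw [ZMod.intCast_zmod_eq_zero_iff_dvd] at h1
    have := Int.le_of_dvd (by norm_num) h1
    nlinarith
  set A : Finset (ZMod n) := {((k : ℕ) : ZMod n), ((k + 1 : ℕ) : ZMod n)} with hA
  have hc : A.card = 2 := by rw [hA, card_pair hne]
  have hT : IsTIndep (2 * k) A := by
    intro l h1 h2 h3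
    rw [hA, sum_pair hne] at h1 h2 h3
    set x := l ((k : ℕ) : ZMod n) with hx
    set y := l ((k + 1 : ℕ) : ZMod n) with hy
    have h4 : (((x * k + y * (k + 1) : ℤ)) : ZMod n) = 0 := by
      rw [zsmul_eq_mul, zsmul_eq_mul] at h3
      push_cast at h3 ⊢
      exact h3
    rw [ZMod.intCast_zmod_eq_zero_iff_dvd] at h4
    have h5 : |x * k + y * (k + 1)| < n := by
      have a1 : |x * k + y * (k + 1)| ≤ |x| * k + |y| * (k + 1) := by
        calc |x * k + y * (k + 1)| ≤ |x * k| + |y * ((k : ℤ) + 1)| := abs_add_le _ _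
          _ = |x| * k + |y| * (k + 1) := by
            rw [abs_mul, abs_mul, Nat.abs_cast, abs_of_nonneg (by positivity : (0 : ℤ) ≤ (k : ℤ) + 1)]
      have a2 : (|x| + |y|) * ((k : ℤ) + 1) ≤ (2 * k : ℕ) * ((k : ℤ) + 1) := by gcongr
      have a3 : 0 ≤ |x| := abs_nonneg x
      have a4 : (2 * (k : ℤ) ^ 2 + 2 * k + 1) ≤ n := by exact_mod_cast hn
      push_cast at a2
      nlinarith
    have h6 : x * k + y * (k + 1) = 0 := Int.eq_zero_of_abs_lt_dvd h4 h5
    have h7 : y = -(k * (x + y)) := by linear_combination h6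
    have h8 : x = (k + 1) * (x + y) := by linear_combination -h6
    set s := x + y with hs
    have hs0 : s ≠ 0 := by
      intro h0
      rw [h0] at h7 h8
      simp only [mul_zero, neg_zero] at h7 h8
      rw [h7, h8] at h1
      simp at h1
    have h9 : 1 ≤ |s| := Int.one_le_abs hs0
    have h10 : |x| = (k + 1) * |s| := by
      rw [h8, abs_mul, abs_of_nonneg (by positivity : (0 : ℤ) ≤ (k : ℤ) + 1)]
    have h11 : |y| = k * |s| := by
      rw [h7, abs_neg, abs_mul, Nat.abs_cast]
    rw [h10, h11] at h2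
    push_cast at h2
    nlinarith
  have := le_tau hn0 hT
  omega

end Pool.Agent.H560Bh
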